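import Pool.Agent.V8H41.MD.Sub
import Pool.Agent.Y648.CS.T_BEG

/-!
# The beginning and the end of the phases
-/

set_option autoImplicit false
set_option linter.all false

namespace Pool.Agent.V8H41.MD

open Pool.Agent.NPC Pool.Agent.H558R2 Pool.Agent.H622R3.SM Pool.Agent.Y648.CS Pool.Agent.Y529.CS

variable {M n : ℕ} (σ : List Bool) (A : Fin M → Fin n → ℝ) (b : Fin M → ℝ)

/-- There is a point in the centre. -/
def Lo : Prop := ∃ u : Fin M → ℝ, (∀ i, ∑ d, sA σ A d i * u d = 0) ∧ ∑ d, u d ≤ 1 ∧
  ∀ d, dlR M n ≤ u d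

theorem dlR_pos (m n : ℕ) : 0 < dlR m n := by
  unfold dlR
  positivity

theorem epR_pos (m n : ℕ) : 0 < epR m n := by
  unfold epR
  positivity

theorem uu_nonneg {x : ℕ → ℝ} (h : ∀ c ∈ Xc M (drS M σ), 0 ≤ x c) (d : Fin M) : 0 ≤ uu σ x d :=
  h _ ((mem_XcS σ _).2 ⟨d, rfl⟩)

theorem begX0 (hM : S_MOV) (hlo : Lo σ A) :
    Inv M n 0 (start A b) (drS M σ) (64 * (cD M n * cD M n)) moOne
      (List.replicate (M + M) moOne) ∧
    ∀ x ∈ Lsp M n 0 (start A b) (drS M σ), (∀ c ∈ Xc M (drS M σ), 0 ≤ x c) → 0 ≤ x (M + M) := by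
  obtain ⟨hM1, hM2, hM3, hM4, hM5, hM6, hM7, hM8, hM9, hM10, hM11⟩ := hM M n (start A b)
  have hG : ∀ E, MoG M n (start A b) E moOne := by
    intro E
    refine ⟨⟨Nat.zero_le _, Nat.zero_le _, Nat.zero_le _, Nat.zero_le _⟩, hM2, ?_⟩
    rw [hM1]
    exact one_pos
  have hrep : ∀ c, (List.replicate (M + M) moOne).getD c moOne = moOne := by
    intro c
    by_cases hc : c < M + M
    · rw [List.getD_eq_getElem _ _ (by simpa using hc)]
      simp
    · rw [List.getD_eq_default _ _ (by simpa using hc)]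
  have hwf : ∀ c, wf M n (start A b) moOne (List.replicate (M + M) moOne) c = 1 := by
    intro c
    unfold wf wc
    rw [hrep]
    split_ifs <;> exact hM1
  have hq0 : ∀ x ∈ Lsp M n 0 (start A b) (drS M σ), (∀ c ∈ Xc M (drS M σ), 0 ≤ x c) →
      0 ≤ x (M + M) := by
    intro x hx1 hx2
    rw [mem_LspS] at hx1
    rw [hx1.2.1]
    refine Finset.sum_nonneg fun d _ => ?_
    split_ifs
    · exact le_rfl
    · exact uu_nonneg σ hx2 d
  refine ⟨⟨by simp, hG _, fun c _ => ?_, ?_, ?_⟩, hq0⟩
  · rw [hrep]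
    exact hG _
  · intro x hx
    obtain ⟨hx1, hx2, hx3, hx4⟩ := hx
    have hqx := hq0 x hx1 hx2
    rw [mem_LspS] at hx1
    obtain ⟨hL1, hL2, hL3⟩ := hx1
    have hu := uu_nonneg σ hx2
    have hle : ∀ d : Fin M, uu σ x d ≤ 1 := by
      intro d
      rw [hL3] at hx3
      exact (Finset.single_le_sum (f := fun d : Fin M => uu σ x d)
        (fun e _ => hu e) (Finset.mem_univ d)).trans hx3
    refine ⟨fun c hc => ?_, ?_, ?_⟩
    · rw [hwf]
      obtain ⟨d, rfl⟩ := (mem_XcS σ c).1 hc
      exact hle d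
    · have h2 := M0R_ge M n
      rw [hM1]
      linarith
    · rw [hL3]
      exact Finset.sum_nonneg fun c _ => hu c
  · intro c hc
    obtain ⟨d, rfl⟩ := (mem_XcS σ c).1 hc
    obtain ⟨u, hu1, hu2, hu3⟩ := hlo
    have hu0 : ∀ d, 0 ≤ u d := fun d => (dlR_pos M n).le.trans (hu3 d)
    refine ⟨mkS σ u (∑ d : Fin M, (if sg σ d = true then 0 else u d)) (∑ d, u d), ⟨?_, ?_, ?_, ?_⟩, ?_⟩
    · rw [mem_LspS, uu_mkS, mkS_q, mkS_nu]
      exact ⟨hu1, rfl, rfl⟩
    · intro c hc
      obtain ⟨e, rfl⟩ := (mem_XcS σ c).1 hc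
      rw [mkS_ps]
      exact hu0 e
    · rw [mkS_nu]
      exact hu2
    · rw [mkS_q, hM1]
      refine le_trans (Finset.sum_le_sum fun d _ => ?_) hu2
      split_ifs
      · exact hu0 d
      · exact le_rfl
    · rw [hwf, mul_one, mkS_ps]
      exact hu3 d

/-- Solutions without artificial coordinates. -/
theorem mem_SlS0 (u : Fin M → ℝ) (hu : ∀ d, 0 ≤ u d) (h0 : ∀ d : Fin M, ¬ sg σ d = true → u d = 0)
    (h1 : ∑ d, u d ≤ 1) (hA : ∀ i, ∑ d, A d i * u d = 0) :
    mkS σ u 0 (∑ d, u d) ∈ Sl (Lsp M n 0 (start A b) (drS M σ)) (Xc M (drS M σ)) (M + M)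
      (M + M + 1) 0 := by
  refine ⟨?_, ?_, ?_, ?_⟩
  · rw [mem_LspS, uu_mkS, mkS_q, mkS_nu]
    refine ⟨fun i => ?_, ?_, rfl⟩
    · rw [← hA i]
      refine Finset.sum_congr rfl fun d _ => ?_
      unfold sA
      split_ifs with h
      · rfl
      · rw [h0 d h]
        ring
    · refine (Finset.sum_eq_zero fun d _ => ?_).symm
      split_ifs with h
      · rfl
      · exact h0 d h
  · intro c hc
    obtain ⟨e, rfl⟩ := (mem_XcS σ c).1 hc
    rw [mkS_ps]
    exact hu e
  · rw [mkS_nu]
    exact h1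
  · rw [mkS_q]

theorem mask_lt {B : List Bool} {c : ℕ} (h : (mask M σ B).getD c false = true) : c < M :=
  ((mask_getD M σ B c).1 h).1

theorem ps_of {B : List Bool} {c : ℕ} (h : (mask M σ B).getD c false = true) : ps M σ c = c := by
  unfold ps
  rw [if_pos ((mask_getD M σ B c).1 h).2.1]

theorem begX1 (hM : S_MOV) {E j : ℕ} (W : List Mo) (B : List Bool)
    (hE : 64 * (cD M n * cD M n) ≤ E) (hT : Trm M n 0 (start A b) (drS M σ) E W B) :
    (j < M → start A b [1, j] ≠ 0 → (∀ i < M, |start A b [1, i]| ≤ |start A b [1, j]|) →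
      ∀ o, o = signOut (prV M n (start A b) 0 ((t1 M n j).2.1 ++ (t1 M n j).2.2)) →
      Inv M n 1 (start A b) (dr1 M (mask M σ B)) E (st1 M n j o W (mask M σ B)).2.1
        (st1 M n j o W (mask M σ B)).2.2.1) ∧
    ((∃ x ∈ Lsp M n 1 (start A b) (dr1 M (mask M σ B)),
        (∀ c ∈ Xc M (dr1 M (mask M σ B)), 0 ≤ x c) ∧ x (M + M) < 0) →
      ¬ ∃ z : Fin n → ℝ, ∀ c : Fin M, sg σ c = true → b c ≤ ∑ i, A c i * z i) ∧
    ((∀ y ∈ Sl (Lsp M n 1 (start A b) (dr1 M (mask M σ B))) (Xc M (dr1 M (mask M σ B)))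
        (M + M) (M + M + 1) 0, y (M + M) = 0) →
      ∃ z : Fin n → ℝ, ∀ c : Fin M, sg σ c = true → b c ≤ ∑ i, A c i * z i) := by
  obtain ⟨hT1, hT2, y, hyL, hy1, hy2, hyq, hynu⟩ := hT
  obtain ⟨hM1, hM2, hM3, hM4, hM5, hM6, hM7, hM8, hM9, hM10, hM11⟩ := hM M n (start A b)
  obtain ⟨B', hB'⟩ : ∃ B', B' = mask M σ B := ⟨_, rfl⟩
  rw [← hB']
  have hBσ : ∀ c, B'.getD c false = true → c < M ∧ sg σ c = true ∧ B.getD c false = true := by
    intro c hc
    rw [hB'] at hc
    exact (mask_getD M σ B c).1 hc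
  have hrsσ : ∀ x : ℕ → ℝ, ∀ d : Fin M, ¬ sg σ d = true → rs B' x d = 0 := by
    intro x d hd
    unfold rs
    rw [if_neg]
    intro h
    exact hd (hBσ d h).2.1
  refine ⟨?_, ?_, ?_⟩
  · intro hj hbj hmax o ho
    have hG1 : ∀ E, MoG M n (start A b) E moOne := by
      intro E
      refine ⟨⟨Nat.zero_le _, Nat.zero_le _, Nat.zero_le _, Nat.zero_le _⟩, hM2, ?_⟩
      rw [hM1]
      exact one_pos
    have habs : |moV M n (start A b) (t1 M n j)| = |start A b [1, j]| := by
      unfold t1
      rw [(hM9 _).1, mv_t1 _ hj, abs_mul, abs_pow, abs_neg, abs_one, one_pow, one_mul, abs_neg]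
    have hne : moV M n (start A b) (t1 M n j) ≠ 0 := by
      intro h
      rw [h, abs_zero] at habs
      exact hbj (abs_eq_zero.1 habs.symm)
    have hok : MoOK M n (start A b) (t1 M n j) := (hM9 _).2
    obtain ⟨hf1, hf2, hf3⟩ := hM11 _ hok hne
    rw [← ho] at hf1 hf2
    set T := |start A b [1, j]| with hTdef
    have hTpos : 0 < T := abs_pos.2 hbj
    rw [habs] at hf2
    set W' := (List.range (M + M)).map fun c =>
      if (dr1 M B').getD c true then moOne else W.getD c moOne with hW'
    have hW'get : ∀ c < M + M, W'.getD c moOne =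
        if (dr1 M B').getD c true = true then moOne else W.getD c moOne := by
      intro c hc
      rw [hW', List.getD_eq_getElem _ _ (by simpa using hc)]
      simp
    have hwf : ∀ c ∈ Xc M (dr1 M B'), wf M n (start A b) (fixS (t1 M n j) o) W' c =
        moV M n (start A b) (W.getD c moOne) := by
      intro c hc
      have hc1 := (mem_Xc1 M B' c).1 hc
      have hc2 : (dr1 M B').getD c true = false := by
        unfold Xc at hc
        exact (Finset.mem_filter.1 hc).2
      unfold wf wc
      rw [if_pos (by omega), hW'get c (by omega), if_neg (by rw [hc2]; simp)]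
    have hb : ∀ c : Fin M, |b c| ≤ T := by
      intro c
      have := hmax c c.2
      rwa [start1] at this
    have hq : ∀ u : Fin M → ℝ, (∀ c, 0 ≤ u c) → ∑ c, u c ≤ 1 →
        |∑ c, b c * u c| ≤ T := by
      intro u hu0 hu1
      calc |∑ c, b c * u c| ≤ ∑ c, |b c * u c| := Finset.abs_sum_le_sum_abs _ _
        _ ≤ ∑ c, T * u c := by
          refine Finset.sum_le_sum fun c _ => ?_
          rw [abs_mul, abs_of_nonneg (hu0 c)]
          exact mul_le_mul_of_nonneg_right (hb c) (hu0 c)
        _ = T * ∑ c, u c := by rw [Finset.mul_sum]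
        _ ≤ T := by nlinarith
    have hrs0 : ∀ x : ℕ → ℝ, (∀ c ∈ Xc M (dr1 M B'), 0 ≤ x c) → ∀ c : Fin M, 0 ≤ rs B' x c := by
      intro x hx c
      unfold rs
      split_ifs with h
      · exact hx c ((mem_Xc1 M B' c).2 ⟨c.2, h⟩)
      · exact le_rfl
    refine ⟨?_, ?_, ?_, ?_, ?_⟩
    · show W'.length = M + M
      rw [hW']
      simp
    · refine ⟨⟨Nat.zero_le _, Nat.zero_le _, ?_, Nat.zero_le _⟩, hf1, ?_⟩
      · show 1 ≤ 4 * cD M n
        have := cD_ge M n
        omega
      · show 0 < moV M n (start A b) (fixS (t1 M n j) o)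
        rw [hf2]
        exact hTpos
    · intro c hc
      show MoG M n (start A b) E (W'.getD c moOne)
      rw [hW'get c hc]
      split_ifs
      · exact hG1 E
      · exact hT1 c hc
    · show Bds _ _ _ _ (moV M n (start A b) (fixS (t1 M n j) o))
        (wf M n (start A b) (fixS (t1 M n j) o) W') _
      rw [hf2]
      intro x hx
      obtain ⟨hx1, hx2, hx3, hx4⟩ := hx
      rw [mem_Lsp1] at hx1
      obtain ⟨hL1, hL2, hL3⟩ := hx1
      have hr := hrs0 x hx2
      rw [hL3] at hx3
      have h1 := hT2 _ (mem_SlS0 σ A b (rs B' x) hr (hrsσ x) hx3 hL1)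
      refine ⟨?_, ?_, ?_⟩
      · intro c hc
        have hc1 := (mem_Xc1 M B' c).1 hc
        rw [hwf c hc]
        have hpc : ps M σ c = c := by
          unfold ps
          rw [if_pos (hBσ c hc1.2).2.1]
        have h2 := h1.1 c ((mem_XcS σ c).2 ⟨⟨c, hc1.1⟩, hpc⟩)
        have h3 := mkS_ps σ (rs B' x) 0 (∑ d : Fin M, rs B' x d) ⟨c, hc1.1⟩
        rw [show ps M σ ((⟨c, hc1.1⟩ : Fin M) : ℕ) = c from hpc, rs_lt B' x hc1.1 hc1.2] at h3
        rw [h3] at h2
        exact h2
      · rw [hL2]
        have h2 := hq _ hr hx3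
        rw [abs_le] at h2
        have h3 := M0R_ge M n
        nlinarith [h2.2]
      · rw [hL3]
        exact Finset.sum_nonneg fun c _ => hr c
    · intro c hc
      show ∃ x ∈ Sl _ _ _ _ (moV M n (start A b) (fixS (t1 M n j) o)),
        dlR M n * wf M n (start A b) (fixS (t1 M n j) o) W' c ≤ x c
      rw [hf2]
      rw [mem_LspS] at hyL
      obtain ⟨hL1, hL2, hL3⟩ := hyL
      have hy0 : ∀ c ∈ Xc M (drS M σ), 0 ≤ y c := by
        intro c hc
        by_cases h : B.getD c false = true
        · have h1 := hy1 c hc h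
          have hcl : c < M + M := by
            obtain ⟨d, rfl⟩ := (mem_XcS σ c).1 hc
            exact ps_lt σ d
          have h2 := (hT1 c hcl).2.2
          have h3 := epR_pos M n
          have : 0 ≤ epR M n / 2 * moV M n (start A b) (W.getD c moOne) := by positivity
          linarith
        · rw [hy2 c hc (by simpa using h)]
      have hu0 := uu_nonneg σ hy0
      have hyr : ∀ d : Fin M, ¬ sg σ d = true → uu σ y d = 0 := by
        have h1 : ∑ d : Fin M, (if sg σ d = true then 0 else uu σ y d) = 0 := by rw [← hL2, hyq]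
        have h2 := (Finset.sum_eq_zero_iff_of_nonneg (fun d _ => by
          split_ifs
          · exact le_rfl
          · exact hu0 d)).1 h1
        intro d hd
        have h3 := h2 d (Finset.mem_univ d)
        rwa [if_neg hd] at h3
      have hrsy : ∀ c : Fin M, rs B' y c = uu σ y c := by
        intro c
        by_cases hs : sg σ c = true
        · have hpc : ps M σ c = c := by
            unfold ps
            rw [if_pos hs]
          have huc : uu σ y c = y c := by
            unfold uu
            rw [hpc]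
          rw [huc]
          unfold rs
          split_ifs with h
          · rfl
          · refine (hy2 c ((mem_XcS σ _).2 ⟨c, hpc⟩) ?_).symm
            by_contra h'
            apply h
            rw [hB', mask_getD]
            exact ⟨c.2, hs, by simpa using h'⟩
        · rw [hrsσ y c hs, hyr c hs]
      have hrs : ∀ u v : ℝ, rs B' (mk2 (rs B' y : Fin M → ℝ) 0 u v) = (rs B' y : Fin M → ℝ) := by
        intro u v
        funext c
        unfold rs
        split_ifs with h
        · rw [mk2_l, if_pos h]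
        · rfl
      have hr : ∀ c : Fin M, 0 ≤ rs B' y c := by
        intro c
        rw [hrsy]
        exact hu0 c
      have hsum : ∑ c : Fin M, rs B' y c ≤ 1 := by
        refine le_trans (le_of_eq ?_) hynu
        rw [hL3]
        refine Finset.sum_congr rfl fun c _ => ?_
        rw [hrsy]
      have hmem : mk2 (rs B' y : Fin M → ℝ) 0 (- ∑ c, b c * rs B' y c) (∑ c : Fin M, rs B' y c) ∈
          Sl (Lsp M n 1 (start A b) (dr1 M B')) (Xc M (dr1 M B')) (M + M) (M + M + 1) T := by
       refine ⟨?_, ?_, ?_, ?_⟩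
       · rw [mem_Lsp1, hrs]
         refine ⟨fun i => ?_, mk2_q _ _ _ _, mk2_nu _ _ _ _⟩
         rw [← hL1 i]
         refine Finset.sum_congr rfl fun c _ => ?_
         rw [hrsy]
         unfold sA
         split_ifs with h
         · rfl
         · rw [hyr c h]
           ring
       · intro c' hc'
         have h1 := (mem_Xc1 M B' c').1 hc'
         rw [mk2_lt _ _ _ _ h1.1]
         exact hr _
       · rw [mk2_nu]
         exact hsum
       · rw [mk2_q]
         have h2 := hq _ hr hsum
         rw [abs_le] at h2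
         linarith [h2.1]
      refine ⟨_, hmem, ?_⟩
      rw [hwf c hc]
      have h1 := (mem_Xc1 M B' c).1 hc
      rw [mk2_lt _ _ _ _ h1.1, rs_lt B' y h1.1 h1.2]
      have hpc : ps M σ c = c := by
        unfold ps
        rw [if_pos (hBσ c h1.2).2.1]
      have h4 := hy1 c ((mem_XcS σ _).2 ⟨⟨c, h1.1⟩, hpc⟩) (hBσ c h1.2).2.2
      have h5 := (hT1 c (by omega)).2.2
      have h6 := dlR_le M n
      refine le_trans ?_ h4
      exact mul_le_mul_of_nonneg_right h6 h5.le
  · rintro ⟨x, hx1, hx2, hx3⟩ ⟨z, hz⟩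
    rw [mem_Lsp1] at hx1
    obtain ⟨hL1, hL2, hL3⟩ := hx1
    have hr : ∀ c : Fin M, 0 ≤ rs B' x c := by
      intro c
      unfold rs
      split_ifs with h
      · exact hx2 c ((mem_Xc1 M B' c).2 ⟨c.2, h⟩)
      · exact le_rfl
    rw [hL2] at hx3
    have h1 : ∑ c, b c * rs B' x c ≤ 0 := by
      calc ∑ c, b c * rs B' x c ≤ ∑ c : Fin M, (∑ i, A c i * z i) * rs B' x c := by
            refine Finset.sum_le_sum fun c _ => ?_
            by_cases hs : sg σ c = true
            · exact mul_le_mul_of_nonneg_right (hz c hs) (hr c)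
            · rw [hrsσ x c hs, mul_zero, mul_zero]
        _ = ∑ c : Fin M, ∑ i, z i * (A c i * rs B' x c) := by
            refine Finset.sum_congr rfl fun c _ => ?_
            rw [Finset.sum_mul]
            exact Finset.sum_congr rfl fun i _ => by ring
        _ = ∑ i, z i * ∑ c : Fin M, A c i * rs B' x c := by
            rw [Finset.sum_comm]
            exact Finset.sum_congr rfl fun i _ => by rw [Finset.mul_sum]
        _ = 0 := by
            refine Finset.sum_eq_zero fun i _ => ?_
            rw [hL1 i, mul_zero]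
    linarith
  · intro h
    by_contra hno
    set A0 : Fin M → Fin n → ℝ := fun c i => if sg σ c = true then A c i else 0 with hA0
    set b0 : Fin M → ℝ := fun c => if sg σ c = true then b c else 0 with hb0
    have hF := (t_FARKAS M n (A0, b0)).1 (by
      rintro ⟨z, hz⟩
      apply hno
      refine ⟨z, fun c hc => ?_⟩
      have h1 : b0 c ≤ ∑ i, A0 c i * z i := hz c
      simp only [hA0, hb0, if_pos hc] at h1
      exact h1)
    obtain ⟨u, hu0, huA, hub⟩ := hF
    set v' : Fin M → ℝ := fun c => if sg σ c = true then u c else 0 with hv'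
    have hv'0 : ∀ c, 0 ≤ v' c := by
      intro c
      simp only [hv']
      split_ifs
      · exact hu0 c
      · exact le_rfl
    have hv'A : ∀ i, ∑ c, v' c * A c i = 0 := by
      intro i
      rw [← huA i]
      refine Finset.sum_congr rfl fun c _ => ?_
      simp only [hv', hA0]
      split_ifs <;> ring
    have hv'b : 0 < ∑ c, v' c * b c := by
      refine lt_of_lt_of_eq hub ?_
      refine Finset.sum_congr rfl fun c _ => ?_
      simp only [hv', hb0]
      split_ifs <;> ring
    have hs : 0 < ∑ c, v' c := by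
      by_contra hle
      have h1 : ∑ c, v' c = 0 := le_antisymm (not_lt.1 hle) (Finset.sum_nonneg fun c _ => hv'0 c)
      have h2 := (Finset.sum_eq_zero_iff_of_nonneg (fun c _ => hv'0 c)).1 h1
      have h3 : ∑ i, v' i * b i = 0 :=
        Finset.sum_eq_zero fun c hc => by rw [h2 c hc, zero_mul]
      rw [h3] at hv'b
      exact lt_irrefl _ hv'b
    set s := ∑ c, v' c with hsdef
    set v : Fin M → ℝ := fun c => v' c / s with hv
    have hvσ : ∀ c : Fin M, ¬ sg σ c = true → v c = 0 := by
      intro c hc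
      simp only [hv, hv', if_neg hc, zero_div]
    have hv0 : ∀ c, 0 ≤ v c := fun c => div_nonneg (hv'0 c) hs.le
    have hv1 : ∑ c, v c = 1 := by
      simp only [hv]
      rw [← Finset.sum_div, div_self hs.ne']
    have hvA : ∀ i, ∑ c, A c i * v c = 0 := by
      intro i
      have h1 := hv'A i
      have h2 : ∑ c, A c i * v c = (∑ c, v' c * A c i) / s := by
        rw [Finset.sum_div]
        refine Finset.sum_congr rfl fun c _ => ?_
        simp only [hv]
        ring
      rw [h2, h1, zero_div]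
    have hvb : 0 < ∑ c, b c * v c := by
      have h2 : ∑ c, b c * v c = (∑ c, v' c * b c) / s := by
        rw [Finset.sum_div]
        refine Finset.sum_congr rfl fun c _ => ?_
        simp only [hv]
        ring
      rw [h2]
      exact div_pos hv'b hs
    have h1 := hT2 _ (mem_SlS0 σ A b v hv0 hvσ hv1.le hvA)
    have hvB : ∀ c : Fin M, B'.getD c false ≠ true → v c = 0 := by
      intro c hc
      by_cases hsc : sg σ c = true
      · have hpc : ps M σ c = c := by
          unfold ps
          rw [if_pos hsc]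
        have hBc : B.getD c false = false := by
          by_contra h'
          apply hc
          rw [hB', mask_getD]
          exact ⟨c.2, hsc, by simpa using h'⟩
        have h2 := h1.2.1 c ((mem_XcS σ _).2 ⟨c, hpc⟩) hBc
        have h3 := mkS_ps σ v 0 (∑ d, v d) c
        rw [hpc] at h3
        rwa [h3] at h2
      · exact hvσ c hsc
    have hrs : ∀ p q : ℝ, rs B' (mk2 v 0 p q) = v := by
      intro p q
      funext c
      unfold rs
      split_ifs with h
      · rw [mk2_l]
      · exact (hvB c h).symm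
    have h2 := h (mk2 v 0 (- ∑ c, b c * v c) (∑ c, v c)) (by
      refine ⟨?_, ?_, ?_, ?_⟩
      · rw [mem_Lsp1, hrs]
        exact ⟨hvA, mk2_q _ _ _ _, mk2_nu _ _ _ _⟩
      · intro c hc
        have h3 := (mem_Xc1 M B' c).1 hc
        rw [mk2_lt _ _ _ _ h3.1]
        exact hv0 _
      · rw [mk2_nu, hv1]
      · rw [mk2_q]
        linarith)
    rw [mk2_q] at h2
    linarith

end Pool.Agent.V8H41.MD
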