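import Mathlib

/-!
# Scales of the nonnegative circuits
-/

set_option autoImplicit false

namespace Pool.Agent.V8H41.MD

/-- The nonnegative elementary vectors of the left kernel of `N`: the vectors `C ≥ 0`, `C ≠ 0`, with
`C N = 0` such that every vector of the left kernel whose support is contained in the support of `C`
is a multiple of `C`. -/
def NCirc {ι κ : Type} [Fintype ι] (N : Matrix ι κ ℝ) (C : ι → ℝ) : Prop :=
  (∀ i, 0 ≤ C i) ∧ C ≠ 0 ∧ Matrix.vecMul C N = 0 ∧
  ∀ D : ι → ℝ, Matrix.vecMul D N = 0 → (∀ i, C i = 0 → D i = 0) → ∃ l : ℝ, D = l • C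

/-- For any two rows, the ratios of the entries of the nonnegative elementary vectors of the left
kernel lie in at most `r` intervals `[s, 2 ^ r s]`. -/
def NScales (r : ℕ) {ι κ : Type} [Fintype ι] (N : Matrix ι κ ℝ) : Prop :=
  ∀ i j : ι, ∃ S : Finset ℝ, S.card ≤ r ∧ (∀ s ∈ S, 0 < s) ∧
    ∀ C, NCirc N C → C i ≠ 0 → C j ≠ 0 → ∃ s ∈ S, s ≤ C i / C j ∧ C i / C j ≤ 2 ^ r * s

/-- The matrix `A`, followed by the unit vectors and by the vector with all coordinates `-1`. -/
def ext {m n : ℕ} (A : Matrix (Fin m) (Fin n) ℝ) : Matrix (Fin m ⊕ (Fin n ⊕ Unit)) (Fin n) ℝ :=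
  Matrix.fromRows A (Matrix.fromRows 1 (Matrix.of fun _ _ => -1))

/-- Larger numbers of scales. -/
theorem NScales.mono {r r' : ℕ} (h : r ≤ r') {ι κ : Type} [Fintype ι] {N : Matrix ι κ ℝ}
    (hN : NScales r N) : NScales r' N := by
  intro i j
  obtain ⟨S, h1, h2, h3⟩ := hN i j
  refine ⟨S, h1.trans h, h2, fun C hC hi hj => ?_⟩
  obtain ⟨s, hs, h4, h5⟩ := h3 C hC hi hj
  refine ⟨s, hs, h4, h5.trans ?_⟩
  exact mul_le_mul_of_nonneg_right (pow_le_pow_right₀ (by norm_num) h) (h2 s hs).le

/-- Positive factors of the rows, and other names of the rows. -/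
theorem NScales.scale {r : ℕ} {ι ι' κ : Type} [Fintype ι] [Fintype ι'] {N : Matrix ι κ ℝ}
    {N' : Matrix ι' κ ℝ} (e : ι' ≃ ι) (lam : ι' → ℝ) (hl : ∀ d, 0 < lam d)
    (h : ∀ d k, N' d k = lam d * N (e d) k) (hN : NScales r N) : NScales r N' := by
  classical
  intro i j
  obtain ⟨S, h1, h2, h3⟩ := hN (e i) (e j)
  have hpos : 0 < lam j / lam i := div_pos (hl j) (hl i)
  refine ⟨S.image fun s => s * (lam j / lam i), Finset.card_image_le.trans h1, ?_, ?_⟩
  · intro s hs
    obtain ⟨t, ht, rfl⟩ := Finset.mem_image.1 hs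
    exact mul_pos (h2 t ht) hpos
  intro C' hC' hi hj
  obtain ⟨c1, c2, c3, c4⟩ := hC'
  have hsum : ∀ (D : ι → ℝ) (k : κ), Matrix.vecMul D N k =
      Matrix.vecMul (fun d => (lam d)⁻¹ * D (e d)) N' k := by
    intro D k
    simp only [Matrix.vecMul, dotProduct]
    rw [← Equiv.sum_comp e]
    refine Finset.sum_congr rfl fun d _ => ?_
    rw [h d k]
    have := (hl d).ne'
    field_simp
  set C : ι → ℝ := fun i => lam (e.symm i) * C' (e.symm i) with hC
  have hCe : ∀ d, C (e d) = lam d * C' d := fun d => by simp [hC]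
  have hback : (fun d => (lam d)⁻¹ * C (e d)) = C' := by
    funext d
    rw [hCe]
    have := (hl d).ne'
    field_simp
  have hcirc : NCirc N C := by
    refine ⟨fun i => mul_nonneg (hl _).le (c1 _), ?_, ?_, ?_⟩
    · intro h0
      apply c2
      rw [← hback, h0]
      funext d
      simp
    · funext k
      rw [hsum, hback, c3]
    · intro D hD hs
      obtain ⟨l, hl'⟩ := c4 (fun d => (lam d)⁻¹ * D (e d)) (by
        funext k
        rw [← hsum, hD]) (by
        intro d hd
        rw [hs (e d) (by rw [hCe, hd, mul_zero]), mul_zero])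
      refine ⟨l, ?_⟩
      funext i
      have h5 := congrFun hl' (e.symm i)
      simp only [Equiv.apply_symm_apply, Pi.smul_apply, smul_eq_mul] at h5
      simp only [hC, Pi.smul_apply, smul_eq_mul]
      have h6 := (hl (e.symm i)).ne'
      rw [inv_mul_eq_iff_eq_mul₀ h6] at h5
      rw [h5]
      ring
  obtain ⟨s, hs, h4, h5⟩ := h3 C hcirc (by rw [hCe]; exact mul_ne_zero (hl i).ne' hi)
    (by rw [hCe]; exact mul_ne_zero (hl j).ne' hj)
  have hratio : C' i / C' j = C (e i) / C (e j) * (lam j / lam i) := by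
    rw [hCe, hCe]
    have h6 := (hl i).ne'
    have h7 := (hl j).ne'
    field_simp
  refine ⟨s * (lam j / lam i), Finset.mem_image_of_mem _ hs, ?_, ?_⟩
  · rw [hratio]
    exact mul_le_mul_of_nonneg_right h4 hpos.le
  · rw [hratio, ← mul_assoc]
    exact mul_le_mul_of_nonneg_right h5 hpos.le

/-- There are at most `2 ^ k` supports, `k` being the number of rows. -/
theorem NScales.tot {ι κ : Type} [Fintype ι] (N : Matrix ι κ ℝ) :
    NScales (2 ^ Fintype.card ι) N := by
  classical
  intro i j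
  -- a circuit with given support
  set P : Finset ι → (ι → ℝ) → Prop := fun U C =>
    NCirc N C ∧ (∀ c, C c ≠ 0 ↔ c ∈ U) with hP
  set ra : Finset ι → ℝ := fun U =>
    if h : ∃ C, P U C then h.choose i / h.choose j else 1 with hra
  refine ⟨((Finset.univ : Finset (Finset ι)).image ra).filter fun s => 0 < s, ?_, ?_, ?_⟩
  · refine (Finset.card_filter_le _ _).trans (Finset.card_image_le.trans ?_)
    simp
  · intro s hs
    exact (Finset.mem_filter.1 hs).2
  · intro C hC hi hj
    set U : Finset ι := Finset.univ.filter fun c => C c ≠ 0 with hU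
    have hPU : P U C := ⟨hC, fun c => by simp [hU]⟩
    have hex : ∃ C, P U C := ⟨C, hPU⟩
    have hch := hex.choose_spec
    set C' := hex.choose with hC'
    obtain ⟨hc1, hc2⟩ := hch
    obtain ⟨l, hl⟩ := hC.2.2.2 C' hc1.2.2.1 (by
      intro c hc
      by_contra h
      have h1 := (hc2 c).1 h
      rw [hU, Finset.mem_filter] at h1
      exact h1.2 hc)
    have hl0 : l ≠ 0 := by
      rintro rfl
      exact hc1.2.1 (by rw [hl, zero_smul])
    have hval : ra U = C i / C j := by
      simp only [hra]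
      rw [dif_pos hex]
      change C' i / C' j = _
      rw [hl]
      simp only [Pi.smul_apply, smul_eq_mul]
      rw [mul_div_mul_left _ _ hl0]
    have hpos : 0 < C i / C j :=
      div_pos (lt_of_le_of_ne (hC.1 i) (Ne.symm hi)) (lt_of_le_of_ne (hC.1 j) (Ne.symm hj))
    refine ⟨C i / C j, ?_, le_rfl, ?_⟩
    · rw [Finset.mem_filter]
      refine ⟨?_, hpos⟩
      rw [Finset.mem_image]
      exact ⟨U, Finset.mem_univ _, hval⟩
    · exact le_mul_of_one_le_left hpos.le (one_le_pow₀ (by norm_num))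

end Pool.Agent.V8H41.MD
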