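import Pool.Agent.V8H41.MD.Pre
import Pool.Agent.Y529.CS.Sub
import Pool.Agent.Y648.CW.All

/-!
# Sizes of the numbers of the extended instance
-/

set_option autoImplicit false
set_option linter.all false

namespace Pool.Agent.V8H41.MD

open Pool.Agent.NPC Pool.Agent.H558R2 Pool.Agent.H622R3.SM Pool.Agent.W920.FC
open Pool.Agent.Y648.CS Pool.Agent.Y648.CS.TPRE

theorem sqs_num {lam : ℕ} {g : Reg → ℝ} {D : ℕ} (hD1 : 1 ≤ D) (hD2 : D ≤ 2 ^ lam)
    (h : ∀ r ∈ baseReg, ∃ z : ℤ, z.natAbs ≤ 2 ^ lam ∧ g r * D = z) (i j : ℕ) :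
    ∃ N : ℕ, 1 ≤ N ∧ N ≤ (j + 1) * 2 ^ (2 * lam) ∧ sqs g i j * (D * D : ℕ) = N := by
  induction j with
  | zero =>
    refine ⟨D * D, Nat.mul_pos hD1 hD1, ?_, ?_⟩
    · rw [zero_add, one_mul, two_mul, pow_add]
      exact Nat.mul_le_mul hD2 hD2
    · unfold sqs
      simp
  | succ j ih =>
    obtain ⟨N, h1, h2, h3⟩ := ih
    obtain ⟨z, hz1, hz2⟩ := h [0, i, j] (b0 _ _)
    refine ⟨N + z.natAbs * z.natAbs, by omega, ?_, ?_⟩
    · have h4 : z.natAbs * z.natAbs ≤ 2 ^ (2 * lam) := by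
        rw [two_mul, pow_add]
        exact Nat.mul_le_mul hz1 hz1
      calc N + z.natAbs * z.natAbs ≤ (j + 1) * 2 ^ (2 * lam) + 2 ^ (2 * lam) := Nat.add_le_add h2 h4
        _ = (j + 1 + 1) * 2 ^ (2 * lam) := by ring
    · have h5 : ((z.natAbs * z.natAbs : ℕ) : ℝ) = (z : ℝ) * z := by
        have h8 : ((z.natAbs * z.natAbs : ℕ) : ℤ) = z * z := by
          push_cast
          exact abs_mul_abs_self z
        have h7 : (((z.natAbs * z.natAbs : ℕ) : ℤ) : ℝ) = ((z * z : ℤ) : ℝ) := by rw [h8]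
        rw [Int.cast_natCast, Int.cast_mul] at h7
        exact h7
      have h6 : sqs g i (j + 1) = sqs g i j + g [0, i, j] * g [0, i, j] := by
        unfold sqs
        rw [Finset.sum_range_succ]
        ring
      have h7 : g [0, i, j] * g [0, i, j] * ((D * D : ℕ) : ℝ) = (z : ℝ) * z := by
        rw [← hz2]
        push_cast
        ring
      rw [h6, add_mul, h3, h7]
      push_cast at h5 ⊢
      rw [h5]

theorem bnd_num (lam n j : ℕ) (hj : j ≤ n) : (j + 1) * 2 ^ (2 * lam) ≤ 2 ^ (2 * lam + n) := by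
  rw [pow_add, mul_comm]
  refine Nat.mul_le_mul_left _ ?_
  have : n < 2 ^ n := Nat.lt_two_pow_self
  omega

theorem qb_sqs {lam n : ℕ} {g : Reg → ℝ} (h : RB lam g) (i j : ℕ) (hj : j ≤ n) :
    QB (2 * lam + n) (sqs g i j) := by
  obtain ⟨D, hD1, hD2, hz⟩ := h
  obtain ⟨N, h1, h2, h3⟩ := sqs_num hD1 hD2 hz i j
  refine ⟨D * D, N, Nat.mul_pos hD1 hD1, ?_, ?_, ?_⟩
  · calc D * D ≤ 2 ^ lam * 2 ^ lam := Nat.mul_le_mul hD2 hD2
      _ = 2 ^ (2 * lam) := by rw [two_mul, pow_add]
      _ ≤ 2 ^ (2 * lam + n) := Nat.pow_le_pow_right (by norm_num) (by omega)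
  · rw [Int.natAbs_natCast]
    exact h2.trans (bnd_num lam n j hj)
  · rw [h3]
    rfl

theorem qb_quot {lam n : ℕ} {g : Reg → ℝ} (h : RB lam g) (i : ℕ) {r : Reg} (hr : r ∈ baseReg) :
    QB (2 * lam + n) (g r / sqs g i n) := by
  obtain ⟨D, hD1, hD2, hz⟩ := h
  obtain ⟨N, h1, h2, h3⟩ := sqs_num hD1 hD2 hz i n
  obtain ⟨z, hz1, hz2⟩ := hz r hr
  refine ⟨N, z * D, h1, h2.trans (bnd_num lam n n le_rfl), ?_, ?_⟩
  · rw [Int.natAbs_mul, Int.natAbs_natCast]
    calc z.natAbs * D ≤ 2 ^ lam * 2 ^ lam := Nat.mul_le_mul hz1 hD2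
      _ = 2 ^ (2 * lam) := by rw [two_mul, pow_add]
      _ ≤ 2 ^ (2 * lam + n) := Nat.pow_le_pow_right (by norm_num) (by omega)
  · have hs := (sqs_pos g i n).ne'
    rw [← h3]
    push_cast
    rw [← hz2]
    field_simp

/-- The numbers computed by the program. -/
theorem gd_preX {m n : ℕ} {lam : ℕ} {g : Reg → ℝ} (h : RB lam g) :
    ∀ I ∈ preX m n, QB (2 * lam + n) (vX n g I.dst) := by
  intro I hI
  unfold preX at hI
  rw [List.mem_cons] at hI
  rcases hI with rfl | hI
  · exact QB_neg (QB_one _)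
  · rw [List.mem_flatMap] at hI
    obtain ⟨i, hi, hI⟩ := hI
    unfold rowP at hI
    simp only [List.mem_cons, List.mem_append, List.mem_flatMap, List.mem_range, List.not_mem_nil,
      or_false] at hI
    rcases hI with rfl | ⟨j, hj, rfl | rfl⟩ | rfl | ⟨j, hj, rfl⟩
    · exact qb_sqs h i 0 (Nat.zero_le _)
    · show QB _ (g [0, i, j] * g [0, i, j])
      have h1 := QB_mul (QB_base h (b0 i j)) (QB_base h (b0 i j))
      exact QB_mono (by omega) h1
    · exact qb_sqs h i (j + 1) hj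
    · exact qb_quot h i (b1 i)
    · exact qb_quot h i (b0 i j)

/-- The base registers of the extended instance. -/
theorem rb_X {m n lam : ℕ} (A : Fin m → Fin n → ℝ) (b : Fin m → ℝ) (h : RB lam (start A b)) :
    RB ((m * n + m) * (2 * lam + n)) (start (AX A) (bX A b)) := by
  classical
  set v : (Fin m × Fin n) ⊕ Fin m → ℝ := fun x => match x with
    | Sum.inl p => A p.1 p.2 / sI A p.1
    | Sum.inr i => b i / sI A i with hv
  have hQ : ∀ x ∈ (Finset.univ : Finset ((Fin m × Fin n) ⊕ Fin m)), QB (2 * lam + n) (v x) := by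
    intro x _
    rcases x with ⟨i, j⟩ | i
    · have h1 := qb_quot (n := n) h i (b0 i j)
      rw [sqs_start] at h1
      have h2 : start A b [0, (i : ℕ), (j : ℕ)] = A i j := by simp [start]
      rw [h2] at h1
      exact h1
    · have h1 := qb_quot (n := n) h i (b1 i)
      rw [sqs_start] at h1
      have h2 : start A b [1, (i : ℕ)] = b i := by simp [start]
      rw [h2] at h1
      exact h1
  obtain ⟨D, h1, h2, h3⟩ := common _ v _ hQ
  have hc : (Finset.univ : Finset ((Fin m × Fin n) ⊕ Fin m)).card = m * n + m := by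
    rw [Finset.card_univ]
    simp
  rw [hc] at h2 h3
  have hone : ∀ s : ℤ, s.natAbs ≤ 1 → ∃ z : ℤ, z.natAbs ≤ 2 ^ ((m * n + m) * (2 * lam + n)) ∧
      (s : ℝ) * D = z := by
    intro s hs
    refine ⟨s * D, ?_, by push_cast; ring⟩
    rw [Int.natAbs_mul, Int.natAbs_natCast]
    calc s.natAbs * D ≤ 1 * D := Nat.mul_le_mul_right _ hs
      _ ≤ _ := by rw [one_mul]; exact h2
  have hzero : ∃ z : ℤ, z.natAbs ≤ 2 ^ ((m * n + m) * (2 * lam + n)) ∧ (0 : ℝ) * D = z := by
    have := hone 0 (by simp)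
    simpa using this
  refine ⟨D, h1, h2, fun r hr => ?_⟩
  by_cases c0 : ∃ (i : Fin (m + n + 1)) (j : Fin n), r = [0, (i : ℕ), (j : ℕ)]
  · obtain ⟨i, j, rfl⟩ := c0
    have e : start (AX A) (bX A b) [0, (i : ℕ), (j : ℕ)] = AX A i j :=
      Pool.Agent.Y529.CS.start0 (AX A) (bX A b) i j
    rw [e]
    unfold AX
    by_cases h4 : (i : ℕ) < m
    · rw [dif_pos h4]
      exact h3 (Sum.inl (⟨i, h4⟩, j)) (Finset.mem_univ _)
    · rw [dif_neg h4]
      split_ifs
      · have := hone (-1) (by simp)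
        simpa using this
      · exact hzero
      · have := hone 1 (by simp)
        simpa using this
  · by_cases c1 : ∃ i : Fin (m + n + 1), r = [1, (i : ℕ)]
    · obtain ⟨i, rfl⟩ := c1
      have e : start (AX A) (bX A b) [1, (i : ℕ)] = bX A b i :=
        Pool.Agent.Y529.CS.start1 (AX A) (bX A b) i
      rw [e]
      unfold bX
      by_cases h4 : (i : ℕ) < m
      · rw [dif_pos h4]
        exact h3 (Sum.inr ⟨i, h4⟩) (Finset.mem_univ _)
      · rw [dif_neg h4]
        exact hzero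
    · by_cases c2 : r = [2]
      · subst c2
        have e2 : start (AX A) (bX A b) [2] = 1 := rfl
        rw [e2]
        have := hone 1 (by simp)
        simpa using this
      · have e : start (AX A) (bX A b) r = 0 := by
          refine start_none ?_ ?_ c2
          · rintro ⟨ha, hb, hc, hd⟩
            apply c0
            refine ⟨⟨r.getD 1 0, hc⟩, ⟨r.getD 2 0, hd⟩, ?_⟩
            match r, ha, hb with
            | [a, b, c], _, h2 =>
              have : a = 0 := h2
              subst this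
              rfl
          · rintro ⟨ha, hb, hc⟩
            apply c1
            refine ⟨⟨r.getD 1 0, hc⟩, ?_⟩
            match r, ha, hb with
            | [a, b], _, h2 =>
              have : a = 1 := h2
              subst this
              rfl
        rw [e]
        exact hzero

end Pool.Agent.V8H41.MD
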