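import Pool.Agent.V8H41.MD.PTX
import Pool.Agent.V8H41.MD.Size

/-!
# The main theorem on the scales of the nonnegative circuits
-/

set_option autoImplicit false
set_option linter.all false

namespace Pool.Agent.V8H41.MD

open Pool.Agent.NPC Pool.Agent.H558R2 Pool.Agent.H622R3.SM Pool.Agent.W920.FC
open Pool.Agent.Y648.CS Pool.Agent.Y648.CS.W Pool.Agent.Y648.CS.FL

/-- The algorithm. -/
def algX : Alg := algOf TX

/-- The main theorem. -/
def S_MAINX : Prop := PolyControl algX ∧ OracleFree algX ∧ ∃ p : Polynomial ℕ, ∀ m n : ℕ, 1 ≤ m →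
  1 ≤ n → ∀ (A : Matrix (Fin m) (Fin n) ℝ) (b : Fin m → ℝ) (r : ℕ), NScales r (ext A) →
  ∃ ans nums steps,
    run ∅ (algX m n) (p.eval (m + n + r)) [] (start A b) = some (ans, nums, steps) ∧
    (ans = true ↔ ∃ x : Fin n → ℝ, b ≤ A.mulVec x) ∧ steps ≤ p.eval (m + n + r) ∧
    ∀ (A' : Matrix (Fin m) (Fin n) ℚ) (b' : Fin m → ℚ), (∀ i j, ((A' i j : ℚ) : ℝ) = A i j) →
      (∀ i, ((b' i : ℚ) : ℝ) = b i) →
      ∀ v ∈ nums, ∃ q : ℚ, (q : ℝ) = v ∧ bitLength q ≤ p.eval (inputLength A' b' + r)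

/-- Feasibility of the extended instance. -/
theorem feas_X {m n : ℕ} (A : Matrix (Fin m) (Fin n) ℝ) (b : Fin m → ℝ) :
    (∃ z : Fin n → ℝ, ∀ c : Fin (m + n + 1), sg (sgX m n) c = true →
      bX A b c ≤ ∑ i, AX A c i * z i) ↔ ∃ x : Fin n → ℝ, b ≤ A.mulVec x := by
  have key : ∀ (z : Fin n → ℝ) (c : Fin (m + n + 1)) (h : (c : ℕ) < m),
      (bX A b c ≤ ∑ i, AX A c i * z i ↔ b ⟨c, h⟩ ≤ A.mulVec z ⟨c, h⟩) := by
    intro z c h
    have hs := sI_pos A ⟨c, h⟩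
    have e1 : bX A b c = b ⟨c, h⟩ / sI A ⟨c, h⟩ := by
      unfold bX
      rw [dif_pos h]
    have e2 : ∑ i, AX A c i * z i = A.mulVec z ⟨c, h⟩ / sI A ⟨c, h⟩ := by
      have e3 : A.mulVec z ⟨c, h⟩ = ∑ i, A ⟨c, h⟩ i * z i := rfl
      rw [e3, Finset.sum_div]
      refine Finset.sum_congr rfl fun i _ => ?_
      unfold AX
      rw [dif_pos h]
      ring
    rw [e1, e2, div_le_div_iff_of_pos_right hs]
  constructor
  · rintro ⟨z, hz⟩
    refine ⟨z, fun i => ?_⟩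
    have h1 := hz ⟨i, by omega⟩ (by rw [sg_X]; simp)
    exact (key z ⟨i, by omega⟩ i.2).1 h1
  · rintro ⟨z, hz⟩
    refine ⟨z, fun c hc => ?_⟩
    rw [sg_X, decide_eq_true_eq] at hc
    exact (key z c hc).2 (hz ⟨c, hc⟩)

theorem runsX : W.S_PHS → Pool.Agent.Y648.CS.S_MOV → W.S_CMPQ → W.S_PR → W.S_CUTC →
    ∃ q : Polynomial ℕ, ∀ m n : ℕ, 1 ≤ m → ∀ (A : Matrix (Fin m) (Fin n) ℝ)
      (b : Fin m → ℝ) (r : ℕ), NScales r (ext A) → ∃ ans : Bool,
      Runs (start A b) (Gd q (m + n + r) (start A b)) (TX m n) ans (q.eval (m + n + r)) ∧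
      (ans = true ↔ ∃ x : Fin n → ℝ, b ≤ A.mulVec x) := by
  intro hPHS hM hCM hPR hCUT
  obtain ⟨q, hq⟩ := runsS hPHS hM hCM hPR hCUT
  refine ⟨q.comp (2 * Polynomial.X + 1 + (Polynomial.X * Polynomial.X + Polynomial.X) *
    (3 * Polynomial.X)) + (3 * Polynomial.X + (Polynomial.X * (3 * Polynomial.X + 2) + 2) *
      q.comp (2 * Polynomial.X + 1)), ?_⟩
  intro m n hm A b r hA
  obtain ⟨S, hS⟩ : ∃ S, S = m + n + r := ⟨_, rfl⟩
  rw [← hS]
  obtain ⟨ans, hr, ha⟩ := hq (m + n + 1) n (sgX m n) (AX A) (bX A b) (2 * S + 1) r (by omega)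
    (by omega) (lo_X A) (scales_X hA)
  refine ⟨ans, ?_, ha.trans (feas_X A b)⟩
  set g := start A b with hg
  set g' := start (AX A) (bX A b) with hg'
  obtain ⟨Q, hQ⟩ : ∃ Q : Polynomial ℕ, Q = q.comp (2 * Polynomial.X + 1 +
    (Polynomial.X * Polynomial.X + Polynomial.X) *
    (3 * Polynomial.X)) + (3 * Polynomial.X + (Polynomial.X * (3 * Polynomial.X + 2) + 2) *
      q.comp (2 * Polynomial.X + 1)) := ⟨_, rfl⟩
  rw [← hQ]
  have hQe : ∀ x, Q.eval x = q.eval (2 * x + 1 + (x * x + x) * (3 * x)) +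
      (3 * x + (x * (3 * x + 2) + 2) * q.eval (2 * x + 1)) := by
    intro x
    rw [hQ]
    simp only [Polynomial.eval_add, Polynomial.eval_comp, Polynomial.eval_mul, Polynomial.eval_X,
      Polynomial.eval_one, Polynomial.eval_ofNat]
  -- sizes
  have hG : ∀ v, Gd q (2 * S + 1) g' v → Gd Q S g v := by
    intro v hv lam hl
    have h1 := hv _ (rb_X A b hl)
    refine TPRE.QB_mono ?_ h1
    rw [hQe]
    refine (pe_mono q ?_).trans (Nat.le_add_right _ _)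
    have h2 : m * n + m ≤ (S + lam) * (S + lam) + (S + lam) :=
      Nat.add_le_add (Nat.mul_le_mul (by omega) (by omega)) (by omega)
    have h3 : 2 * lam + n ≤ 3 * (S + lam) := by omega
    have h4 := Nat.mul_le_mul h2 h3
    omega
  have hpre : ∀ I ∈ preX m n, Gd Q S g (vX n g I.dst) := by
    intro I hI lam hl
    refine TPRE.QB_mono ?_ (gd_preX hl I hI)
    rw [hQe]
    have : 2 * lam + n ≤ 3 * (S + lam) := by omega
    omega
  have h1 : Runs g' (Gd Q S g) (TAS (m + n + 1) n (sgX m n)) ans (q.eval (2 * S + 1)) :=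
    t_TT.2.2.2 _ _ _ _ _ _ _ _ hG le_rfl hr
  have h2 := runs_mapQ (g := g) (G := Gd Q S g) (f := reX m n) (L := m * (3 * n + 2) + 1)
    (fun q v h => hasVal_reX A b hpre q v h) (fun q => by
      show (preX m n ++ q.1.map _).length ≤ _
      rw [List.length_append, List.length_map, len_preX]) h1
  refine t_TT.2.2.2 _ _ _ _ _ _ _ _ (fun _ h => h) ?_ h2
  rw [hQe]
  have h3 : m * (3 * n + 2) + 1 + 1 ≤ S * (3 * S + 2) + 2 := by
    have := Nat.mul_le_mul (show m ≤ S by omega) (show 3 * n + 2 ≤ 3 * S + 2 by omega)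
    omega
  have h4 := Nat.mul_le_mul_right (q.eval (2 * S + 1)) h3
  omega

theorem mainX : S_MAINX := by
  obtain ⟨hCMPQ, hPR, hPHS, hPTW, hCTRL⟩ := parts
  obtain ⟨hOUT, -⟩ := t_OUT
  obtain ⟨hPP3, hPP4⟩ := t_PP34
  have hQP := Pool.Agent.W920.FD.t_QP Pool.Agent.W920.FD.t_QF
  have hGRV := t_GRV t_GRD
  have hFST := Pool.Agent.Y721.CS.t_FST Pool.Agent.Y721.CS.t_DECO
  have hCUTC := W.t_CUTC t_LSP t_GRD hGRV hFST Pool.Agent.Y721.CS.t_CNT
  refine ⟨hCTRL TX (pt_TXg hOUT t_PT t_PTITER hQP hPP4 (UPoly.length (NPC.Poly.fst NPC.Poly.id))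
    (UPoly.length (NPC.Poly.snd NPC.Poly.id))), ?_, ?_⟩
  · intro m n h w
    unfold algX algOf
    cases TX m n h <;> simp
  · obtain ⟨qs, hqs⟩ := runsX hPHS t_MOV hCMPQ hPR hCUTC
    refine ⟨qs + 1 + (2 * qs.comp (3 * Polynomial.X) + 3), ?_⟩
    intro m n hm hn A b r hC
    obtain ⟨ans, rr, hans⟩ := hqs m n hm A b r hC
    have hfuel : qs.eval (m + n + r) + 1 ≤
        (qs + 1 + (2 * qs.comp (3 * Polynomial.X) + 3)).eval (m + n + r) := by
      simp only [Polynomial.eval_add, Polynomial.eval_one]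
      omega
    obtain ⟨nums, steps, hrun, hsteps, hG⟩ := t_RUN TX m n _ _ ans _ rr ∅ _ hfuel
    refine ⟨ans, nums, steps, hrun, hans, by omega, ?_⟩
    intro A' b' hA hb' v hv'
    have hA2 : (fun i j => ((A' i j : ℚ) : ℝ)) = (A : Fin m → Fin n → ℝ) := by
      funext i j
      exact hA i j
    have hb2 : (fun i => ((b' i : ℚ) : ℝ)) = b := by
      funext i
      exact hb' i
    have hRB := t_BITS.2 m n A' b'
    rw [hA2, hb2] at hRB
    have hQ := hG v hv' _ hRB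
    obtain ⟨q, hq, hq2⟩ := t_BITS.1 _ _ hQ
    refine ⟨q, hq, hq2.trans ?_⟩
    have hL := le_inputLength hm A' b'
    have hmono := pe_mono qs (show m + n + r + 2 * inputLength A' b' ≤
      3 * (inputLength A' b' + r) by omega)
    simp only [Polynomial.eval_add, Polynomial.eval_mul, Polynomial.eval_comp,
      Polynomial.eval_X, Polynomial.eval_ofNat]
    omega

end Pool.Agent.V8H41.MD
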