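import Pool.Agent.Y648.CS.T_PTA
import Pool.Agent.W920.FC.T_TT

/-!
# Computations with changed queries
-/

set_option autoImplicit false
set_option linter.all false

namespace Pool.Agent.V8H41.MD

open Pool.Agent.NPC Pool.Agent.H558R2 Pool.Agent.H622R3.SM Pool.Agent.W920.FC
open Pool.Agent.Y648.CS

/-- The computation with every query changed by `f`. -/
def mapQ {β : Type} (f : Qry → Qry) (T : TT β) : TT β := fun h =>
  match T h with
  | Sum.inl p => Sum.inl p
  | Sum.inr q => Sum.inr (f q)

/-- Its run, on other base registers. -/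
theorem runs_mapQ {β : Type} {g g' : Reg → ℝ} {G G' : ℝ → Prop} {f : Qry → Qry} {L : ℕ}
    (hf : ∀ q v, HasVal g' G' q v → HasVal g G (f q) v)
    (hL : ∀ q : Qry, (f q).1.length ≤ L + q.1.length) {T : TT β} {b : β} {c : ℕ}
    (h : Runs g' G' T b c) : Runs g G (mapQ f T) b ((L + 1) * c) := by
  induction h with
  | done T b c h =>
    refine Runs.done _ _ _ fun h' => ?_
    unfold mapQ
    rw [h]
  | step T b c q v h1 h2 h3 ih =>
    have r : Runs g G (mapQ f T) b ((L + 1) * c + (f q).1.length + 1) := by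
      refine Runs.step _ _ _ (f q) v ?_ (hf q v h2) ih
      unfold mapQ
      rw [h1]
    refine t_TT.2.2.2 _ _ _ _ _ _ _ _ (fun _ h => h) ?_ r
    have h4 := hL q
    have h5 : (L + 1) * (c + q.1.length + 1) = (L + 1) * c + L * q.1.length + q.1.length + L + 1 := by
      ring
    have h6 : 0 ≤ L * q.1.length := Nat.zero_le _
    omega

variable {α β : Type} [TEnc α] [TEnc β]

/-- In polynomial time. -/
theorem pt_mapQ {T : α → TT β} {f : α → Qry → Qry} (hT : Pool.Agent.W920.FC.PT T)
    (hf : Poly (fun p : α × Qry => f p.1 p.2))   : Pool.Agent.W920.FC.PT (fun a => mapQ (f a) (T a)) := by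
  unfold Pool.Agent.W920.FC.PT at hT ⊢
  refine (NPC.Poly.sumCases (o := fun p : α × List Outcome => T p.1 p.2)
    (g := fun p q => Sum.inl q) (h := fun p q => Sum.inr (f p.1 q)) hT
      (NPC.Poly.inl (NPC.Poly.snd NPC.Poly.id)) ?_).congr fun p => ?_
  · refine NPC.Poly.inr ?_
    exact hf.comp (f := fun r : (α × List Outcome) × Qry => (r.1.1, r.2))
      (NPC.Poly.pair (NPC.Poly.fst (NPC.Poly.fst NPC.Poly.id)) (NPC.Poly.snd NPC.Poly.id))
  · show _ = mapQ (f p.1) (T p.1) p.2
    unfold mapQ
    cases T p.1 p.2 <;> rfl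

end Pool.Agent.V8H41.MD
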