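import Mathlib

/-!
# Determinants of diagonally dominant matrices, and their largest terms
-/

set_option autoImplicit false

namespace Pool.Agent.V8H41.MD

open Finset Matrix

section
variable {J : Type} [Fintype J] [DecidableEq J]

theorem det_pos_of_dom (N : Matrix J J ℝ) (t : ℝ) (ht : 0 < t)
    (h : ∀ i, ∑ j ∈ univ.erase i, |N i j| ≤ N i i) : 0 < (N + t • (1 : Matrix J J ℝ)).det := by
  have hN0 : ∀ i, 0 ≤ N i i := fun i => (sum_nonneg fun j _ => abs_nonneg _).trans (h i)
  obtain ⟨ψ, hψ⟩ : ∃ ψ : ℝ → ℝ, ψ = fun s =>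
    (s • (N + t • (1 : Matrix J J ℝ)) + (1 - s) • (1 : Matrix J J ℝ)).det := ⟨_, rfl⟩
  have hc : Continuous ψ := by
    rw [hψ]
    refine Continuous.matrix_det ?_
    fun_prop
  have hne : ∀ s ∈ Set.Icc (0 : ℝ) 1, ψ s ≠ 0 := by
    intro s hs
    rw [hψ]
    apply det_ne_zero_of_sum_row_lt_diag
    intro k
    have e1 : ∀ j, j ≠ k → (s • (N + t • (1 : Matrix J J ℝ)) + (1 - s) • (1 : Matrix J J ℝ)) k j =
        s * N k j := by
      intro j hj
      simp [Matrix.add_apply, Matrix.smul_apply, Matrix.one_apply_ne (Ne.symm hj)]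
    have e2 : (s • (N + t • (1 : Matrix J J ℝ)) + (1 - s) • (1 : Matrix J J ℝ)) k k =
        s * (N k k + t) + (1 - s) := by
      simp [Matrix.add_apply, Matrix.smul_apply]
      ring
    have e3 : ∑ j ∈ univ.erase k, ‖(s • (N + t • (1 : Matrix J J ℝ)) +
        (1 - s) • (1 : Matrix J J ℝ)) k j‖ = s * ∑ j ∈ univ.erase k, |N k j| := by
      rw [mul_sum]
      refine sum_congr rfl fun j hj => ?_
      rw [e1 j (ne_of_mem_erase hj), Real.norm_eq_abs, abs_mul, abs_of_nonneg hs.1]
    rw [e3, e2]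
    have h1 : s * ∑ j ∈ univ.erase k, |N k j| ≤ s * N k k := mul_le_mul_of_nonneg_left (h k) hs.1
    have h2 : s * N k k < s * (N k k + t) + (1 - s) := by
      rcases eq_or_lt_of_le hs.1 with h0 | h0
      · rw [← h0]
        norm_num
      · nlinarith [hs.2, mul_pos h0 ht]
    refine lt_of_lt_of_le (lt_of_le_of_lt h1 h2) (le_abs_self _)
  have h0 : ψ 0 = 1 := by
    rw [hψ]
    simp
  have h1 : ψ 1 = (N + t • (1 : Matrix J J ℝ)).det := by
    rw [hψ]
    simp
  rw [← h1]
  by_contra hle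
  push Not at hle
  have hmem : (0 : ℝ) ∈ Set.Icc (ψ 1) (ψ 0) := ⟨hle, by rw [h0]; norm_num⟩
  obtain ⟨s, hs, hs0⟩ := intermediate_value_Icc' (by norm_num : (0 : ℝ) ≤ 1) hc.continuousOn hmem
  exact hne s hs hs0

/-- Diagonally dominant matrices with nonnegative diagonal have nonnegative determinant. -/
theorem det_nonneg_of_dom (N : Matrix J J ℝ)
    (h : ∀ i, ∑ j ∈ univ.erase i, |N i j| ≤ N i i) : 0 ≤ N.det := by
  have hc : Continuous fun t : ℝ => (N + t • (1 : Matrix J J ℝ)).det := by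
    refine Continuous.matrix_det ?_
    fun_prop
  have hl : Filter.Tendsto (fun t : ℝ => (N + t • (1 : Matrix J J ℝ)).det) (nhdsWithin 0 (Set.Ioi 0))
      (nhds (N + (0 : ℝ) • (1 : Matrix J J ℝ)).det) :=
    (hc.tendsto 0).mono_left nhdsWithin_le_nhds
  rw [zero_smul, add_zero] at hl
  refine ge_of_tendsto hl ?_
  filter_upwards [self_mem_nhdsWithin] with t ht
  exact (det_pos_of_dom N t ht h).le

variable {κ : Type} [Fintype κ]

/-- Expansion of the determinant in the rows. -/
theorem det_expand (w : J → κ → ℝ) (R : J → κ → J → ℤ) :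
    (Matrix.of fun v j => ∑ t, w v t * (R v t j : ℝ)).det =
      ∑ f : J → κ, (∏ v, w v (f v)) * ((Matrix.of fun v j => R v (f v) j).det : ℤ) := by
  classical
  have h1 : (Matrix.of fun v j => ∑ t, w v t * (R v t j : ℝ)).det =
      (Matrix.detRowAlternating : (J → ℝ) [⋀^J]→ₗ[ℝ] ℝ).toMultilinearMap
        (fun v => ∑ t, w v t • fun j => (R v t j : ℝ)) := by
    show _ = Matrix.det _
    congr 1
    ext v j
    simp [Finset.sum_apply]
  rw [h1, MultilinearMap.map_sum]
  refine sum_congr rfl fun f _ => ?_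
  rw [MultilinearMap.map_smul_univ, smul_eq_mul]
  congr 1
  show Matrix.det _ = _
  have h2 : (Matrix.of fun v j => (R v (f v) j : ℝ)) =
      (Matrix.of fun v j => R v (f v) j).map (Int.castRingHom ℝ) := by
    ext v j
    simp
  have h3 : Matrix.det (fun v j => (R v (f v) j : ℝ)) =
      Matrix.det (Matrix.of fun v j => (R v (f v) j : ℝ)) := rfl
  rw [h3, h2, ← RingHom.mapMatrix_apply, ← RingHom.map_det]
  simp

/-- The determinant is, up to a factor, one of the products of weights. -/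
theorem maxterm (w : J → κ → ℝ) (hw : ∀ v t, 0 ≤ w v t) (R : J → κ → J → ℤ)
    (hR : ∀ v t, ∑ j ∈ univ.erase v, |R v t j| ≤ R v t v) (hb : ∀ v t j, |R v t j| ≤ 1)
    (hdet : 0 < (Matrix.of fun v j => ∑ t, w v t * (R v t j : ℝ)).det) :
    ∃ f : J → κ, 0 < ∏ v, w v (f v) ∧
      ∏ v, w v (f v) ≤ (Matrix.of fun v j => ∑ t, w v t * (R v t j : ℝ)).det ∧
      (Matrix.of fun v j => ∑ t, w v t * (R v t j : ℝ)).det ≤
        ((Fintype.card κ ^ Fintype.card J * (Fintype.card J).factorial : ℕ) : ℝ) *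
          ∏ v, w v (f v) := by
  classical
  obtain ⟨D, hD⟩ : ∃ D : (J → κ) → ℤ, D = fun f => (Matrix.of fun v j => R v (f v) j).det :=
    ⟨_, rfl⟩
  obtain ⟨P, hP⟩ : ∃ P : (J → κ) → ℝ, P = fun f => ∏ v, w v (f v) := ⟨_, rfl⟩
  have hexp : (Matrix.of fun v j => ∑ t, w v t * (R v t j : ℝ)).det = ∑ f, P f * (D f : ℝ) := by
    rw [det_expand, hP, hD]
  rw [hexp] at hdet ⊢
  have hP0 : ∀ f, 0 ≤ P f := by
    intro f
    rw [hP]
    exact prod_nonneg fun v _ => hw v _
  have hD0 : ∀ f, 0 ≤ D f := by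
    intro f
    have h1 : (0 : ℝ) ≤ (Matrix.of fun v j => (R v (f v) j : ℝ)).det := by
      apply det_nonneg_of_dom
      intro i
      have h2 := hR i (f i)
      simp only [Matrix.of_apply]
      have h3 : ((∑ j ∈ univ.erase i, |R i (f i) j| : ℤ) : ℝ) ≤ ((R i (f i) i : ℤ) : ℝ) := by
        exact_mod_cast h2
      push_cast at h3
      exact h3
    have h2 : (Matrix.of fun v j => (R v (f v) j : ℝ)) =
        (Matrix.of fun v j => R v (f v) j).map (Int.castRingHom ℝ) := by
      ext v j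
      simp
    rw [h2, ← RingHom.mapMatrix_apply, ← RingHom.map_det] at h1
    rw [hD]
    have h3 : (0 : ℝ) ≤ (((Matrix.of fun v j => R v (f v) j).det : ℤ) : ℝ) := h1
    exact_mod_cast h3
  have hD1 : ∀ f, D f ≤ (Fintype.card J).factorial := by
    intro f
    have h1 := Matrix.det_le (A := Matrix.of fun v j => R v (f v) j)
      (abv := AbsoluteValue.abs) (x := 1) (fun i j => hb i (f i) j)
    rw [hD]
    simp only [AbsoluteValue.abs_apply, one_pow, nsmul_eq_mul, mul_one] at h1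
    exact (le_abs_self _).trans h1
  obtain ⟨f0, hf0⟩ : ∃ f, 0 < P f * (D f : ℝ) := by
    by_contra hno
    push Not at hno
    exact absurd hdet (not_lt.2 (sum_nonpos fun f _ => hno f))
  have hpos : ∀ f, 0 < P f * (D f : ℝ) → 0 < P f ∧ 1 ≤ D f := by
    intro f hf
    have h1 : D f ≠ 0 := by
      intro h
      rw [h] at hf
      simp at hf
    have h2 := hD0 f
    have h3 : P f ≠ 0 := by
      intro h
      rw [h] at hf
      simp at hf
    exact ⟨lt_of_le_of_ne (hP0 f) (Ne.symm h3), by omega⟩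
  have hne : (univ.filter fun f => 0 < P f * (D f : ℝ)).Nonempty :=
    ⟨f0, mem_filter.2 ⟨mem_univ _, hf0⟩⟩
  obtain ⟨f, hf, hmax⟩ := exists_max_image _ P hne
  obtain ⟨hf1, hf2⟩ := hpos f (mem_filter.1 hf).2
  refine ⟨f, ?_, ?_, ?_⟩
  · rw [hP] at hf1
    exact hf1
  · have h1 : P f * (D f : ℝ) ≤ ∑ f, P f * (D f : ℝ) :=
      single_le_sum (f := fun f => P f * (D f : ℝ))
        (fun g _ => mul_nonneg (hP0 g) (by exact_mod_cast hD0 g)) (mem_univ f)
    have h2 : P f ≤ P f * (D f : ℝ) := by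
      have h3 : (1 : ℝ) ≤ D f := by exact_mod_cast hf2
      exact le_mul_of_one_le_right (hP0 f) h3
    have h3 : P f = ∏ v, w v (f v) := by rw [hP]
    rw [← h3]
    exact h2.trans h1
  · have h3 : P f = ∏ v, w v (f v) := by rw [hP]
    rw [← h3]
    calc ∑ g, P g * (D g : ℝ) ≤ ∑ g : J → κ, P f * ((Fintype.card J).factorial : ℝ) := by
          refine sum_le_sum fun g _ => ?_
          by_cases hg : 0 < P g * (D g : ℝ)
          · have h4 := hmax g (mem_filter.2 ⟨mem_univ _, hg⟩)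
            have h5 : (D g : ℝ) ≤ ((Fintype.card J).factorial : ℝ) := by exact_mod_cast hD1 g
            exact mul_le_mul h4 h5 (by exact_mod_cast hD0 g) hf1.le
          · exact (not_lt.1 hg).trans (by positivity)
      _ = _ := by
          rw [sum_const, card_univ, Fintype.card_fun, nsmul_eq_mul]
          push_cast
          ring

end

end Pool.Agent.V8H41.MD
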