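import Pool.Agent.V8H41.MD.Mk0

/-!
# Matrices of policies and hitting vectors
-/

set_option autoImplicit false

namespace Pool.Agent.V8H41.MD

open Finset Matrix

section
variable {V : Type} [Fintype V] [DecidableEq V]

/-- The matrix of a policy, with rates `p` and leaks `l`. -/
def Lm (p : V → V → ℝ) (l : V → ℝ) : Matrix V V ℝ :=
  Matrix.of fun v j => (if v = j then ∑ t, p v t + l v else 0) - p v j

theorem Lm_mulVec (p : V → V → ℝ) (l : V → ℝ) (z : V → ℝ) (v : V) :
    (Lm p l *ᵥ z) v = l v * z v + ∑ t, p v t * (z v - z t) := by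
  have h1 : (Lm p l *ᵥ z) v = ∑ j, ((if v = j then ∑ t, p v t + l v else 0) * z j -
      p v j * z j) := by
    simp only [Matrix.mulVec, dotProduct, Lm, Matrix.of_apply]
    exact sum_congr rfl fun j _ => by ring
  rw [h1, sum_sub_distrib]
  simp only [ite_mul, zero_mul, sum_ite_eq, mem_univ, if_true]
  have h2 : ∑ t, p v t * (z v - z t) = (∑ t, p v t) * z v - ∑ t, p v t * z t := by
    rw [sum_mul, ← sum_sub_distrib]
    exact sum_congr rfl fun t _ => by ring
  rw [h2]
  ring

/-- The choices of a row. -/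
def wt (p : V → V → ℝ) (l : V → ℝ) (v : V) (o : Option V) : ℝ := o.elim (l v) (p v)

/-- The largest term of the determinant. -/
theorem Lm_max (p : V → V → ℝ) (l : V → ℝ) (hp : ∀ v t, 0 ≤ p v t) (hl : ∀ v, 0 ≤ l v)
    (hdet : 0 < (Lm p l).det) : ∃ f : V → Option V, 0 < ∏ v, wt p l v (f v) ∧
      ∏ v, wt p l v (f v) ≤ (Lm p l).det ∧
      (Lm p l).det ≤ (((Fintype.card V + 1) ^ Fintype.card V * (Fintype.card V).factorial : ℕ) : ℝ) *
        ∏ v, wt p l v (f v) := by
  obtain ⟨R, hR⟩ : ∃ R : V → Option V → V → ℤ, R = fun v o j =>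
      (if v = j then 1 else 0) - o.elim 0 (fun t => if t = j then 1 else 0) := ⟨_, rfl⟩
  have hL : Lm p l = Matrix.of fun v j => ∑ o, wt p l v o * (R v o j : ℝ) := by
    ext v j
    simp only [Lm, Matrix.of_apply, hR, wt]
    rw [Fintype.sum_option]
    by_cases hv : v = j
    · simp only [hv, if_true, Option.elim_none, Option.elim_some]
      push_cast
      have h1 : ∑ t, p j t * (1 - if t = j then (1 : ℝ) else 0) = ∑ t, p j t - p j j := by
        have h2 : ∀ t, p j t * (1 - if t = j then (1 : ℝ) else 0) =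
            p j t - (if t = j then p j t else 0) := by
          intro t
          by_cases ht : t = j <;> simp [ht]
        rw [sum_congr rfl fun t _ => h2 t, sum_sub_distrib]
        simp
      rw [h1]
      ring
    · simp only [hv, if_false, Option.elim_none, Option.elim_some]
      push_cast
      have h1 : ∑ t, p v t * (0 - if t = j then (1 : ℝ) else 0) = - p v j := by
        have h2 : ∀ t, p v t * (0 - if t = j then (1 : ℝ) else 0) =
            - (if t = j then p v t else 0) := by
          intro t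
          by_cases ht : t = j <;> simp [ht]
        rw [sum_congr rfl fun t _ => h2 t, sum_neg_distrib]
        simp
      rw [h1]
      ring
  have hw : ∀ v o, 0 ≤ wt p l v o := by
    intro v o
    cases o with
    | none => exact hl v
    | some t => exact hp v t
  have h1 : ∀ v o, ∑ j ∈ univ.erase v, |R v o j| ≤ R v o v := by
    intro v o
    simp only [hR]
    cases o with
    | none =>
      simp only [Option.elim_none]
      rw [sum_eq_zero]
      · simp
      · intro j hj
        simp [Ne.symm (ne_of_mem_erase hj)]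
    | some t =>
      simp only [Option.elim_some]
      by_cases ht : t = v
      · rw [sum_eq_zero]
        · simp [ht]
        · intro j hj
          simp [ht, Ne.symm (ne_of_mem_erase hj)]
      · rw [sum_eq_single_of_mem t (mem_erase.2 ⟨ht, mem_univ _⟩)]
        · simp [ht, Ne.symm ht]
        · intro j hj hjt
          simp [Ne.symm (ne_of_mem_erase hj), Ne.symm hjt]
  have h2 : ∀ v o j, |R v o j| ≤ 1 := by
    intro v o j
    simp only [hR]
    cases o with
    | none =>
      simp only [Option.elim_none]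
      split_ifs <;> simp
    | some t =>
      simp only [Option.elim_some]
      split_ifs <;> simp
  have h3 := maxterm (wt p l) hw R h1 h2 (by rw [← hL]; exact hdet)
  rw [← hL] at h3
  simpa using h3

/-- The determinant is nonnegative. -/
theorem Lm_dom (p : V → V → ℝ) (l : V → ℝ) (hp : ∀ v t, 0 ≤ p v t) (hl : ∀ v, 0 ≤ l v) (v : V) :
    ∑ j ∈ univ.erase v, |Lm p l v j| + l v = Lm p l v v := by
  have h1 : ∀ j ∈ univ.erase v, |Lm p l v j| = p v j := by
    intro j hj
    simp only [Lm, Matrix.of_apply, Ne.symm (ne_of_mem_erase hj), if_false, zero_sub, abs_neg]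
    exact abs_of_nonneg (hp v j)
  rw [sum_congr rfl h1]
  simp only [Lm, Matrix.of_apply, if_true]
  rw [← add_sum_erase univ (p v) (mem_univ v)]
  ring

theorem Lm_det_nonneg (p : V → V → ℝ) (l : V → ℝ) (hp : ∀ v t, 0 ≤ p v t) (hl : ∀ v, 0 ≤ l v) :
    0 ≤ (Lm p l).det := by
  apply det_nonneg_of_dom
  intro i
  have h1 := Lm_dom p l hp hl i
  have h2 := hl i
  linarith

theorem Lm_det_pos (p : V → V → ℝ) (l : V → ℝ) (hp : ∀ v t, 0 ≤ p v t) (hl : ∀ v, 0 < l v) :
    0 < (Lm p l).det := by
  refine lt_of_le_of_ne (Lm_det_nonneg p l hp fun v => (hl v).le) (Ne.symm ?_)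
  apply det_ne_zero_of_sum_row_lt_diag
  intro i
  have h1 := Lm_dom p l hp (fun v => (hl v).le) i
  have h2 := hl i
  simp only [Real.norm_eq_abs]
  exact lt_of_lt_of_le (by linarith) (le_abs_self _)

/-- One row of the matrix replaced by a unit vector. -/
theorem Lm_update (p : V → V → ℝ) (l : V → ℝ) (s : V) :
    (Lm p l).updateRow s (Pi.single s 1) = Lm (Function.update p s 0) (Function.update l s 1) := by
  ext v j
  by_cases hv : v = s
  · subst hv
    simp [Lm, Pi.single_apply, eq_comm]
  · simp [Lm, hv]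

/-- The minimum principle. -/
theorem min_principle (p : V → V → ℝ) (l : V → ℝ) (hp : ∀ v t, 0 ≤ p v t) (hl : ∀ v, 0 < l v)
    (z : V → ℝ) (h : ∀ v, 0 ≤ z v ∨ 0 ≤ (Lm p l *ᵥ z) v) (v : V) : 0 ≤ z v := by
  obtain ⟨u, -, hu⟩ := exists_min_image univ z ⟨v, mem_univ v⟩
  suffices h0 : 0 ≤ z u from h0.trans (hu v (mem_univ v))
  rcases h u with h1 | h1
  · exact h1
  by_contra hneg
  push Not at hneg
  rw [Lm_mulVec] at h1
  have h2 : ∑ t, p u t * (z u - z t) ≤ 0 := by
    refine sum_nonpos fun t _ => ?_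
    have := hu t (mem_univ t)
    nlinarith [hp u t]
  nlinarith [hl u]

/-- The vector `q` of the probabilities of leaking before reaching `s`, with its rate `E`. -/
structure Hit (p : V → V → ℝ) (l : V → ℝ) (s : V) (q : V → ℝ) (E : ℝ) : Prop where
  zero : q s = 0
  eq : ∀ v, v ≠ s → (Lm p l *ᵥ q) v = l v
  rate : E = l s + ∑ t, p s t * q t

variable {p : V → V → ℝ} {l : V → ℝ} {s : V} {q : V → ℝ} {E : ℝ}

theorem exists_hit (hp : ∀ v t, 0 ≤ p v t) (hl : ∀ v, 0 < l v) (s : V) :
    ∃ q E, Hit p l s q E := by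
  have hpos : 0 < (Lm (Function.update p s 0) (Function.update l s 1)).det := by
    apply Lm_det_pos
    · intro v t
      by_cases hv : v = s
      · subst hv; simp
      · simp [hv, hp v t]
    · intro v
      by_cases hv : v = s
      · subst hv; simp
      · simp [hv, hl v]
  have hu : IsUnit (Lm (Function.update p s 0) (Function.update l s 1)).det :=
    (ne_of_gt hpos).isUnit
  obtain ⟨M, hM⟩ : ∃ M, M = Lm (Function.update p s 0) (Function.update l s 1) := ⟨_, rfl⟩
  rw [← hM] at hu
  obtain ⟨q, hq⟩ : ∃ q, q = M⁻¹ *ᵥ (Function.update l s 0) := ⟨_, rfl⟩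
  have hMq : M *ᵥ q = Function.update l s 0 := by
    rw [hq, mulVec_mulVec, mul_nonsing_inv M hu, one_mulVec]
  refine ⟨q, _, ?_, ?_, rfl⟩
  · have h1 := congrFun hMq s
    rw [hM, Lm_mulVec] at h1
    simpa using h1
  · intro v hv
    have h1 := congrFun hMq v
    rw [hM, Lm_mulVec] at h1
    rw [Lm_mulVec]
    simpa [hv] using h1

theorem Hit.nonneg (h : Hit p l s q E) (hp : ∀ v t, 0 ≤ p v t) (hl : ∀ v, 0 < l v) (v : V) :
    0 ≤ q v := by
  refine min_principle p l hp hl q (fun v => ?_) v
  by_cases hv : v = s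
  · left; rw [hv, h.zero]
  · right; rw [h.eq v hv]; exact (hl v).le

theorem Hit.le_one (h : Hit p l s q E) (hp : ∀ v t, 0 ≤ p v t) (hl : ∀ v, 0 < l v) (v : V) :
    q v ≤ 1 := by
  have h1 := min_principle p l hp hl (fun v => 1 - q v) (fun v => ?_) v
  · linarith
  by_cases hv : v = s
  · left
    show 0 ≤ 1 - q v
    rw [hv, h.zero]; norm_num
  · right
    have h2 := h.eq v hv
    rw [Lm_mulVec] at h2 ⊢
    have h3 : ∑ t, p v t * (1 - q v - (1 - q t)) = - ∑ t, p v t * (q v - q t) := by
      rw [← sum_neg_distrib]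
      exact sum_congr rfl fun t _ => by ring
    rw [h3]
    linarith

theorem Hit.pos (h : Hit p l s q E) (hp : ∀ v t, 0 ≤ p v t) (hl : ∀ v, 0 < l v) : 0 < E := by
  rw [h.rate]
  exact add_pos_of_pos_of_nonneg (hl s)
    (sum_nonneg fun t _ => mul_nonneg (hp s t) (h.nonneg hp hl t))

/-- The vector `1 - q` and the matrix. -/
theorem Hit.mulVec (h : Hit p l s q E) : Lm p l *ᵥ (fun v => 1 - q v) = Pi.single s E := by
  funext v
  rw [Lm_mulVec]
  have h3 : ∑ t, p v t * (1 - q v - (1 - q t)) = - ∑ t, p v t * (q v - q t) := by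
    rw [← sum_neg_distrib]
    exact sum_congr rfl fun t _ => by ring
  rw [h3]
  by_cases hv : v = s
  · subst hv
    rw [Pi.single_eq_same, h.zero, h.rate]
    have h4 : ∑ t, p v t * (0 - q t) = - ∑ t, p v t * q t := by
      rw [← sum_neg_distrib]
      exact sum_congr rfl fun t _ => by ring
    rw [h4]
    ring
  · rw [Pi.single_eq_of_ne hv]
    have h2 := h.eq v hv
    rw [Lm_mulVec] at h2
    linarith

/-- The rate as a quotient of determinants. -/
theorem Hit.det (h : Hit p l s q E) : (Lm p l).det =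
    E * (Lm (Function.update p s 0) (Function.update l s 1)).det := by
  have h1 : (Lm p l).adjugate *ᵥ (Lm p l *ᵥ (fun v => 1 - q v)) =
      (Lm p l).adjugate *ᵥ Pi.single s E := by rw [h.mulVec]
  rw [mulVec_mulVec, adjugate_mul] at h1
  have h2 := congrFun h1 s
  rw [smul_mulVec, one_mulVec] at h2
  simp only [Pi.smul_apply, smul_eq_mul, h.zero, sub_zero, mul_one] at h2
  rw [h2, ← Lm_update, ← adjugate_apply, mulVec_single]
  simp [mul_comm]

/-- A row vector and the rate. -/
theorem Hit.row (h : Hit p l s q E) {x d : V → ℝ} (hx : x ᵥ* Lm p l = d) :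
    x s * E = ∑ v, d v * (1 - q v) := by
  have h1 : x ⬝ᵥ (Lm p l *ᵥ (fun v => 1 - q v)) = d ⬝ᵥ (fun v => 1 - q v) := by
    rw [dotProduct_mulVec, hx]
  rw [h.mulVec, dotProduct_single] at h1
  exact h1

/-- Larger leaks. -/
theorem Hit.mono {l' : V → ℝ} {q' : V → ℝ} {E' : ℝ} (h : Hit p l s q E) (h' : Hit p l' s q' E')
    (hp : ∀ v t, 0 ≤ p v t) (hl : ∀ v, 0 < l v) (hll : ∀ v, l v ≤ l' v) : E ≤ E' := by
  have hl' : ∀ v, 0 < l' v := fun v => (hl v).trans_le (hll v)
  have hq : ∀ v, q v ≤ q' v := by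
    intro v
    have h1 := min_principle p l hp hl (fun v => q' v - q v) (fun v => ?_) v
    · linarith
    by_cases hv : v = s
    · left
      show 0 ≤ q' v - q v
      rw [hv, h.zero, h'.zero, sub_zero]
    · right
      have h2 := h.eq v hv
      have h3 := h'.eq v hv
      rw [Lm_mulVec] at h2 h3 ⊢
      have h4 : ∑ t, p v t * (q' v - q v - (q' t - q t)) =
          ∑ t, p v t * (q' v - q' t) - ∑ t, p v t * (q v - q t) := by
        rw [← sum_sub_distrib]
        exact sum_congr rfl fun t _ => by ring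
      rw [h4]
      have h5 := h'.le_one hp hl' v
      have h6 := hll v
      nlinarith
  rw [h.rate, h'.rate]
  refine add_le_add (hll s) (sum_le_sum fun t _ => mul_le_mul_of_nonneg_left (hq t) (hp s t))

/-- The rates are subadditive. -/
theorem Hit.sum {ι : Type} [Fintype ι] {lu : ι → V → ℝ} {qu : ι → V → ℝ} {Eu : ι → ℝ}
    (h : Hit p l s q E) (hu : ∀ u, Hit p (lu u) s (qu u) (Eu u)) (hp : ∀ v t, 0 ≤ p v t)
    (hl : ∀ v, 0 < l v) (hlu : ∀ u v, 0 < lu u v) (hle : ∀ u v, lu u v ≤ l v)
    (hsum : ∀ v, l v ≤ ∑ u, lu u v) : E ≤ ∑ u, Eu u := by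
  have hq : ∀ v, q v ≤ ∑ u, qu u v := by
    intro v
    have h1 := min_principle p l hp hl (fun v => ∑ u, qu u v - q v) (fun v => ?_) v
    · linarith
    by_cases hv : v = s
    · left
      show 0 ≤ ∑ u, qu u v - q v
      rw [hv, h.zero, sum_eq_zero fun u _ => (hu u).zero, sub_zero]
    · right
      have h2 := h.eq v hv
      rw [Lm_mulVec] at h2 ⊢
      have h3 : ∀ u, lu u v * qu u v + ∑ t, p v t * (qu u v - qu u t) = lu u v := by
        intro u
        rw [← Lm_mulVec]
        exact (hu u).eq v hv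
      have h4 : ∑ t, p v t * (∑ u, qu u v - q v - (∑ u, qu u t - q t)) =
          ∑ u, ∑ t, p v t * (qu u v - qu u t) - ∑ t, p v t * (q v - q t) := by
        rw [sum_comm, ← sum_sub_distrib]
        refine sum_congr rfl fun t _ => ?_
        rw [← mul_sum, sum_sub_distrib]
        ring
      have h5 : ∑ u, ∑ t, p v t * (qu u v - qu u t) = ∑ u, lu u v - ∑ u, lu u v * qu u v := by
        rw [← sum_sub_distrib]
        exact sum_congr rfl fun u _ => by linarith [h3 u]
      have h6 : ∑ u, lu u v * qu u v ≤ l v * ∑ u, qu u v := by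
        rw [mul_sum]
        exact sum_le_sum fun u _ =>
          mul_le_mul_of_nonneg_right (hle u v) ((hu u).nonneg hp (hlu u) v)
      have h7 := hsum v
      rw [h4, h5]
      linarith
  have h8 : E ≤ ∑ u, lu u s + ∑ t, p s t * ∑ u, qu u t := by
    rw [h.rate]
    exact add_le_add (hsum s) (sum_le_sum fun t _ => mul_le_mul_of_nonneg_left (hq t) (hp s t))
  refine h8.trans (le_of_eq ?_)
  rw [sum_congr rfl fun u _ => (hu u).rate, sum_add_distrib]
  congr 1
  rw [sum_comm]
  exact sum_congr rfl fun t _ => by rw [mul_sum]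

/-- The transitions from the states with large leaks can be omitted. -/
theorem Hit.high {p' : V → V → ℝ} {l' : V → ℝ} {q' : V → ℝ} {E' : ℝ} {c : ℝ}
    (h : Hit p l s q E) (h' : Hit p' l' s q' E')
    (hp : ∀ v t, 0 ≤ p v t) (hl : ∀ v, 0 < l v) (hc0 : 0 < c) (hc1 : c ≤ 1)
    (hH : ∀ v, (p' v = p v ∧ l' v = l v) ∨
      (p' v = 0 ∧ l' v = l v + ∑ t, p v t ∧ c * l' v ≤ l v)) : c * E' ≤ E ∧ E ≤ E' := by
  have hl' : ∀ v, 0 < l' v := by
    intro v
    rcases hH v with ⟨-, h1⟩ | ⟨-, h1, -⟩
    · rw [h1]; exact hl v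
    · rw [h1]; exact add_pos_of_pos_of_nonneg (hl v) (sum_nonneg fun t _ => hp v t)
  have hp' : ∀ v t, 0 ≤ p' v t := by
    intro v t
    rcases hH v with ⟨h1, -⟩ | ⟨h1, -⟩
    · rw [h1]; exact hp v t
    · rw [h1]; exact le_rfl
  have hq : ∀ v, c * q' v ≤ q v := by
    intro v
    have h1 := min_principle p l hp hl (fun v => q v - c * q' v) (fun v => ?_) v
    · linarith
    by_cases hv : v = s
    · left
      show 0 ≤ q v - c * q' v
      rw [hv, h.zero, h'.zero, mul_zero, sub_zero]
    · right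
      have h2 := h.eq v hv
      have h3 := h'.eq v hv
      rw [Lm_mulVec] at h2 h3 ⊢
      have h4 : ∑ t, p v t * (q v - c * q' v - (q t - c * q' t)) =
          ∑ t, p v t * (q v - q t) - c * ∑ t, p v t * (q' v - q' t) := by
        rw [mul_sum, ← sum_sub_distrib]
        exact sum_congr rfl fun t _ => by ring
      rw [h4]
      have h6 := h'.le_one hp' hl' v
      have h7 := h'.nonneg hp' hl' v
      rcases hH v with ⟨h5, h5'⟩ | ⟨h5, h5', h5''⟩
      · rw [h5, h5'] at h3
        have h8 := hl v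
        nlinarith
      · have h8 : ∑ t, p v t * (q' v - q' t) ≤ ∑ t, p v t := by
          refine sum_le_sum fun t _ => ?_
          have h9 := h'.nonneg hp' hl' t
          have h10 := hp v t
          nlinarith
        have h9 : c * ∑ t, p v t * (q' v - q' t) ≤ c * ∑ t, p v t :=
          mul_le_mul_of_nonneg_left h8 hc0.le
        have h10 : c * (l v * q' v) ≤ c * l v :=
          mul_le_mul_of_nonneg_left (by nlinarith [hl v]) hc0.le
        rw [h5', mul_add] at h5''
        nlinarith
  have hq2 : ∀ v, q v ≤ q' v := by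
    intro v
    have h1 := min_principle p' l' hp' hl' (fun v => q' v - q v) (fun v => ?_) v
    · linarith
    by_cases hv : v = s
    · left
      show 0 ≤ q' v - q v
      rw [hv, h.zero, h'.zero, sub_zero]
    · right
      have h2 := h.eq v hv
      have h3 := h'.eq v hv
      rw [Lm_mulVec] at h2 h3 ⊢
      have h4 : ∑ t, p' v t * (q' v - q v - (q' t - q t)) =
          ∑ t, p' v t * (q' v - q' t) - ∑ t, p' v t * (q v - q t) := by
        rw [← sum_sub_distrib]
        exact sum_congr rfl fun t _ => by ring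
      rw [h4]
      rcases hH v with ⟨h5, h5'⟩ | ⟨h5, h5', h5''⟩
      · rw [h5, h5'] at h3 ⊢
        nlinarith
      · have h6 : ∑ t, p' v t * (q v - q t) = 0 := by
          rw [h5]
          simp
        rw [h6]
        have h7 := h.le_one hp hl v
        have h8 := hl' v
        nlinarith
  have h3 : c * E' ≤ E := by
    rw [h.rate, h'.rate]
    rcases hH s with ⟨h5, h5'⟩ | ⟨h5, h5', h5''⟩
    · rw [h5, h5', mul_add]
      refine add_le_add (by have := hl s; nlinarith) ?_
      rw [mul_sum]
      refine sum_le_sum fun t _ => ?_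
      have := hq t
      have := hp s t
      nlinarith
    · rw [h5]
      simp only [Pi.zero_apply, zero_mul, sum_const_zero, add_zero]
      exact h5''.trans (le_add_of_nonneg_right
        (sum_nonneg fun t _ => mul_nonneg (hp s t) (h.nonneg hp hl t)))
  refine ⟨h3, ?_⟩
  rw [h.rate, h'.rate]
  rcases hH s with ⟨h5, h5'⟩ | ⟨h5, h5', h5''⟩
  · rw [h5, h5']
    exact add_le_add le_rfl (sum_le_sum fun t _ => mul_le_mul_of_nonneg_left (hq2 t) (hp s t))
  · rw [h5, h5']
    simp only [Pi.zero_apply, zero_mul, sum_const_zero, add_zero]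
    refine add_le_add le_rfl (sum_le_sum fun t _ => ?_)
    exact mul_le_of_le_one_right (hp s t) (h.le_one hp hl t)

end

end Pool.Agent.V8H41.MD
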