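import Pool.Agent.V8H41.MD.MkG
import Pool.Agent.V8H41.MD.Defs

/-!
# The nonnegative circuits of the systems with one positive entry in each row
-/

set_option autoImplicit false

namespace Pool.Agent.V8H41.MD

open Finset Matrix

section
variable {ι V : Type} [Fintype ι] [Fintype V] [DecidableEq V]

/-- A vector of the left kernel on rows of the support of a circuit. -/
theorem circ_sub {κ : Type} {N : Matrix ι κ ℝ} {C : ι → ℝ} (hC : NCirc N C) {K : Type} [Fintype K]
    (idx : K → ι) (hinj : Function.Injective idx) (hne : ∀ k, C (idx k) ≠ 0) (c : K → ℝ)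
    (h : ∀ v, ∑ k, c k * N (idx k) v = 0) :
    ∃ l : ℝ, (∀ k, c k = l * C (idx k)) ∧ ∀ i, i ∉ Set.range idx → l * C i = 0 := by
  classical
  obtain ⟨D, hD⟩ : ∃ D : ι → ℝ, D = fun i => ∑ k, if idx k = i then c k else 0 := ⟨_, rfl⟩
  have hD1 : ∀ k, D (idx k) = c k := by
    intro k
    rw [hD]
    simp only
    rw [sum_eq_single k]
    · simp
    · intro k' _ hk
      rw [if_neg fun h => hk (hinj h)]
    · intro h
      exact absurd (mem_univ k) h
  have hD2 : ∀ i, i ∉ Set.range idx → D i = 0 := by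
    intro i hi
    rw [hD]
    refine sum_eq_zero fun k _ => ?_
    rw [if_neg fun h => hi ⟨k, h⟩]
  have hker : D ᵥ* N = 0 := by
    funext v
    have h1 : (D ᵥ* N) v = ∑ i, D i * N i v := rfl
    rw [h1, ← Fintype.sum_of_injective idx hinj (fun k => c k * N (idx k) v)
      (fun i => D i * N i v) (fun i hi => by simp only [hD2 i hi, zero_mul])
      (fun k => by simp only [hD1 k]), h v]
    rfl
  obtain ⟨l, hl⟩ := hC.2.2.2 D hker (by
    intro i hi
    refine hD2 i ?_
    rintro ⟨k, rfl⟩
    exact hne k hi)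
  refine ⟨l, fun k => ?_, fun i hi => ?_⟩
  · rw [← hD1 k, hl]
    rfl
  · rw [← hD2 i hi, hl]
    rfl

/-- The data of a system: the rows `i` with `src i` are the vectors `- d i`, the other ones are
`(∑ t, p i t + l i) e_{h i} - p i`. -/
structure Sys (N : Matrix ι V ℝ) (src : ι → Prop) (h : ι → V) (p : ι → V → ℝ) (l : ι → ℝ)
    (d : ι → V → ℝ) : Prop where
  hp : ∀ i t, 0 ≤ p i t
  hl : ∀ i, 0 ≤ l i
  hd : ∀ i t, src i → 0 < d i t
  hs : ∀ i v, src i → N i v = - d i v
  hn : ∀ i v, ¬ src i → N i v = (if v = h i then ∑ t, p i t + l i else 0) - p i v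

variable {N : Matrix ι V ℝ} {src : ι → Prop} {h : ι → V} {p : ι → V → ℝ} {l : ι → ℝ}
  {d : ι → V → ℝ} {C : ι → ℝ}

theorem Sys.Lm_eq (S : Sys N src h p l d) {σ : V → ι} (hσ : ∀ v, ¬ src (σ v) ∧ h (σ v) = v)
    (v j : V) : Lm (fun v => p (σ v)) (fun v => l (σ v)) v j = N (σ v) j := by
  rw [S.hn _ _ (hσ v).1, (hσ v).2]
  simp only [Lm, Matrix.of_apply]
  congr 1
  by_cases h : v = j
  · simp [h]
  · simp [h, Ne.symm h]

/-- The circuits containing a source. -/
theorem Sys.circ_src (S : Sys N src h p l d) (hC : NCirc N C) {ν : ι} (hν : src ν)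
    (hν0 : C ν ≠ 0) : ∃ σ : V → ι, (∀ v, ¬ src (σ v) ∧ h (σ v) = v) ∧ (∀ v, 0 < C (σ v)) ∧
      (∀ i, C i ≠ 0 → i = ν ∨ ∃ v, i = σ v) ∧
      (Lm (fun v => p (σ v)) (fun v => l (σ v))).det ≠ 0 ∧
      (fun v => C (σ v) / C ν) ᵥ* Lm (fun v => p (σ v)) (fun v => l (σ v)) = d ν := by
  classical
  have hker : ∀ v, ∑ i, C i * N i v = 0 := fun v => congrFun hC.2.2.1 v
  have hνp : 0 < C ν := lt_of_le_of_ne (hC.1 ν) (Ne.symm hν0)
  have hex : ∀ v, ∃ i, 0 < C i ∧ ¬ src i ∧ h i = v := by
    intro v
    by_contra hno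
    push Not at hno
    have h1 : ∀ i, C i * N i v ≤ 0 := by
      intro i
      rcases eq_or_lt_of_le (hC.1 i) with h0 | h0
      · rw [← h0, zero_mul]
      · refine mul_nonpos_of_nonneg_of_nonpos h0.le ?_
        by_cases hs : src i
        · rw [S.hs i v hs]
          linarith [S.hd i v hs]
        · rw [S.hn i v hs, if_neg (Ne.symm (hno i h0 hs))]
          linarith [S.hp i v]
    have h2 : C ν * N ν v < 0 := by
      rw [S.hs ν v hν]
      have := S.hd ν v hν
      nlinarith
    have h3 : ∑ i, C i * N i v < 0 := by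
      refine lt_of_le_of_lt (sum_le_sum (g := fun i => if i = ν then C ν * N ν v else 0) ?_) ?_
      · intro i _
        split_ifs with hi
        · rw [hi]
        · exact h1 i
      · simpa using h2
    linarith [hker v]
  choose σ hσ0 hσ1 hσ2 using hex
  have hσinj : Function.Injective σ := fun v w hvw => by rw [← hσ2 v, hvw, hσ2]
  obtain ⟨idx, hidx⟩ : ∃ idx : Option V → ι, idx = fun o => o.elim ν σ := ⟨_, rfl⟩
  have hinj : Function.Injective idx := by
    intro a b hab
    rw [hidx] at hab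
    cases a with
    | none =>
      cases b with
      | none => rfl
      | some w =>
        simp only [Option.elim_none, Option.elim_some] at hab
        exact absurd (hab ▸ hν) (hσ1 w)
    | some v =>
      cases b with
      | none =>
        simp only [Option.elim_none, Option.elim_some] at hab
        exact absurd (hab ▸ hν) (hσ1 v)
      | some w =>
        simp only [Option.elim_some] at hab
        rw [hσinj hab]
  have hne : ∀ o, C (idx o) ≠ 0 := by
    intro o
    rw [hidx]
    cases o with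
    | none => exact hν0
    | some v => exact (hσ0 v).ne'
  have hdep : ¬ LinearIndependent ℝ fun o : Option V => (fun v => N (idx o) v : V → ℝ) := by
    intro hli
    have h1 := hli.fintype_card_le_finrank
    rw [Module.finrank_fintype_fun_eq_card, Fintype.card_option] at h1
    omega
  rw [Fintype.not_linearIndependent_iff] at hdep
  obtain ⟨c, hc, o, ho⟩ := hdep
  obtain ⟨m, hm1, hm2⟩ := circ_sub hC idx hinj hne c (fun v => by
    have h1 := congrFun hc v
    simpa [Finset.sum_apply] using h1)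
  have hm0 : m ≠ 0 := by
    rintro rfl
    exact ho (by rw [hm1 o, zero_mul])
  have hsupp : ∀ i, C i ≠ 0 → i ∈ Set.range idx := by
    intro i hi
    by_contra h1
    rcases mul_eq_zero.1 (hm2 i h1) with h2 | h2
    · exact hm0 h2
    · exact hi h2
  have hLm : ∀ v j, Lm (fun v => p (σ v)) (fun v => l (σ v)) v j = N (σ v) j :=
    S.Lm_eq fun v => ⟨hσ1 v, hσ2 v⟩
  refine ⟨σ, fun v => ⟨hσ1 v, hσ2 v⟩, hσ0, ?_, ?_, ?_⟩
  · intro i hi
    obtain ⟨o, ho⟩ := hsupp i hi
    rw [hidx] at ho
    cases o with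
    | none => exact Or.inl ho.symm
    | some v => exact Or.inr ⟨v, ho.symm⟩
  · intro hdet
    obtain ⟨z, hz0, hz⟩ := exists_vecMul_eq_zero_iff.2 hdet
    obtain ⟨m, hm1, hm2⟩ := circ_sub hC σ hσinj (fun v => (hσ0 v).ne') z (fun j => by
      have h1 := congrFun hz j
      simp only [Matrix.vecMul, dotProduct, Pi.zero_apply] at h1
      rw [← h1]
      exact sum_congr rfl fun v _ => by rw [hLm])
    have h1 : m = 0 := by
      have h2 := hm2 ν (by
        rintro ⟨v, hv⟩
        exact hσ1 v (hv ▸ hν))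
      rcases mul_eq_zero.1 h2 with h3 | h3
      · exact h3
      · exact absurd h3 hν0
    apply hz0
    funext v
    rw [hm1 v, h1, zero_mul]
    rfl
  · funext j
    have h1 : ((fun v => C (σ v) / C ν) ᵥ* Lm (fun v => p (σ v)) (fun v => l (σ v))) j =
        ∑ v, C (σ v) / C ν * N (σ v) j := by
      simp only [Matrix.vecMul, dotProduct]
      exact sum_congr rfl fun v _ => by rw [hLm]
    have h2 : ∑ o : Option V, C (idx o) * N (idx o) j = ∑ i, C i * N i j :=
      Fintype.sum_of_injective idx hinj _ _ (fun i hi => by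
        by_cases h0 : C i = 0
        · rw [h0, zero_mul]
        · exact absurd (hsupp i h0) hi) (fun o => rfl)
    rw [hker j, Fintype.sum_option, hidx] at h2
    simp only [Option.elim_none, Option.elim_some] at h2
    rw [S.hs ν j hν] at h2
    have h3 : ∑ v, C (σ v) / C ν * N (σ v) j = (∑ v, C (σ v) * N (σ v) j) / C ν := by
      rw [sum_div]
      exact sum_congr rfl fun v _ => by ring
    rw [h1, h3, div_eq_iff hν0]
    linarith

/-- The circuits containing no source. -/
theorem Sys.circ_zero (S : Sys N src h p l d) (hC : NCirc N C) (hns : ∀ i, C i ≠ 0 → ¬ src i) :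
    (∀ i, C i ≠ 0 → l i = 0) ∧ ∃ μ : ℝ, 0 < μ ∧ ∀ i, C i ≠ 0 → ∃ g : V → ℝ,
      (∀ w, g w = 1 ∨ ∃ j t, C j ≠ 0 ∧ g w = p j t) ∧ 0 < ∏ w, g w ∧ ∏ w, g w ≤ μ * C i ∧
      μ * C i ≤ ((Fintype.card V + 1) ^ Fintype.card V * (Fintype.card V).factorial : ℕ) *
        ∏ w, g w := by
  classical
  have hker : ∀ v, ∑ i, C i * N i v = 0 := fun v => congrFun hC.2.2.1 v
  -- no leaks
  have hrow : ∀ i, ¬ src i → ∑ v, N i v = l i := by
    intro i hi
    rw [sum_congr rfl fun v _ => S.hn i v hi, sum_sub_distrib]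
    simp
  have hl0 : ∀ i, C i ≠ 0 → l i = 0 := by
    have h1 : ∑ i, C i * l i = 0 := by
      have h2 : ∑ i, C i * l i = ∑ i, ∑ v, C i * N i v := by
        refine sum_congr rfl fun i _ => ?_
        by_cases h0 : C i = 0
        · simp [h0]
        · rw [← mul_sum, hrow i (hns i h0)]
      rw [h2, sum_comm]
      exact sum_eq_zero fun v _ => hker v
    have h2 := (sum_eq_zero_iff_of_nonneg fun i _ => mul_nonneg (hC.1 i) (S.hl i)).1 h1
    intro i hi
    rcases mul_eq_zero.1 (h2 i (mem_univ i)) with h3 | h3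
    · exact absurd h3 hi
    · exact h3
  refine ⟨hl0, ?_⟩
  obtain ⟨J, hJ⟩ : ∃ J : Finset V, J = (univ.filter fun i => C i ≠ 0).image h := ⟨_, rfl⟩
  have hJmem : ∀ v, v ∈ J ↔ ∃ i, C i ≠ 0 ∧ h i = v := by
    intro v
    rw [hJ]
    simp
  have hhJ : ∀ i, C i ≠ 0 → h i ∈ J := fun i hi => (hJmem _).2 ⟨i, hi, rfl⟩
  -- the columns outside `J`
  have hcol : ∀ w, w ∉ J → ∀ i, C i ≠ 0 → N i w = 0 := by
    intro w hw i hi
    have h1 : ∀ j ∈ univ, C j * N j w ≤ 0 := by
      intro j _
      by_cases h0 : C j = 0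
      · rw [h0, zero_mul]
      · have h2 : w ≠ h j := fun h3 => hw (h3 ▸ hhJ j h0)
        refine mul_nonpos_of_nonneg_of_nonpos (hC.1 j) ?_
        rw [S.hn j w (hns j h0), if_neg h2]
        linarith [S.hp j w]
    have h2 := (sum_eq_zero_iff_of_nonpos h1).1 (hker w) i (mem_univ i)
    rcases mul_eq_zero.1 h2 with h3 | h3
    · exact absurd h3 hi
    · exact h3
  obtain ⟨i0, hi0⟩ : ∃ i, C i ≠ 0 := by
    by_contra hno
    push Not at hno
    exact hC.2.1 (funext hno)
  -- a section
  have hsec : ∀ v, ∃ i, C i ≠ 0 ∧ (v ∈ J → h i = v) := by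
    intro v
    by_cases hv : v ∈ J
    · obtain ⟨i, h1, h2⟩ := (hJmem v).1 hv
      exact ⟨i, h1, fun _ => h2⟩
    · exact ⟨i0, hi0, fun h1 => absurd h1 hv⟩
  choose σ hσ0 hσ1 using hsec
  have hNcol : ∀ v w, w ∉ J → N (σ v) w = 0 := fun v w hw => hcol w hw _ (hσ0 v)
  obtain ⟨P, hP⟩ : ∃ P : V → V → ℝ, P = fun v => if v ∈ J then p (σ v) else 0 := ⟨_, rfl⟩
  obtain ⟨Λ, hΛ⟩ : ∃ Λ : V → ℝ, Λ = fun v => if v ∈ J then 0 else 1 := ⟨_, rfl⟩
  obtain ⟨M, hM⟩ : ∃ M : Matrix V V ℝ, M = Lm P Λ := ⟨_, rfl⟩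
  have hMJ : ∀ v, v ∈ J → ∀ w, M v w = N (σ v) w := by
    intro v hv w
    rw [S.hn _ _ (hns _ (hσ0 v)), hσ1 v hv, hM, hl0 _ (hσ0 v)]
    simp only [Lm, Matrix.of_apply, hP, hΛ, hv, if_true]
    congr 1
    by_cases h1 : v = w
    · simp [h1]
    · simp [h1, Ne.symm h1]
  have hMn : ∀ v, v ∉ J → ∀ w, M v w = if v = w then 1 else 0 := by
    intro v hv w
    rw [hM]
    simp [Lm, hP, hΛ, hv]
  have hP0 : ∀ v t, 0 ≤ P v t := by
    intro v t
    rw [hP]
    by_cases hv : v ∈ J
    · simp only [hv, if_true]; exact S.hp _ t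
    · simp [hv]
  have hΛ0 : ∀ v, 0 ≤ Λ v := by
    intro v
    rw [hΛ]
    by_cases hv : v ∈ J <;> simp [hv]
  obtain ⟨u, hu⟩ : ∃ u : V → ℝ, u = fun v => if v ∈ J then 1 else 0 := ⟨_, rfl⟩
  have hrow1 : ∀ v, v ∈ J → ∑ w, N (σ v) w * u w = 0 := by
    intro v hv
    have h1 : ∀ w, N (σ v) w * u w = N (σ v) w := by
      intro w
      by_cases hw : w ∈ J
      · simp [hu, hw]
      · rw [hNcol v w hw, zero_mul]
    rw [sum_congr rfl fun w _ => h1 w, hrow _ (hns _ (hσ0 v)), hl0 _ (hσ0 v)]
  have hMu : ∀ v, ∑ w, M v w * u w = 0 := by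
    intro v
    by_cases hv : v ∈ J
    · rw [← hrow1 v hv]
      exact sum_congr rfl fun w _ => by rw [hMJ v hv w]
    · have h1 : ∀ w, M v w * u w = if v = w then u w else 0 := by
        intro w
        rw [hMn v hv w]
        split_ifs <;> simp
      rw [sum_congr rfl fun w _ => h1 w]
      simp [hu, hv]
  have hu0 : u ≠ 0 := by
    intro h0
    have h1 := congrFun h0 (h i0)
    rw [hu] at h1
    simp [hhJ i0 hi0] at h1
  have hdet0 : M.det = 0 := exists_mulVec_eq_zero_iff.1 ⟨u, hu0, funext fun v => hMu v⟩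
  -- the cofactors
  obtain ⟨k, hk⟩ : ∃ k : V → ℝ, k = fun v => (M.updateRow v (Pi.single v 1)).det := ⟨_, rfl⟩
  have hcof : ∀ c ∈ J, ∀ c' ∈ J, (M.updateRow c (Pi.single c' 1)).det = k c := by
    intro c hc c' hc'
    have h1 : (Pi.single c' 1 : V → ℝ) = Pi.single c 1 + (Pi.single c' 1 - Pi.single c 1) := by
      abel
    rw [h1, det_updateRow_add, hk]
    simp only
    have h2 : (M.updateRow c (Pi.single c' 1 - Pi.single c 1)).det = 0 := by
      refine exists_mulVec_eq_zero_iff.1 ⟨u, hu0, funext fun v => ?_⟩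
      simp only [Matrix.mulVec, dotProduct, Pi.zero_apply]
      by_cases hv : v = c
      · subst hv
        simp only [updateRow_self, Pi.sub_apply, sub_mul, sum_sub_distrib]
        have h3 : ∀ a : V, ∑ w, (Pi.single a 1 : V → ℝ) w * u w = u a := by
          intro a
          have h4 : ∀ w, (Pi.single a 1 : V → ℝ) w * u w = if w = a then u w else 0 := by
            intro w
            by_cases h : w = a
            · subst h; simp
            · simp [h]
          rw [sum_congr rfl fun w _ => h4 w]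
          simp
        rw [h3, h3, hu]
        simp [hc, hc']
      · simp only [updateRow_ne hv]
        exact hMu v
    rw [h2, add_zero]
  have hJ0 : h i0 ∈ J := hhJ i0 hi0
  have hadj : ∀ w, ∑ v, M.adjugate (h i0) v * M v w = 0 := by
    intro w
    have h1 := congrFun (congrFun (adjugate_mul M) (h i0)) w
    rw [hdet0, zero_smul, Matrix.zero_apply, Matrix.mul_apply] at h1
    exact h1
  have hadj1 : ∀ v ∈ J, M.adjugate (h i0) v = k v := by
    intro v hv
    rw [adjugate_apply]
    exact hcof v hv (h i0) hJ0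
  have hadj2 : ∀ w, w ∉ J → M.adjugate (h i0) w = 0 := by
    intro w hw
    have h1 := hadj w
    have h2 : ∀ v, M.adjugate (h i0) v * M v w = if v = w then M.adjugate (h i0) w else 0 := by
      intro v
      by_cases hv : v ∈ J
      · have h5 : ¬ v = w := fun h3 => hw (h3 ▸ hv)
        rw [hMJ v hv w, hNcol v w hw, mul_zero, if_neg h5]
      · rw [hMn v hv w]
        by_cases h3 : v = w
        · simp [h3]
        · simp [h3]
    rw [sum_congr rfl fun v _ => h2 v] at h1
    simpa using h1
  have hσinj : Function.Injective fun v : J => σ v := by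
    intro v w hvw
    have h1 := hσ1 v v.2
    have h2 := hσ1 w w.2
    simp only at hvw
    rw [hvw, h2] at h1
    exact Subtype.ext h1.symm
  have hsub : ∀ z : V → ℝ, (∀ v, v ∉ J → z v = 0) → (∀ w, ∑ v, z v * M v w = 0) →
      ∃ m : ℝ, (∀ v ∈ J, z v = m * C (σ v)) ∧ ∀ i, (∀ v ∈ J, σ v ≠ i) → m * C i = 0 := by
    intro z hz1 hz2
    obtain ⟨m, hm1, hm2⟩ := circ_sub hC (fun v : J => σ v) hσinj (fun v => hσ0 v)
      (fun v : J => z v) (fun w => by
        rw [← hz2 w, Finset.sum_coe_sort J (fun v => z v * N (σ v) w)]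
        refine (sum_congr rfl fun v hv => ?_).trans (sum_subset (subset_univ J) ?_)
        · rw [← hMJ v hv w]
        · intro v _ hv
          rw [hz1 v hv, zero_mul])
    refine ⟨m, fun v hv => hm1 ⟨v, hv⟩, fun i hi => hm2 i ?_⟩
    rintro ⟨v, hv⟩
    exact hi v v.2 hv
  obtain ⟨m, hm1, hm2⟩ := hsub (M.adjugate (h i0)) hadj2 hadj
  -- the cofactors do not vanish
  have hk0 : ∀ c ∈ J, k c ≠ 0 := by
    intro c hc h0
    rw [hk] at h0
    obtain ⟨z, hz0, hz⟩ := exists_vecMul_eq_zero_iff.2 h0
    have hz' : ∀ w, ∑ v, z v * (M.updateRow c (Pi.single c 1)) v w = 0 := fun w => congrFun hz w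
    have hzo : ∀ w, w ∉ J → z w = 0 := by
      intro w hw
      have h1 := hz' w
      have h2 : ∀ v, z v * (M.updateRow c (Pi.single c 1)) v w = if v = w then z w else 0 := by
        intro v
        by_cases hv : v = c
        · subst hv
          have h5 : ¬ v = w := fun h3 => hw (h3 ▸ hc)
          have h6 : w ≠ v := fun h3 => h5 h3.symm
          rw [updateRow_self, Pi.single_eq_of_ne h6, mul_zero, if_neg h5]
        · rw [updateRow_ne hv]
          by_cases hvJ : v ∈ J
          · have h5 : ¬ v = w := fun h3 => hw (h3 ▸ hvJ)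
            rw [hMJ v hvJ w, hNcol v w hw, mul_zero, if_neg h5]
          · rw [hMn v hvJ w]
            by_cases h3 : v = w
            · simp [h3]
            · simp [h3]
      rw [sum_congr rfl fun v _ => h2 v] at h1
      simpa using h1
    have hzc : z c = 0 := by
      have h1 : ∑ w, (∑ v, z v * (M.updateRow c (Pi.single c 1)) v w) * u w = 0 :=
        sum_eq_zero fun w _ => by rw [hz' w, zero_mul]
      have h2 : ∑ w, (∑ v, z v * (M.updateRow c (Pi.single c 1)) v w) * u w =
          ∑ v, z v * ∑ w, (M.updateRow c (Pi.single c 1)) v w * u w := by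
        simp only [sum_mul, mul_sum]
        rw [sum_comm]
        exact sum_congr rfl fun v _ => sum_congr rfl fun w _ => by ring
      rw [h2, sum_eq_single c] at h1
      · have h3 : ∑ w, (M.updateRow c (Pi.single c 1)) c w * u w = 1 := by
          rw [sum_eq_single c]
          · simp [hu, hc]
          · intro w _ hw
            rw [updateRow_self, Pi.single_eq_of_ne hw, zero_mul]
          · intro h
            exact absurd (mem_univ c) h
        rw [h3, mul_one] at h1
        exact h1
      · intro v _ hv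
        rw [updateRow_ne hv, hMu v, mul_zero]
      · intro h
        exact absurd (mem_univ c) h
    obtain ⟨m', hm1', -⟩ := hsub z hzo (fun w => by
      rw [← hz' w]
      refine sum_congr rfl fun v _ => ?_
      by_cases hv : v = c
      · rw [hv, hzc, zero_mul, zero_mul]
      · rw [updateRow_ne hv])
    have h1 : m' = 0 := by
      have h2 := hm1' c hc
      rw [hzc] at h2
      rcases mul_eq_zero.1 h2.symm with h3 | h3
      · exact h3
      · exact absurd h3 (hσ0 c)
    apply hz0
    funext v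
    by_cases hv : v ∈ J
    · rw [hm1' v hv, h1, zero_mul]
      rfl
    · exact hzo v hv
  have hkL : ∀ c, k c = (Lm (Function.update P c 0) (Function.update Λ c 1)).det := by
    intro c
    rw [hk, ← Lm_update, hM]
  have hup : ∀ c v t, 0 ≤ Function.update P c 0 v t := by
    intro c v t
    by_cases hv : v = c
    · subst hv; simp
    · simp [hv, hP0 v t]
  have hul : ∀ c v, 0 ≤ Function.update Λ c 1 v := by
    intro c v
    by_cases hv : v = c
    · subst hv; simp
    · simp [hv, hΛ0 v]
  have hkpos : ∀ c ∈ J, 0 < k c := by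
    intro c hc
    refine lt_of_le_of_ne ?_ (Ne.symm (hk0 c hc))
    rw [hkL]
    exact Lm_det_nonneg _ _ (hup c) (hul c)
  have hmpos : 0 < m := by
    have h1 := hm1 (h i0) hJ0
    rw [hadj1 _ hJ0] at h1
    have h2 := hkpos _ hJ0
    rw [h1] at h2
    exact pos_of_mul_pos_left h2 (hC.1 _)
  refine ⟨m, hmpos, fun i hi => ?_⟩
  have hiJ : ∃ v ∈ J, σ v = i := by
    by_contra hno
    push Not at hno
    rcases mul_eq_zero.1 (hm2 i hno) with h1 | h1
    · exact hmpos.ne' h1
    · exact hi h1
  obtain ⟨c, hc, rfl⟩ := hiJ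
  have hval : m * C (σ c) = (Lm (Function.update P c 0) (Function.update Λ c 1)).det := by
    rw [← hkL, ← hadj1 c hc, hm1 c hc]
  rw [hval]
  obtain ⟨f, f1, f2, f3⟩ := Lm_max _ _ (hup c) (hul c) (by rw [← hkL]; exact hkpos c hc)
  refine ⟨fun w => wt (Function.update P c 0) (Function.update Λ c 1) w (f w), ?_, f1, f2, f3⟩
  intro w
  have hne := prod_ne_zero_iff.1 (ne_of_gt f1) w (mem_univ w)
  simp only
  by_cases hw : w = c
  · subst hw
    left
    cases hf : f w with
    | none => simp [wt]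
    | some t =>
      rw [hf] at hne
      simp [wt] at hne
  · by_cases hwJ : w ∈ J
    · right
      cases hf : f w with
      | none =>
        rw [hf] at hne
        simp [wt, hw, hΛ, hwJ] at hne
      | some t =>
        refine ⟨σ w, t, hσ0 w, ?_⟩
        simp [wt, hw, hP, hwJ]
    · left
      cases hf : f w with
      | none => simp [wt, hw, hΛ, hwJ]
      | some t =>
        rw [hf] at hne
        simp [wt, hw, hP, hwJ] at hne

end

end Pool.Agent.V8H41.MD
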