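import Pool.Agent.V8H41.MD.MkS

/-!
# The extended matrices of Markov decision processes
-/

set_option autoImplicit false

namespace Pool.Agent.V8H41.MD

open Finset Matrix

theorem FewProducts.mono {R R' n : ℕ} (h : R ≤ R') {T : Set ℝ} (hT : FewProducts R n T) :
    FewProducts R' n T := by
  obtain ⟨h0, S, h1, h2, h3⟩ := hT
  refine ⟨h0, S, h1.trans h, h2, fun f hf => ?_⟩
  obtain ⟨s, hs, h4, h5⟩ := h3 f hf
  refine ⟨s, hs, h4, h5.trans ?_⟩
  exact mul_le_mul_of_nonneg_right (pow_le_pow_right₀ (by norm_num) h) (h2 s hs).le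

theorem StateRow.mono {R R' : ℕ} (h : R ≤ R') {T : Set ℝ} (hT : ∀ τ ∈ T, 0 < τ) {V : Type}
    [Fintype V] [DecidableEq V] {a : V → ℝ} (ha : StateRow R T a) : StateRow R' T a := by
  obtain ⟨lam, v, p, l, h1, h2, h3, h4, h5⟩ := ha
  have h6 : (2 : ℝ) ^ R ≤ 2 ^ R' := pow_le_pow_right₀ (by norm_num) h
  refine ⟨lam, v, p, l, h1, h2, h3, h4, ?_⟩
  rcases h5 with h5 | h5
  · left
    intro t
    rcases h5 t with h7 | ⟨τ, hτ, h7, h8⟩
    · exact Or.inl h7
    · exact Or.inr ⟨τ, hτ, h7, h8.trans (mul_le_mul_of_nonneg_right h6 (hT τ hτ).le)⟩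
  · right
    exact h5.trans (mul_le_mul_of_nonneg_right h6 h3)

theorem SourceRow.mono {R R' : ℕ} (h : R ≤ R') {V : Type} {a : V → ℝ} (ha : SourceRow R a) :
    SourceRow R' a := by
  obtain ⟨lam, h1, h2⟩ := ha
  refine ⟨lam, h1, fun v => ⟨(h2 v).1, (h2 v).2.trans ?_⟩⟩
  exact mul_le_mul_of_nonneg_right (pow_le_pow_right₀ (by norm_num) h) h1.le

/-- The extended matrix. -/
theorem mdp_ext {m n R : ℕ} (hn : 1 ≤ n) {T : Set ℝ} (hT : FewProducts R n T)
    {A : Matrix (Fin m) (Fin n) ℝ} (hA : ∀ i, StateRow R T (A i) ∨ SourceRow R (A i)) :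
    NScales (bnd (m + (n + 1)) n R) (ext A) := by
  haveI : Nonempty (Fin n) := ⟨⟨0, hn⟩⟩
  have h1 := mdp_scales (ι := Fin m ⊕ (Fin n ⊕ Unit)) (V := Fin n) (R := R) (T := T) (N := ext A)
    (by rw [Fintype.card_fin]; exact hT) (by
      intro i
      rcases i with i | i | i
      · exact hA i
      · left
        refine ⟨1, i, 0, 1, one_pos, fun _ => le_rfl, zero_le_one, fun v => ?_,
          Or.inl fun t => Or.inl rfl⟩
        simp only [ext, fromRows_apply_inr, fromRows_apply_inl, Pi.zero_apply, sum_const_zero,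
          zero_add, sub_zero, one_mul, Matrix.one_apply]
        by_cases h : i = v
        · simp [h]
        · simp [h, Ne.symm h]
      · right
        refine ⟨1, one_pos, fun v => ?_⟩
        simp only [ext, fromRows_apply_inr, Matrix.of_apply, neg_neg, mul_one]
        exact ⟨le_rfl, one_le_pow₀ (by norm_num)⟩)
  simpa using h1

/-- The bound as a polynomial. -/
theorem bnd_poly : ∃ q : Polynomial ℕ, ∀ m n R : ℕ, bnd (m + (n + 1)) n R ≤ q.eval (m + n + R) := by
  refine ⟨((Polynomial.X + 2) * (Polynomial.X + 2) * (Polynomial.X * Polynomial.X) + 1 +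
    Polynomial.X) * ((Polynomial.X + 2) * (Polynomial.X + 2) * (Polynomial.X * Polynomial.X) + 1 +
    Polynomial.X) + 4 * ((2 + Polynomial.X + 2 * Polynomial.X +
      2 * (Polynomial.X * Polynomial.X)) + Polynomial.X * (Polynomial.X + 1)), fun m n R => ?_⟩
  simp only [Polynomial.eval_add, Polynomial.eval_mul, Polynomial.eval_X, Polynomial.eval_one,
    Polynomial.eval_ofNat]
  unfold bnd wex
  have h1 : m + (n + 1) + 1 ≤ m + n + R + 2 := by omega
  have h2 : R ≤ m + n + R := by omega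
  have h3 : n ≤ m + n + R := by omega
  gcongr

/-- The matrix of a Markov decision process, with the rows `x ↦ x_{h i} - γ i ∑ t, P i t x t` of the
actions `i`, and the row `x ↦ - ∑ v, d v x v`. -/
def mdpMatrix {m n : ℕ} (h : Fin m → Fin n) (P : Matrix (Fin m) (Fin n) ℝ) (γ : Fin m → ℝ)
    (d : Fin n → ℝ) : Matrix (Fin (m + 1)) (Fin n) ℝ :=
  Matrix.of (Fin.snoc (fun i v => (if v = h i then 1 else 0) - γ i * P i v) (fun v => - d v))

/-- Markov decision processes whose transition probabilities have few orders of magnitude. -/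
theorem mdp_markov {m n k R : ℕ} (δ : Fin k → ℝ) (hδ : ∀ j, 0 < δ j) (h : Fin m → Fin n)
    (P : Matrix (Fin m) (Fin n) ℝ) (γ : Fin m → ℝ) (d : Fin n → ℝ)
    (hP : ∀ i t, P i t = 0 ∨ ∃ j, δ j ≤ P i t ∧ P i t ≤ 2 ^ R * δ j) (hP1 : ∀ i, ∑ t, P i t = 1)
    (hγ : ∀ i, 0 ≤ γ i ∧ γ i ≤ 1) (hd : ∀ v, 1 ≤ d v ∧ d v ≤ 2 ^ R) :
    ∃ T : Set ℝ, FewProducts ((n + 1) ^ k + R + 1) n T ∧ ∀ i,
      StateRow ((n + 1) ^ k + R + 1) T (mdpMatrix h P γ d i) ∨
      SourceRow ((n + 1) ^ k + R + 1) (mdpMatrix h P γ d i) := by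
  obtain ⟨T, hT⟩ : ∃ T : Set ℝ, T = Set.range fun j => δ j / 2 := ⟨_, rfl⟩
  have hT0 : ∀ τ ∈ T, 0 < τ := by
    intro τ hτ
    rw [hT] at hτ
    obtain ⟨j, rfl⟩ := hτ
    have := hδ j
    positivity
  refine ⟨T, ?_, ?_⟩
  · have h1 := few_scales n k 0 (fun j => δ j / 2) (fun j => by have := hδ j; positivity) T
      (fun τ hτ => by
        rw [hT] at hτ
        obtain ⟨j, rfl⟩ := hτ
        exact ⟨j, le_rfl, by simp⟩)
    exact h1.mono (by omega)
  · intro i
    refine Fin.lastCases ?_ (fun i => ?_) i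
    · right
      refine SourceRow.mono (R := R) (by omega) ⟨1, one_pos, fun v => ?_⟩
      simp only [mdpMatrix, Matrix.of_apply, Fin.snoc_last, neg_neg, mul_one]
      exact hd v
    · left
      refine StateRow.mono (R := R + 1) (by omega) hT0 ⟨1, h i, fun t => γ i * P i t, 1 - γ i,
        one_pos, fun t => ?_, sub_nonneg.2 (hγ i).2, fun v => ?_, ?_⟩
      · refine mul_nonneg (hγ i).1 ?_
        rcases hP i t with h1 | ⟨j, h1, -⟩
        · rw [h1]
        · exact (hδ j).le.trans h1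
      · simp only [mdpMatrix, Matrix.of_apply, Fin.snoc_castSucc]
        rw [← mul_sum, hP1 i]
        simp
      · by_cases h2 : 1 / 2 ≤ γ i
        · left
          intro t
          rcases hP i t with h1 | ⟨j, h1, h3⟩
          · left
            show γ i * P i t = 0
            rw [h1, mul_zero]
          · right
            have h4 := hδ j
            refine ⟨δ j / 2, by rw [hT]; exact ⟨j, rfl⟩, ?_, ?_⟩
            · nlinarith
            · rw [pow_succ]
              have h5 : γ i * P i t ≤ 1 * (2 ^ R * δ j) :=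
                mul_le_mul (hγ i).2 h3 (h4.le.trans h1) zero_le_one
              calc γ i * P i t ≤ 1 * (2 ^ R * δ j) := h5
                _ = _ := by ring
        · right
          push Not at h2
          rw [← mul_sum, hP1 i, mul_one]
          have h3 : (1 : ℝ) ≤ 2 ^ (R + 1) := one_le_pow₀ (by norm_num)
          nlinarith

end Pool.Agent.V8H41.MD
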