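import Pool.Agent.V8H41.MD.MkA

/-!
# The entries of the row vectors of a policy
-/

set_option autoImplicit false

namespace Pool.Agent.V8H41.MD

open Finset Matrix

/-- Comparison of two powers of a small number. -/
theorem two_pow {a a' : ℕ} {W W' K1 K2 : ℝ} (hW : 0 < W) (hW' : 0 < W') (hK1 : 0 < K1)
    (hK2 : 0 < K2) (h : ∀ δ : ℝ, 0 < δ → ∃ e : ℝ, 0 < e ∧ e < δ ∧ W' * e ^ a' ≤ K1 * (W * e ^ a) ∧
      W * e ^ a ≤ K2 * (W' * e ^ a')) : W' ≤ K1 * W ∧ W ≤ K2 * W' := by
  have key : ∀ (b b' : ℕ) (X X' K : ℝ), 0 < X → 0 < X' → 0 < K →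
      (∀ δ : ℝ, 0 < δ → ∃ e : ℝ, 0 < e ∧ e < δ ∧ X' * e ^ b' ≤ K * (X * e ^ b)) → b ≤ b' := by
    intro b b' X X' K hX hX' hK hh
    by_contra hlt
    push Not at hlt
    obtain ⟨e, he, he2, h1⟩ := hh (min 1 (X' / (K * X))) (lt_min one_pos (by positivity))
    have he3 : e < 1 := he2.trans_le (min_le_left _ _)
    have he4 : e < X' / (K * X) := he2.trans_le (min_le_right _ _)
    have h2 : e ^ b ≤ e ^ (b' + 1) := pow_le_pow_of_le_one he.le he3.le hlt
    have h3 : K * (X * e ^ b) ≤ K * (X * e ^ (b' + 1)) := by gcongr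
    have h4 : K * (X * e ^ (b' + 1)) < X' * e ^ b' := by
      rw [pow_succ]
      have h5 : e * (K * X) < X' := by
        rwa [lt_div_iff₀ (by positivity)] at he4
      have h6 := pow_pos he b'
      nlinarith
    linarith
  have h1 : a ≤ a' := key a a' W W' K1 hW hW' hK1 fun δ hδ => by
    obtain ⟨e, he, he2, h3, -⟩ := h δ hδ
    exact ⟨e, he, he2, h3⟩
  have h2 : a' ≤ a := key a' a W' W K2 hW' hW hK2 fun δ hδ => by
    obtain ⟨e, he, he2, -, h3⟩ := h δ hδ
    exact ⟨e, he, he2, h3⟩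
  obtain rfl := le_antisymm h1 h2
  obtain ⟨e, he, -, h3, h4⟩ := h 1 one_pos
  have h5 := pow_pos he a
  constructor
  · rw [← mul_assoc] at h3
    exact le_of_mul_le_mul_right h3 h5
  · rw [← mul_assoc] at h4
    exact le_of_mul_le_mul_right h4 h5

/-- Pigeonholes. -/
theorem freq_choice {D : Type} [Finite D] {P : ℝ → D → Prop}
    (h : ∀ δ : ℝ, 0 < δ → ∃ e : ℝ, 0 < e ∧ e < δ ∧ ∃ d, P e d) :
    ∃ d, ∀ δ : ℝ, 0 < δ → ∃ e : ℝ, 0 < e ∧ e < δ ∧ P e d := by
  by_contra hno
  push Not at hno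
  choose δ hδ h1 using hno
  obtain ⟨e0, -, -, d0, -⟩ := h 1 one_pos
  haveI : Nonempty D := ⟨d0⟩
  obtain ⟨d1, hd1⟩ := Finite.exists_min δ
  obtain ⟨e, he, he2, d, hd⟩ := h (δ d1) (hδ d1)
  exact h1 d e he (he2.trans_le (hd1 d)) hd

section
variable {V : Type} [Fintype V] [DecidableEq V]

/-- The zero leaks replaced by `e`. -/
noncomputable def eps (e : ℝ) (l : V → ℝ) (v : V) : ℝ := l v + if l v = 0 then e else 0

theorem eps_zero (l : V → ℝ) : eps 0 l = l := by
  funext v
  simp [eps]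

theorem eps_pos {e : ℝ} (he : 0 < e) {l : V → ℝ} (hl : ∀ v, 0 ≤ l v) (v : V) : 0 < eps e l v := by
  unfold eps
  by_cases h : l v = 0
  · simp [h, he]
  · simp only [h, if_false, add_zero]
    exact lt_of_le_of_ne (hl v) (Ne.symm h)

/-- The rate of a state, up to a factor. -/
theorem rate_bounds (p : V → V → ℝ) (l x d : V → ℝ) (D : ℝ) (hp : ∀ v t, 0 ≤ p v t)
    (hl : ∀ v, 0 ≤ l v) (hdet : (Lm p l).det ≠ 0) (hx : x ᵥ* Lm p l = d) (hd1 : ∀ v, 1 ≤ d v)
    (hd2 : ∀ v, d v ≤ D) (s : V) (hxs : 0 < x s) :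
    ∃ δ : ℝ, 0 < δ ∧ ∀ e, 0 < e → e < δ → ∀ q E, Hit p (eps e l) s q E →
      1 ≤ 2 * (x s * E) ∧ x s * E ≤ 2 * (Fintype.card V * D) := by
  obtain ⟨M, hM⟩ : ∃ M : ℝ → Matrix V V ℝ, M = fun e => Lm p (eps e l) := ⟨_, rfl⟩
  have hMc : Continuous M := by
    rw [hM]
    refine continuous_matrix fun i j => ?_
    simp only [Lm, Matrix.of_apply, eps]
    split_ifs <;> fun_prop
  obtain ⟨ψ, hψ⟩ : ∃ ψ : ℝ → ℝ, ψ = fun e => (d ᵥ* (M e).adjugate) s / (M e).det := ⟨_, rfl⟩
  have hM0 : M 0 = Lm p l := by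
    rw [hM]
    simp only [eps_zero]
  have hadj : Continuous fun e => (d ᵥ* (M e).adjugate) s := by
    have h1 : Continuous fun e => (M e).adjugate := hMc.matrix_adjugate
    have h2 : (fun e => (d ᵥ* (M e).adjugate) s) = fun e => ∑ i, d i * (M e).adjugate i s := by
      funext e
      rfl
    rw [h2]
    refine continuous_finset_sum _ fun i _ => continuous_const.mul ?_
    exact (continuous_apply s).comp ((continuous_apply i).comp h1)
  have hψc : ContinuousAt ψ 0 := by
    rw [hψ]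
    refine ContinuousAt.div hadj.continuousAt hMc.matrix_det.continuousAt ?_
    rw [hM0]
    exact hdet
  have hψ0 : ψ 0 = x s := by
    rw [hψ]
    simp only [hM0]
    rw [← hx, vecMul_vecMul, mul_adjugate, vecMul_smul, vecMul_one]
    simp only [Pi.smul_apply, smul_eq_mul]
    field_simp
  have hev : ∀ᶠ e in nhds (0 : ℝ), x s / 2 < ψ e ∧ ψ e < 2 * x s := by
    refine (hψc.eventually (lt_mem_nhds ?_)).and (hψc.eventually (gt_mem_nhds ?_))
    · rw [hψ0]; linarith
    · rw [hψ0]; linarith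
  obtain ⟨δ, hδ, hδ2⟩ := Metric.eventually_nhds_iff.1 hev
  refine ⟨δ, hδ, fun e he he2 q E hq => ?_⟩
  obtain ⟨h1, h2⟩ := hδ2 (y := e) (by rw [Real.dist_eq, sub_zero, abs_of_pos he]; exact he2)
  have hle : ∀ v, 0 < eps e l v := eps_pos he hl
  have hpos : 0 < (M e).det := by
    rw [hM]
    exact Lm_det_pos p _ hp hle
  have hrow : (d ᵥ* (M e)⁻¹) ᵥ* Lm p (eps e l) = d := by
    have h3 : Lm p (eps e l) = M e := by rw [hM]
    rw [h3, vecMul_vecMul, nonsing_inv_mul _ (ne_of_gt hpos).isUnit, vecMul_one]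
  have h3 := hq.row hrow
  have h4 : (d ᵥ* (M e)⁻¹) s = ψ e := by
    rw [hψ]
    simp only [Matrix.inv_def, Ring.inverse_eq_inv', vecMul_smul, Pi.smul_apply, smul_eq_mul]
    rw [div_eq_inv_mul]
  rw [h4] at h3
  have hE := hq.pos hp hle
  have h5 : 1 ≤ ∑ v, d v * (1 - q v) := by
    have h6 : d s * (1 - q s) ≤ ∑ v, d v * (1 - q v) :=
      single_le_sum (f := fun v => d v * (1 - q v)) (fun v _ =>
        mul_nonneg (zero_le_one.trans (hd1 v)) (sub_nonneg.2 (hq.le_one hp hle v))) (mem_univ s)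
    rw [hq.zero, sub_zero, mul_one] at h6
    exact (hd1 s).trans h6
  have h6 : ∑ v, d v * (1 - q v) ≤ Fintype.card V * D := by
    have h7 : ∑ v, d v * (1 - q v) ≤ ∑ _v : V, D := by
      refine sum_le_sum fun v _ => ?_
      have h8 := hq.nonneg hp hle v
      have h9 := hq.le_one hp hle v
      have h10 := hd1 v
      have h11 := hd2 v
      nlinarith
    rwa [sum_const, card_univ, nsmul_eq_mul] at h7
  constructor
  · nlinarith
  · nlinarith

/-- The leaks of all states but `u` replaced by `e`. -/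
noncomputable def epu (u : V) (e : ℝ) (l : V → ℝ) (v : V) : ℝ := if v = u then eps e l v else e

/-- The constant part of the choices of a row. -/
noncomputable def om (p : V → V → ℝ) (l : V → ℝ) (u v : V) (o : Option V) : ℝ :=
  (if v = u ∧ l v ≠ 0 ∧ o = none then l v else 1) * o.elim 1 (p v)

/-- The exponents. -/
noncomputable def al (l : V → ℝ) (u v : V) (o : Option V) : ℕ :=
  o.elim (if v = u ∧ l v ≠ 0 then 0 else 1) (fun _ => 0)

theorem wt_epu (p : V → V → ℝ) (l : V → ℝ) (u : V) (e : ℝ) (v : V) (o : Option V) :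
    wt p (epu u e l) v o = om p l u v o * e ^ al l u v o := by
  cases o with
  | none =>
    simp only [wt, om, al, epu, eps, Option.elim_none, and_true, mul_one]
    by_cases hv : v = u
    · by_cases hl : l v = 0
      · simp [hv, hv ▸ hl]
      · simp [hv, hv ▸ hl]
    · simp [hv]
  | some t => simp [wt, om, al]

/-- The product of the transitions of a choice. -/
def Qf (p : V → V → ℝ) (f : V → Option V) : ℝ := ∏ v, (f v).elim 1 (p v)

theorem prod_om (p : V → V → ℝ) (l : V → ℝ) (u : V) (f : V → Option V) :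
    ∏ v, om p l u v (f v) = (if l u ≠ 0 ∧ f u = none then l u else 1) * Qf p f := by
  unfold om Qf
  rw [prod_mul_distrib]
  congr 1
  rw [prod_eq_single u]
  · simp
  · intro v _ hv
    simp [hv]
  · intro h
    exact absurd (mem_univ u) h

/-- **The entries of the row vectors of a policy**: products of transitions, divided by products of
transitions, times or divided by one leak. -/
theorem main_est (p : V → V → ℝ) (l x d : V → ℝ) (D c : ℝ) (hp : ∀ v t, 0 ≤ p v t)
    (hl : ∀ v, 0 ≤ l v) (hdet : (Lm p l).det ≠ 0) (hx : x ᵥ* Lm p l = d) (hd1 : ∀ v, 1 ≤ d v)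
    (hd2 : ∀ v, d v ≤ D) (hc0 : 0 < c) (hc1 : c ≤ 1) (p' : V → V → ℝ) (l' : V → ℝ)
    (hH : ∀ v, (p' v = p v ∧ l' v = l v) ∨
      (p' v = 0 ∧ l' v = l v + ∑ t, p v t ∧ c * l' v ≤ l v)) (s : V) (hxs : 0 < x s) :
    ∃ (u : V) (f f' : V → Option V) (k k' : ℝ), (k = 1 ∨ 0 < l' u ∧ k = l' u) ∧
      (k' = 1 ∨ 0 < l' u ∧ k' = l' u) ∧ 0 < Qf p' f ∧ 0 < Qf p' f' ∧
      k' * Qf p' f' ≤ 2 * (Fintype.card V) *
        ((Fintype.card V + 1) ^ Fintype.card V * (Fintype.card V).factorial : ℕ) *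
          (x s * (k * Qf p' f)) ∧
      x s * (k * Qf p' f) ≤ 2 * (Fintype.card V * D) / c *
        ((Fintype.card V + 1) ^ Fintype.card V * (Fintype.card V).factorial : ℕ) *
          (k' * Qf p' f') := by
  obtain ⟨B, hB⟩ : ∃ B : ℕ, B = (Fintype.card V + 1) ^ Fintype.card V *
    (Fintype.card V).factorial := ⟨_, rfl⟩
  obtain ⟨n, hn⟩ : ∃ n : ℕ, n = Fintype.card V := ⟨_, rfl⟩
  rw [← hB, ← hn]
  have hB0 : 0 < B := by
    rw [hB]
    positivity
  have hBr : (0 : ℝ) < B := by exact_mod_cast hB0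
  have hn0 : 0 < n := by
    rw [hn]
    exact Fintype.card_pos_iff.2 ⟨s⟩
  have hnr : (0 : ℝ) < n := by exact_mod_cast hn0
  have hp' : ∀ v t, 0 ≤ p' v t := by
    intro v t
    rcases hH v with ⟨h1, -⟩ | ⟨h1, -⟩
    · rw [h1]; exact hp v t
    · rw [h1]; exact le_rfl
  have hl' : ∀ v, 0 ≤ l' v := by
    intro v
    rcases hH v with ⟨-, h1⟩ | ⟨-, h1, -⟩
    · rw [h1]; exact hl v
    · rw [h1]; exact add_nonneg (hl v) (sum_nonneg fun t _ => hp v t)
  have hH' : ∀ e v, (p' v = p v ∧ eps e l' v = eps e l v) ∨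
      (p' v = 0 ∧ eps e l' v = eps e l v + ∑ t, p v t ∧ c * eps e l' v ≤ eps e l v) := by
    intro e v
    rcases hH v with ⟨h1, h2⟩ | ⟨h1, h2, h3⟩
    · left
      refine ⟨h1, ?_⟩
      unfold eps
      rw [h2]
    · by_cases h0 : l v = 0
      · left
        have h4 : l' v = 0 := by
          have := hl' v
          rw [h0] at h3
          nlinarith
        have h5 : ∀ t ∈ univ, p v t = 0 :=
          (sum_eq_zero_iff_of_nonneg fun t _ => hp v t).1 (by rw [h4, h0, zero_add] at h2; exact h2.symm)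
        refine ⟨?_, ?_⟩
        · rw [h1]
          funext t
          exact (h5 t (mem_univ t)).symm
        · unfold eps
          rw [h4, h0]
      · right
        have h4 : 0 < l v := lt_of_le_of_ne (hl v) (Ne.symm h0)
        have h5 : l' v ≠ 0 := by
          rw [h2]
          exact ne_of_gt (add_pos_of_pos_of_nonneg h4 (sum_nonneg fun t _ => hp v t))
        unfold eps
        simp only [h0, h5, if_false, add_zero]
        exact ⟨h1, h2, h3⟩
  obtain ⟨δ0, hδ0, hrate⟩ := rate_bounds p l x d D hp hl hdet hx hd1 hd2 s hxs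
  -- the positive leaks are at least `δ1`
  obtain ⟨δ1, hδ1, hmin⟩ : ∃ δ1 : ℝ, 0 < δ1 ∧ ∀ v, l' v ≠ 0 → δ1 ≤ l' v := by
    haveI : Nonempty V := ⟨s⟩
    obtain ⟨w, hw⟩ := Finite.exists_min (eps 1 l')
    refine ⟨eps 1 l' w, eps_pos one_pos hl' w, fun v hv => ?_⟩
    have h1 := hw v
    have h2 : eps 1 l' v = l' v := by
      unfold eps
      simp [hv]
    rwa [h2] at h1
  have hD1 : 1 ≤ D := (hd1 s).trans (hd2 s)
  -- the choices
  have hstep : ∀ δ : ℝ, 0 < δ → ∃ e : ℝ, 0 < e ∧ e < δ ∧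
      ∃ y : V × (V → Option V) × (V → Option V),
        (0 < ∏ v, om p' l' y.1 v (y.2.1 v)) ∧
        (0 < ∏ v ∈ univ.erase s, om p' l' y.1 v (y.2.2 v)) ∧
        (∏ v ∈ univ.erase s, om p' l' y.1 v (y.2.2 v)) *
          e ^ (∑ v ∈ univ.erase s, al l' y.1 v (y.2.2 v)) ≤ 2 * n * B * x s *
            ((∏ v, om p' l' y.1 v (y.2.1 v)) * e ^ (∑ v, al l' y.1 v (y.2.1 v))) ∧
        (∏ v, om p' l' y.1 v (y.2.1 v)) * e ^ (∑ v, al l' y.1 v (y.2.1 v)) ≤
          (2 * (n * D) / c * B / x s) * ((∏ v ∈ univ.erase s, om p' l' y.1 v (y.2.2 v)) *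
          e ^ (∑ v ∈ univ.erase s, al l' y.1 v (y.2.2 v))) := by
    intro δ hδ
    obtain ⟨e, he⟩ : ∃ e : ℝ, e = min (min δ δ0) δ1 / 2 := ⟨_, rfl⟩
    have hm : 0 < min (min δ δ0) δ1 := lt_min (lt_min hδ hδ0) hδ1
    have he0 : 0 < e := by rw [he]; linarith
    have hem : e < min (min δ δ0) δ1 := by rw [he]; linarith
    have he1 : e < δ := hem.trans_le ((min_le_left _ _).trans (min_le_left _ _))
    have he2 : e < δ0 := hem.trans_le ((min_le_left _ _).trans (min_le_right _ _))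
    have he3 : e < δ1 := hem.trans_le (min_le_right _ _)
    refine ⟨e, he0, he1, ?_⟩
    have hel : ∀ v, 0 < eps e l v := eps_pos he0 hl
    have hel' : ∀ v, 0 < eps e l' v := eps_pos he0 hl'
    have heu : ∀ u v, 0 < epu u e l' v := by
      intro u v
      unfold epu
      split_ifs
      · exact hel' v
      · exact he0
    obtain ⟨q, E, hq⟩ := exists_hit hp hel s
    obtain ⟨q', E', hq'⟩ := exists_hit hp' hel' s
    choose qu Eu hqu using fun u => exists_hit hp' (heu u) s
    obtain ⟨r1, r2⟩ := hrate e he0 he2 q E hq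
    obtain ⟨r3, r4⟩ := hq.high hq' hp hel hc0 hc1 (hH' e)
    have hepsle : ∀ v, e ≤ eps e l' v := by
      intro v
      unfold eps
      by_cases h : l' v = 0
      · simp [h]
      · simp only [h, if_false, add_zero]
        exact he3.le.trans (hmin v h)
    have hle : ∀ u v, epu u e l' v ≤ eps e l' v := by
      intro u v
      unfold epu
      split_ifs
      · exact le_rfl
      · exact hepsle v
    have r5 : E' ≤ ∑ u, Eu u := by
      refine hq'.sum hqu hp' hel' heu hle fun v => ?_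
      have h1 : epu v e l' v ≤ ∑ u, epu u e l' v :=
        single_le_sum (f := fun u => epu u e l' v) (fun u _ => (heu u v).le) (mem_univ v)
      have h2 : epu v e l' v = eps e l' v := by simp [epu]
      rwa [h2] at h1
    obtain ⟨u, -, hu⟩ := exists_max_image univ Eu ⟨s, mem_univ s⟩
    have r6 : E' ≤ n * Eu u := by
      refine r5.trans ?_
      have h1 : ∑ u', Eu u' ≤ ∑ _u' : V, Eu u := sum_le_sum fun u' _ => hu u' (mem_univ u')
      rwa [sum_const, card_univ, nsmul_eq_mul, ← hn] at h1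
    have r7 : Eu u ≤ E' := (hqu u).mono hq' hp' (heu u) (hle u)
    have hE0 := hq.pos hp hel
    -- the determinants
    have hup : ∀ v t, 0 ≤ Function.update p' s 0 v t := by
      intro v t
      by_cases hv : v = s
      · subst hv; simp
      · simp [hv, hp' v t]
    have hul : ∀ v, 0 < Function.update (epu u e l') s 1 v := by
      intro v
      by_cases hv : v = s
      · subst hv; simp
      · simp [hv, heu u v]
    obtain ⟨f, f1, f2, f3⟩ := Lm_max p' (epu u e l') hp' (fun v => (heu u v).le)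
      (Lm_det_pos p' _ hp' (heu u))
    obtain ⟨f', f1', f2', f3'⟩ := Lm_max _ _ hup (fun v => (hul v).le) (Lm_det_pos _ _ hup hul)
    rw [← hB] at f3 f3'
    have hdE := (hqu u).det
    have g1 : ∏ v, wt p' (epu u e l') v (f v) =
        (∏ v, om p' l' u v (f v)) * e ^ (∑ v, al l' u v (f v)) := by
      rw [← prod_pow_eq_pow_sum, ← prod_mul_distrib]
      exact prod_congr rfl fun v _ => wt_epu p' l' u e v (f v)
    have g2 : ∏ v, wt (Function.update p' s 0) (Function.update (epu u e l') s 1) v (f' v) =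
        (∏ v ∈ univ.erase s, om p' l' u v (f' v)) *
          e ^ (∑ v ∈ univ.erase s, al l' u v (f' v)) := by
      have h0 : wt (Function.update p' s 0) (Function.update (epu u e l') s 1) s (f' s) = 1 := by
        have h1 : 0 < wt (Function.update p' s 0) (Function.update (epu u e l') s 1) s (f' s) := by
          have h2 := prod_ne_zero_iff.1 (ne_of_gt f1') s (mem_univ s)
          refine lt_of_le_of_ne ?_ (Ne.symm h2)
          cases f' s with
          | none => simp [wt]
          | some t => simp [wt]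
        cases hfs : f' s with
        | none => simp [wt]
        | some t =>
          rw [hfs] at h1
          simp [wt] at h1
      rw [← mul_prod_erase univ _ (mem_univ s), h0, one_mul, ← prod_pow_eq_pow_sum,
        ← prod_mul_distrib]
      refine prod_congr rfl fun v hv => ?_
      have hvs := ne_of_mem_erase hv
      rw [← wt_epu p' l' u e v (f' v)]
      simp [wt, hvs]
    rw [g1] at f1 f2 f3
    rw [g2] at f1' f2' f3'
    refine ⟨(u, f, f'), ?_, ?_, ?_, ?_⟩
    · exact pos_of_mul_pos_left f1 (by positivity)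
    · exact pos_of_mul_pos_left f1' (by positivity)
    · -- lower bound of the rate
      have h1 : 1 ≤ 2 * n * x s * Eu u := by
        have h2 : x s * E ≤ x s * (n * Eu u) :=
          mul_le_mul_of_nonneg_left (r4.trans r6) hxs.le
        nlinarith
      have h2 := (hqu u).pos hp' (heu u)
      obtain ⟨Z, hZ⟩ : ∃ Z, Z = (Lm (Function.update p' s 0)
        (Function.update (epu u e l') s 1)).det := ⟨_, rfl⟩
      rw [← hZ] at f2' f3' hdE
      have hZ0 : 0 < Z := lt_of_lt_of_le f1' f2'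
      calc _ ≤ Z := f2'
        _ ≤ (2 * n * x s * Eu u) * Z := le_mul_of_one_le_left hZ0.le h1
        _ = 2 * n * x s * (Eu u * Z) := by ring
        _ ≤ 2 * n * x s * (B * ((∏ v, om p' l' u v (f v)) * e ^ (∑ v, al l' u v (f v)))) := by
          rw [← hdE]
          exact mul_le_mul_of_nonneg_left f3 (by positivity)
        _ = _ := by ring
    · have h1 : Eu u ≤ 2 * (n * D) / c / x s := by
        rw [le_div_iff₀ hxs, le_div_iff₀ hc0]
        have h2 : c * Eu u ≤ E := (mul_le_mul_of_nonneg_left r7 hc0.le).trans r3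
        have h3 : x s * (c * Eu u) ≤ x s * E := mul_le_mul_of_nonneg_left h2 hxs.le
        rw [← hn] at r2
        nlinarith
      have h2 := (hqu u).pos hp' (heu u)
      obtain ⟨Z, hZ⟩ : ∃ Z, Z = (Lm (Function.update p' s 0)
        (Function.update (epu u e l') s 1)).det := ⟨_, rfl⟩
      rw [← hZ] at f2' f3' hdE
      have hZ0 : 0 < Z := lt_of_lt_of_le f1' f2'
      calc _ ≤ (Lm p' (epu u e l')).det := f2
        _ = Eu u * Z := hdE
        _ ≤ (2 * (n * D) / c / x s) * (B * ((∏ v ∈ univ.erase s, om p' l' u v (f' v)) *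
            e ^ (∑ v ∈ univ.erase s, al l' u v (f' v)))) := by
          exact mul_le_mul h1 f3' hZ0.le (h2.le.trans h1)
        _ = _ := by ring
  obtain ⟨⟨u, f, f'⟩, hy⟩ := freq_choice hstep
  obtain ⟨e0, -, -, g1, g2, -⟩ := hy 1 one_pos
  simp only at g1 g2 hy
  obtain ⟨h1, h2⟩ := two_pow g1 g2 (K1 := 2 * n * B * x s) (K2 := 2 * (n * D) / c * B / x s)
    (by positivity) (by positivity) fun δ hδ => by
      obtain ⟨e, he, he2, -, -, h3, h4⟩ := hy δ hδ
      exact ⟨e, he, he2, h3, h4⟩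
  -- the choice at `s` does not matter
  obtain ⟨fs, hfs⟩ : ∃ fs, fs = Function.update f' s none := ⟨_, rfl⟩
  have hQs : ∏ v ∈ univ.erase s, om p' l' u v (f' v) =
      (if u ≠ s ∧ l' u ≠ 0 ∧ fs u = none then l' u else 1) * Qf p' fs := by
    have h3 : Qf p' fs = ∏ v ∈ univ.erase s, (f' v).elim 1 (p' v) := by
      unfold Qf
      rw [← mul_prod_erase univ _ (mem_univ s)]
      have h4 : (fs s).elim 1 (p' s) = 1 := by
        rw [hfs]
        simp
      rw [h4, one_mul]
      refine prod_congr rfl fun v hv => ?_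
      rw [hfs, Function.update_of_ne (ne_of_mem_erase hv)]
    rw [h3]
    unfold om
    rw [prod_mul_distrib]
    congr 1
    by_cases hus : u = s
    · rw [prod_eq_one]
      · simp [hus]
      · intro v hv
        have h4 := ne_of_mem_erase hv
        simp [hus, h4]
    · rw [prod_eq_single_of_mem u (mem_erase.2 ⟨hus, mem_univ u⟩)]
      · rw [hfs]
        simp [hus]
      · intro v _ hv
        simp [hv]
  rw [prod_om] at h1 h2 g1
  rw [hQs] at h1 h2 g2
  obtain ⟨k, hk⟩ : ∃ k : ℝ, k = if l' u ≠ 0 ∧ f u = none then l' u else 1 := ⟨_, rfl⟩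
  obtain ⟨k', hk'⟩ : ∃ k' : ℝ, k' = if u ≠ s ∧ l' u ≠ 0 ∧ fs u = none then l' u else 1 :=
    ⟨_, rfl⟩
  rw [← hk] at h1 h2 g1
  rw [← hk'] at h1 h2 g2
  have hkc : k = 1 ∨ 0 < l' u ∧ k = l' u := by
    rw [hk]
    by_cases h : l' u ≠ 0 ∧ f u = none
    · right
      rw [if_pos h]
      exact ⟨lt_of_le_of_ne (hl' u) (Ne.symm h.1), rfl⟩
    · left
      rw [if_neg h]
  have hkc' : k' = 1 ∨ 0 < l' u ∧ k' = l' u := by
    rw [hk']
    by_cases h : u ≠ s ∧ l' u ≠ 0 ∧ fs u = none
    · right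
      rw [if_pos h]
      exact ⟨lt_of_le_of_ne (hl' u) (Ne.symm h.2.1), rfl⟩
    · left
      rw [if_neg h]
  have hk0 : 0 < k := by
    rcases hkc with h | ⟨h, h3⟩
    · rw [h]; norm_num
    · rw [h3]; exact h
  have hk0' : 0 < k' := by
    rcases hkc' with h | ⟨h, h3⟩
    · rw [h]; norm_num
    · rw [h3]; exact h
  refine ⟨u, f, fs, k, k', hkc, hkc', pos_of_mul_pos_right g1 hk0.le, pos_of_mul_pos_right g2 hk0'.le, ?_, ?_⟩
  · calc k' * Qf p' fs ≤ 2 * n * B * x s * (k * Qf p' f) := h1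
      _ = _ := by ring
  · calc x s * (k * Qf p' f) ≤ x s * (2 * (n * D) / c * B / x s * (k' * Qf p' fs)) :=
          mul_le_mul_of_nonneg_left h2 hxs.le
      _ = _ := by
        have := hxs.ne'
        field_simp

end

end Pool.Agent.V8H41.MD
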