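import Pool.Agent.V8H41.MD.MkE

/-!
# Systems all whose entries have few orders of magnitude
-/

set_option autoImplicit false

namespace Pool.Agent.V8H41.MD

open Finset Matrix

/-- A positive multiple of `(∑ t, p t + l) e_h - p` or of `- p`, with `p, l ≥ 0`, all whose nonzero
numbers `p t`, `l` are, up to a factor `2 ^ R`, in `T`. -/
def FewRow (R : ℕ) (T : Set ℝ) {V : Type} [Fintype V] [DecidableEq V] (a : V → ℝ) : Prop :=
  ∃ (lam : ℝ) (p : V → ℝ) (l : ℝ), 0 < lam ∧
    (∀ t, p t = 0 ∨ ∃ τ ∈ T, τ ≤ p t ∧ p t ≤ 2 ^ R * τ) ∧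
    (l = 0 ∨ ∃ τ ∈ T, τ ≤ l ∧ l ≤ 2 ^ R * τ) ∧
    ((∃ h, ∀ v, a v = lam * ((if v = h then ∑ t, p t + l else 0) - p v)) ∨
      ∀ v, a v = lam * - p v)

theorem FewRow.mono {R R' : ℕ} (h : R ≤ R') {T : Set ℝ} (hT : ∀ τ ∈ T, 0 < τ) {V : Type}
    [Fintype V] [DecidableEq V] {a : V → ℝ} (ha : FewRow R T a) : FewRow R' T a := by
  obtain ⟨lam, p, l, h1, h2, h3, h4⟩ := ha
  have h6 : (2 : ℝ) ^ R ≤ 2 ^ R' := pow_le_pow_right₀ (by norm_num) h
  refine ⟨lam, p, l, h1, fun t => ?_, ?_, h4⟩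
  · rcases h2 t with h7 | ⟨τ, hτ, h7, h8⟩
    · exact Or.inl h7
    · exact Or.inr ⟨τ, hτ, h7, h8.trans (mul_le_mul_of_nonneg_right h6 (hT τ hτ).le)⟩
  · rcases h3 with h7 | ⟨τ, hτ, h7, h8⟩
    · exact Or.inl h7
    · exact Or.inr ⟨τ, hτ, h7, h8.trans (mul_le_mul_of_nonneg_right h6 (hT τ hτ).le)⟩

section
variable {ι V : Type} [Fintype ι] [Fintype V] [DecidableEq V]

/-- The matrix with one more column, such that the rows have sum `0`. -/
def aug (N : Matrix ι V ℝ) : Matrix ι (Option V) ℝ :=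
  Matrix.of fun i v => v.elim (- ∑ w, N i w) (N i)

theorem aug_ker (N : Matrix ι V ℝ) (D : ι → ℝ) : D ᵥ* aug N = 0 ↔ D ᵥ* N = 0 := by
  constructor
  · intro h
    funext v
    exact congrFun h (some v)
  · intro h
    funext v
    cases v with
    | some v => exact congrFun h v
    | none =>
      have h1 : (D ᵥ* aug N) none = - ∑ w, (D ᵥ* N) w := by
        simp only [Matrix.vecMul, dotProduct, aug, Matrix.of_apply, Option.elim_none]
        rw [sum_comm, ← sum_neg_distrib]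
        refine sum_congr rfl fun i _ => ?_
        rw [← mul_sum]
        ring
      rw [h1, h]
      simp

theorem NCirc.aug {N : Matrix ι V ℝ} {C : ι → ℝ} (hC : NCirc N C) : NCirc (aug N) C :=
  ⟨hC.1, hC.2.1, (aug_ker N C).2 hC.2.2.1, fun D hD => hC.2.2.2 D ((aug_ker N D).1 hD)⟩

/-- **The scales of the nonnegative circuits**, if all numbers have few orders of magnitude. -/
theorem few_rows_scales {R : ℕ} {T : Set ℝ} (hT : FewProducts R (Fintype.card V + 1) T)
    {N : Matrix ι V ℝ} (hN : ∀ i, FewRow R T (N i)) :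
    NScales (R * R + 2 * wex (Fintype.card V + 1) R) N := by
  classical
  obtain ⟨hT0, S0, hS0c, hS0p, hS0⟩ := hT
  obtain ⟨n, hn⟩ : ∃ n, n = Fintype.card V + 1 := ⟨_, rfl⟩
  have hrow : ∀ i, ∃ (lam : ℝ) (h : Option V) (q : Option V → ℝ), 0 < lam ∧ (∀ t, 0 ≤ q t) ∧
      (∀ t, q t = 0 ∨ ∃ τ ∈ T, τ ≤ q t ∧ q t ≤ 2 ^ R * τ) ∧
      ∀ v, N i v = lam * ((if some v = h then ∑ t, q t else 0) - q (some v)) := by
    intro i
    have hnn : ∀ x : ℝ, (x = 0 ∨ ∃ τ ∈ T, τ ≤ x ∧ x ≤ 2 ^ R * τ) → 0 ≤ x := by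
      rintro x (h | ⟨τ, h1, h2, -⟩)
      · exact h.ge
      · exact (hT0 τ h1).le.trans h2
    obtain ⟨lam, p, l, h1, h2, h3, h4⟩ := hN i
    rcases h4 with ⟨h, h4⟩ | h4
    · refine ⟨lam, some h, fun o => o.elim l p, h1, ?_, ?_, fun v => ?_⟩
      · intro t
        cases t with
        | none => exact hnn _ h3
        | some t => exact hnn _ (h2 t)
      · intro t
        cases t with
        | none => exact h3
        | some t => exact h2 t
      · rw [h4 v, Fintype.sum_option]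
        simp only [Option.elim_none, Option.elim_some, Option.some_inj]
        rw [add_comm l]
    · refine ⟨lam, none, fun o => o.elim 0 p, h1, ?_, ?_, fun v => ?_⟩
      · intro t
        cases t with
        | none => exact le_rfl
        | some t => exact hnn _ (h2 t)
      · intro t
        cases t with
        | none => exact Or.inl rfl
        | some t => exact h2 t
      · rw [h4 v]
        simp
  choose lam h q r1 r2 r3 r4 using hrow
  obtain ⟨N', hN'⟩ : ∃ N' : Matrix ι V ℝ, N' = fun i v =>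
      (if some v = h i then ∑ t, q i t else 0) - q i (some v) := ⟨_, rfl⟩
  suffices hmain : NScales (R * R + 2 * wex (Fintype.card V + 1) R) N' by
    refine NScales.scale (Equiv.refl ι) lam r1 (fun i v => ?_) hmain
    rw [hN', r4 i v]
    rfl
  have hSys : Sys (aug N') (fun _ => False) h q (fun _ => 0) (fun _ _ => 1) := by
    refine ⟨r2, fun _ => le_rfl, fun _ _ hf => hf.elim, fun _ _ hf => hf.elim, fun i v _ => ?_⟩
    cases v with
    | some v =>
      simp only [MD.aug, Matrix.of_apply, Option.elim_some, hN', add_zero]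
    | none =>
      simp only [MD.aug, Matrix.of_apply, Option.elim_none, hN', add_zero]
      rw [sum_sub_distrib]
      have h1 : ∑ v : V, (if some v = h i then ∑ t, q i t else 0) =
          if none = h i then 0 else ∑ t, q i t := by
        cases h i with
        | none => simp
        | some w => simp
      rw [h1, Fintype.sum_option]
      split_ifs <;> ring
  have hcard : Fintype.card (Option V) = n := by rw [Fintype.card_option, hn]
  rw [← hn]
  obtain ⟨w, hw⟩ : ∃ w, w = wex n R := ⟨_, rfl⟩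
  rw [← hw]
  obtain ⟨B, hB⟩ : ∃ B : ℕ, B = (Fintype.card (Option V) + 1) ^ Fintype.card (Option V) *
    (Fintype.card (Option V)).factorial := ⟨_, rfl⟩
  have hBb : B ≤ 2 ^ (2 * (n * n)) := by rw [hB, hcard]; exact fac_bound _
  have hBr : (B : ℝ) ≤ 2 ^ (2 * (n * n)) := by exact_mod_cast hBb
  have hfp : ∀ g : Option V → ℝ, (∀ w, g w = 1 ∨ ∃ τ ∈ T, τ ≤ g w ∧ g w ≤ 2 ^ R * τ) →
      ∃ s ∈ S0, s ≤ ∏ w, g w ∧ ∏ w, g w ≤ 2 ^ (R * (n + 1)) * s := by
    intro g hg
    rw [← hcard]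
    refine fp_prod hT0 ?_ g hg
    rw [hcard, hn]
    exact hS0
  refine NScales.of_common S0 w _ hS0p ?_
    ((Nat.mul_le_mul hS0c hS0c).trans (Nat.le_add_right _ _)) (Nat.le_add_left _ _)
  intro C hC
  obtain ⟨-, μ, hμ, g2⟩ := hSys.circ_zero hC.aug fun i _ hf => hf
  refine ⟨μ, hμ, fun i hi => ?_⟩
  obtain ⟨g, g3, g4, g5, g6⟩ := g2 i hi
  rw [← hB] at g6
  obtain ⟨s, hs, a1, a2⟩ := hfp g fun v => by
    rcases g3 v with h1 | ⟨j, t, h1, h2⟩
    · exact Or.inl h1
    · have h3 := prod_ne_zero_iff.1 (ne_of_gt g4) v (mem_univ v)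
      right
      rw [h2] at h3 ⊢
      rcases r3 j t with h7 | h7
      · exact absurd h7 h3
      · exact h7
  refine ⟨s, hs, a1.trans g5, ?_⟩
  have hs0 := hS0p s hs
  calc μ * C i ≤ B * ∏ v, g v := g6
    _ ≤ 2 ^ (2 * (n * n)) * (2 ^ (R * (n + 1)) * s) :=
        mul_le_mul hBr a2 g4.le (by positivity)
    _ = 2 ^ (2 * (n * n) + R * (n + 1)) * s := by rw [pow_add]; ring
    _ ≤ 2 ^ w * s := by
        refine mul_le_mul_of_nonneg_right (pow_le_pow_right₀ (by norm_num) ?_) hs0.le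
        rw [hw, wex]
        omega

end

end Pool.Agent.V8H41.MD
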