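import Pool.Agent.V8H41.MD.Main
import Pool.Agent.V8H41.MD.MkL

/-!
# Classes of matrices with few scales
-/

set_option autoImplicit false

namespace Pool.Agent.V8H41.MD

open Finset Matrix Pool.Agent.H558R2 Pool.Agent.H622R3.SM Pool.Agent.Y648.CS

theorem run_succ {O : Set (List Bool)} {α : List Outcome → List Instr × Test} :
    ∀ (k : ℕ) (h : List Outcome) (ρ : Reg → ℝ) (x : Bool × List ℝ × ℕ),
      run O α k h ρ = some x → run O α (k + 1) h ρ = some x := by
  intro k
  induction k with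
  | zero =>
    intro h ρ x hx
    simp [run] at hx
  | succ k ih =>
    intro h ρ x hx
    rw [run] at hx ⊢
    cases he : exec (α h).1 ρ with
    | none => rw [he] at hx; simp at hx
    | some r =>
      rw [he] at hx
      simp only [Option.bind_some] at hx ⊢
      cases ht : (α h).2 with
      | answer a =>
        rw [ht] at hx
        exact hx
      | sign y =>
        rw [ht] at hx
        simp only [Option.map_eq_some_iff] at hx ⊢
        obtain ⟨q, hq, rfl⟩ := hx
        exact ⟨q, ih _ _ _ hq, rfl⟩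
      | ask w =>
        rw [ht] at hx
        simp only [Option.map_eq_some_iff] at hx ⊢
        obtain ⟨q, hq, rfl⟩ := hx
        exact ⟨q, ih _ _ _ hq, rfl⟩

theorem run_mono {O : Set (List Bool)} {α : List Outcome → List Instr × Test} {k k' : ℕ}
    (hk : k ≤ k') {h : List Outcome} {ρ : Reg → ℝ} {x : Bool × List ℝ × ℕ}
    (hx : run O α k h ρ = some x) : run O α k' h ρ = some x := by
  induction hk with
  | refl => exact hx
  | step _ ih => exact run_succ _ _ _ _ ih

/-- Classes of matrices with few scales. -/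
theorem class_alg (Cl : ∀ {m n : ℕ}, ℕ → Matrix (Fin m) (Fin n) ℝ → Prop)
    (hCl : ∃ q : Polynomial ℕ, ∀ (m n : ℕ), 1 ≤ m → 1 ≤ n → ∀ (A : Matrix (Fin m) (Fin n) ℝ)
      (R : ℕ), Cl R A → NScales (q.eval (m + n + R)) (ext A)) :
    ∃ p : Polynomial ℕ, ∀ m n : ℕ, 1 ≤ m → 1 ≤ n →
      ∀ (A : Matrix (Fin m) (Fin n) ℝ) (b : Fin m → ℝ) (R : ℕ), Cl R A →
      ∃ ans nums steps,
        run ∅ (algX m n) (p.eval (m + n + R)) [] (start A b) = some (ans, nums, steps) ∧
        (ans = true ↔ ∃ x : Fin n → ℝ, b ≤ A.mulVec x) ∧ steps ≤ p.eval (m + n + R) ∧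
        ∀ (A' : Matrix (Fin m) (Fin n) ℚ) (b' : Fin m → ℚ), (∀ i j, ((A' i j : ℚ) : ℝ) = A i j) →
          (∀ i, ((b' i : ℚ) : ℝ) = b i) →
          ∀ v ∈ nums, ∃ q : ℚ, (q : ℝ) = v ∧ bitLength q ≤ p.eval (inputLength A' b' + R) := by
  obtain ⟨q, hq⟩ := hCl
  obtain ⟨-, -, p, hp⟩ := mainX
  refine ⟨p.comp (Polynomial.X + q), fun m n hm hn A b R hA => ?_⟩
  obtain ⟨ans, nums, steps, h1, h2, h3, h4⟩ := hp m n hm hn A b _ (hq m n hm hn A R hA)
  have hle : p.eval (m + n + q.eval (m + n + R)) ≤ (p.comp (Polynomial.X + q)).eval (m + n + R) := by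
    rw [Polynomial.eval_comp]
    refine pe_mono p ?_
    simp only [Polynomial.eval_add, Polynomial.eval_X]
    omega
  refine ⟨ans, nums, steps, run_mono hle h1, h2, h3.trans hle, fun A' b' hA' hb' v hv => ?_⟩
  obtain ⟨x, hx, hx2⟩ := h4 A' b' hA' hb' v hv
  refine ⟨x, hx, hx2.trans ?_⟩
  rw [Polynomial.eval_comp]
  refine pe_mono p ?_
  simp only [Polynomial.eval_add, Polynomial.eval_X]
  have h5 := Pool.Agent.Y648.CS.FL.le_inputLength hm A' b'
  have h6 : q.eval (m + n + R) ≤ q.eval (inputLength A' b' + R) := pe_mono q (by omega)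
  omega

theorem FewProducts.insert {R n : ℕ} {T : Set ℝ} (hT : FewProducts R n T) :
    FewProducts R n (insert 1 T) := by
  obtain ⟨h0, S, h1, h2, h3⟩ := hT
  refine ⟨fun τ hτ => ?_, S, h1, h2, fun f hf => h3 f fun i => ?_⟩
  · rcases hτ with rfl | hτ
    · norm_num
    · exact h0 τ hτ
  · rcases hf i with h | h | h
    · exact Or.inl h
    · exact Or.inl h
    · exact Or.inr h

/-- Fewer factors. -/
theorem FewProducts.less {R n : ℕ} {T : Set ℝ} (hT : FewProducts R (n + 1) T) :
    FewProducts R n T := by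
  obtain ⟨h0, S, h1, h2, h3⟩ := hT
  refine ⟨h0, S, h1, h2, fun f hf => ?_⟩
  obtain ⟨s, hs, h4, h5⟩ := h3 (Fin.cons 1 f) fun i => by
    refine Fin.cases (Or.inl rfl) (fun i => ?_) i
    exact hf i
  rw [Fin.prod_univ_succ] at h4 h5
  simp only [Fin.cons_zero, Fin.cons_succ, one_mul] at h4 h5
  exact ⟨s, hs, h4, h5⟩

/-- The extended matrix, if all numbers have few orders of magnitude. -/
theorem few_ext {m n R : ℕ} {T : Set ℝ} (hT : FewProducts R (n + 1) T)
    {A : Matrix (Fin m) (Fin n) ℝ} (hA : ∀ i, FewRow R T (A i)) :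
    NScales (R * R + 2 * wex (n + 1) R) (ext A) := by
  have hone : (1 : ℝ) ≤ 2 ^ R := one_le_pow₀ (by norm_num)
  have h1 := few_rows_scales (ι := Fin m ⊕ (Fin n ⊕ Unit)) (V := Fin n) (R := R)
    (T := Insert.insert 1 T) (N := ext A)
    (by rw [Fintype.card_fin]; exact hT.insert) (by
      intro i
      rcases i with i | i | i
      · obtain ⟨lam, p, l, r1, r2, r3, r4⟩ := hA i
        refine ⟨lam, p, l, r1, fun t => ?_, ?_, r4⟩
        · rcases r2 t with h | ⟨τ, hτ, h⟩
          · exact Or.inl h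
          · exact Or.inr ⟨τ, Or.inr hτ, h⟩
        · rcases r3 with h | ⟨τ, hτ, h⟩
          · exact Or.inl h
          · exact Or.inr ⟨τ, Or.inr hτ, h⟩
      · refine ⟨1, 0, 1, one_pos, fun _ => Or.inl rfl,
          Or.inr ⟨1, Or.inl rfl, le_rfl, by rw [mul_one]; exact hone⟩, Or.inl ⟨i, fun v => ?_⟩⟩
        simp only [ext, fromRows_apply_inr, fromRows_apply_inl, Pi.zero_apply, sum_const_zero,
          zero_add, sub_zero, one_mul, Matrix.one_apply]
        by_cases h : i = v
        · simp [h]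
        · simp [h, Ne.symm h]
      · refine ⟨1, fun _ => 1, 0, one_pos,
          fun _ => Or.inr ⟨1, Or.inl rfl, le_rfl, by rw [mul_one]; exact hone⟩, Or.inl rfl,
          Or.inr fun v => ?_⟩
        simp only [ext, fromRows_apply_inr, Matrix.of_apply, one_mul])
  simpa using h1

/-- Markov decision processes. -/
def Markov (R : ℕ) {m n : ℕ} (A : Matrix (Fin m) (Fin n) ℝ) : Prop :=
  ∃ T : Set ℝ, FewProducts R (n + 1) T ∧
    ((∀ i, StateRow R T (A i) ∨ SourceRow R (A i)) ∨ ∀ i, FewRow R T (A i))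

theorem markov_scales : ∃ q : Polynomial ℕ, ∀ (m n : ℕ), 1 ≤ m → 1 ≤ n →
    ∀ (A : Matrix (Fin m) (Fin n) ℝ) (R : ℕ), (Markov R A ∨ 2 ^ (m + n + 1) ≤ R) →
      NScales (q.eval (m + n + R)) (ext A) := by
  obtain ⟨q, hq⟩ := bnd_poly
  refine ⟨q + (Polynomial.X * Polynomial.X + 2 * ((2 + (Polynomial.X + 1) + 2 * Polynomial.X +
      2 * ((Polynomial.X + 1) * (Polynomial.X + 1))) + Polynomial.X * (Polynomial.X + 1 + 1))) +
      Polynomial.X, fun m n hm hn A R hA => ?_⟩
  simp only [Polynomial.eval_add, Polynomial.eval_mul, Polynomial.eval_X, Polynomial.eval_one,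
    Polynomial.eval_ofNat]
  rcases hA with ⟨T, hT, hA | hA⟩ | hA
  · refine (mdp_ext hn hT.less hA).mono ((hq m n R).trans ?_)
    omega
  · refine (few_ext hT hA).mono ?_
    have h2 : R ≤ m + n + R := by omega
    have h3 : n ≤ m + n + R := by omega
    have h4 : R * R + 2 * wex (n + 1) R ≤ (m + n + R) * (m + n + R) +
        2 * (2 + (m + n + R + 1) + 2 * (m + n + R) + 2 * ((m + n + R + 1) * (m + n + R + 1)) +
          (m + n + R) * (m + n + R + 1 + 1)) := by
      unfold wex
      gcongr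
    omega
  · refine (NScales.tot (ext A)).mono ?_
    have h1 : Fintype.card (Fin m ⊕ (Fin n ⊕ Unit)) = m + n + 1 := by
      simp [add_assoc]
    rw [h1]
    omega

/-- Markov decision processes: the actions have discount factors at most `1 - 1 / 2 ^ R`, or
transition probabilities with few orders of magnitude. -/
theorem mdp_markov' {m n k R : ℕ} (δ : Fin k → ℝ) (hδ : ∀ j, 0 < δ j) (h : Fin m → Fin n)
    (P : Matrix (Fin m) (Fin n) ℝ) (γ : Fin m → ℝ) (d : Fin n → ℝ)
    (hP0 : ∀ i t, 0 ≤ P i t) (hP1 : ∀ i, ∑ t, P i t ≤ 1) (hγ : ∀ i, 0 ≤ γ i ∧ γ i ≤ 1)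
    (hP : ∀ i, γ i ≤ 1 - 1 / 2 ^ R ∨ ∀ t, P i t = 0 ∨ ∃ j, δ j ≤ P i t ∧ P i t ≤ 2 ^ R * δ j)
    (hd : ∀ v, 1 ≤ d v ∧ d v ≤ 2 ^ R) :
    Markov ((n + 2) ^ k + R) (mdpMatrix h P γ d) := by
  obtain ⟨T, hT⟩ : ∃ T : Set ℝ, T = Set.range δ := ⟨_, rfl⟩
  have hT0 : ∀ τ ∈ T, 0 < τ := by
    intro τ hτ
    rw [hT] at hτ
    obtain ⟨j, rfl⟩ := hτ
    exact hδ j
  have hone : (1 : ℝ) ≤ 2 ^ R := one_le_pow₀ (by norm_num)
  refine ⟨T, ?_, Or.inl ?_⟩
  · have h1 := few_scales (n + 1) k 0 δ hδ T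
      (fun τ hτ => by
        rw [hT] at hτ
        obtain ⟨j, rfl⟩ := hτ
        exact ⟨j, le_rfl, by simp⟩)
    refine h1.mono ?_
    simp only [mul_zero, add_zero, add_assoc]
    exact Nat.le_add_right _ _
  · intro i
    refine Fin.lastCases ?_ (fun i => ?_) i
    · right
      refine SourceRow.mono (R := R) (by omega) ⟨1, one_pos, fun v => ?_⟩
      simp only [mdpMatrix, Matrix.of_apply, Fin.snoc_last, neg_neg, mul_one]
      exact hd v
    · left
      have hs : ∑ t, γ i * P i t ≤ γ i := by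
        rw [← mul_sum]
        exact mul_le_of_le_one_right (hγ i).1 (hP1 i)
      by_cases hg : γ i ≤ 1 - 1 / 2 ^ R
      · refine StateRow.mono (R := R) (by omega) hT0 ⟨1, h i, fun t => γ i * P i t,
          1 - ∑ t, γ i * P i t, one_pos, fun t => mul_nonneg (hγ i).1 (hP0 i t),
          sub_nonneg.2 (hs.trans (hγ i).2), fun v => ?_, Or.inr ?_⟩
        · simp only [mdpMatrix, Matrix.of_apply, Fin.snoc_castSucc]
          simp
        · have h2 : 1 / 2 ^ R ≤ 1 - ∑ t, γ i * P i t := by linarith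
          rw [div_le_iff₀ (by positivity), mul_comm] at h2
          exact (hs.trans (hγ i).2).trans h2
      · have hg0 : 0 < γ i := by
          push Not at hg
          refine lt_of_le_of_lt ?_ hg
          rw [sub_nonneg, div_le_one (by positivity)]
          exact hone
        have hPi := (hP i).resolve_left hg
        have h6 : ∑ t, P i t ≤ 1 / γ i := by
          rw [le_div_iff₀ hg0, mul_comm, mul_sum]
          exact hs.trans (hγ i).2
        refine StateRow.mono (R := R) (by omega) hT0 ⟨γ i, h i, fun t => P i t,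
          1 / γ i - ∑ t, P i t, hg0, fun t => hP0 i t, sub_nonneg.2 h6, fun v => ?_, Or.inl ?_⟩
        · simp only [mdpMatrix, Matrix.of_apply, Fin.snoc_castSucc, add_sub_cancel]
          by_cases hv : v = h i
          · simp only [hv, if_true]
            field_simp
          · simp only [hv, if_false]
            ring
        · intro t
          rcases hPi t with h1 | ⟨j, h1, h3⟩
          · exact Or.inl h1
          · exact Or.inr ⟨δ j, by rw [hT]; exact ⟨j, rfl⟩, h1, h3⟩

end Pool.Agent.V8H41.MD
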