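import Pool.Agent.V8H41.MD.MkC

/-!
# The scales of the nonnegative circuits of Markov decision processes
-/

set_option autoImplicit false

namespace Pool.Agent.V8H41.MD

open Finset Matrix

/-- The products of at most `n` elements of `T` lie in at most `R` intervals `[s, 2 ^ R s]`. -/
def FewProducts (R n : ℕ) (T : Set ℝ) : Prop :=
  (∀ τ ∈ T, 0 < τ) ∧ ∃ S : Finset ℝ, S.card ≤ R ∧ (∀ s ∈ S, 0 < s) ∧
    ∀ f : Fin n → ℝ, (∀ i, f i = 1 ∨ f i ∈ T) → ∃ s ∈ S, s ≤ ∏ i, f i ∧ ∏ i, f i ≤ 2 ^ R * s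

/-- A positive multiple of `(∑ t, p t + l) e_h - p`, with `p, l ≥ 0`, where every nonzero `p t` is,
up to a factor `2 ^ R`, in `T`, or where `∑ t, p t ≤ 2 ^ R l`. -/
def StateRow (R : ℕ) (T : Set ℝ) {V : Type} [Fintype V] [DecidableEq V] (a : V → ℝ) : Prop :=
  ∃ (lam : ℝ) (h : V) (p : V → ℝ) (l : ℝ), 0 < lam ∧ (∀ t, 0 ≤ p t) ∧ 0 ≤ l ∧
    (∀ v, a v = lam * ((if v = h then ∑ t, p t + l else 0) - p v)) ∧
    ((∀ t, p t = 0 ∨ ∃ τ ∈ T, τ ≤ p t ∧ p t ≤ 2 ^ R * τ) ∨ ∑ t, p t ≤ 2 ^ R * l)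

/-- A negative vector, whose entries have ratios at most `2 ^ R`. -/
def SourceRow (R : ℕ) {V : Type} (a : V → ℝ) : Prop :=
  ∃ lam : ℝ, 0 < lam ∧ ∀ v, lam ≤ - a v ∧ - a v ≤ 2 ^ R * lam

/-- Circuits with the same scales of the coordinates. -/
theorem NScales.of_common {ι κ : Type} [Fintype ι] {N : Matrix ι κ ℝ} (S : Finset ℝ) (ρ r : ℕ)
    (hS : ∀ s ∈ S, 0 < s)
    (h : ∀ C, NCirc N C → ∃ μ : ℝ, 0 < μ ∧ ∀ i, C i ≠ 0 →
      ∃ s ∈ S, s ≤ μ * C i ∧ μ * C i ≤ 2 ^ ρ * s)
    (h1 : S.card * S.card ≤ r) (h2 : 2 * ρ ≤ r) : NScales r N := by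
  classical
  intro i j
  refine ⟨(S ×ˢ S).image fun y => y.1 / (2 ^ ρ * y.2), ?_, ?_, ?_⟩
  · refine Finset.card_image_le.trans ?_
    rw [Finset.card_product]
    exact h1
  · intro s hs
    obtain ⟨y, hy, rfl⟩ := Finset.mem_image.1 hs
    rw [Finset.mem_product] at hy
    have := hS _ hy.1
    have := hS _ hy.2
    positivity
  · intro C hC hi hj
    obtain ⟨μ, hμ, h3⟩ := h C hC
    obtain ⟨s, hs, s1, s2⟩ := h3 i hi
    obtain ⟨t, ht, t1, t2⟩ := h3 j hj
    have hs0 := hS s hs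
    have ht0 := hS t ht
    have hCj : 0 < μ * C j := lt_of_lt_of_le ht0 t1
    have hCi : 0 < μ * C i := lt_of_lt_of_le hs0 s1
    have he : C i / C j = (μ * C i) / (μ * C j) := by
      rw [mul_div_mul_left _ _ hμ.ne']
    refine ⟨s / (2 ^ ρ * t), Finset.mem_image.2 ⟨(s, t), Finset.mk_mem_product hs ht, rfl⟩, ?_, ?_⟩
    · rw [he]
      exact div_le_div₀ hCi.le s1 hCj t2
    · rw [he]
      have h4 : μ * C i / (μ * C j) ≤ 2 ^ ρ * s / t := div_le_div₀ (by positivity) s2 ht0 t1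
      have h5 : (2 : ℝ) ^ ρ * s / t = 2 ^ (2 * ρ) * (s / (2 ^ ρ * t)) := by
        have h6 : (2 : ℝ) ^ (2 * ρ) = 2 ^ ρ * 2 ^ ρ := by
          rw [two_mul, pow_add]
        rw [h6]
        field_simp
      refine h4.trans (h5.le.trans ?_)
      exact mul_le_mul_of_nonneg_right (pow_le_pow_right₀ (by norm_num) h2) (by positivity)

/-- Products of elements which are in `T` up to a factor. -/
theorem fp_prod {V : Type} [Fintype V] {R : ℕ} {T : Set ℝ} (hT : ∀ τ ∈ T, 0 < τ) {S : Finset ℝ}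
    (hS : ∀ f : Fin (Fintype.card V) → ℝ, (∀ i, f i = 1 ∨ f i ∈ T) →
      ∃ s ∈ S, s ≤ ∏ i, f i ∧ ∏ i, f i ≤ 2 ^ R * s) (g : V → ℝ)
    (hg : ∀ w, g w = 1 ∨ ∃ τ ∈ T, τ ≤ g w ∧ g w ≤ 2 ^ R * τ) :
    ∃ s ∈ S, s ≤ ∏ w, g w ∧ ∏ w, g w ≤ 2 ^ (R * (Fintype.card V + 1)) * s := by
  have h1 : ∀ w, ∃ τ : ℝ, (τ = 1 ∨ τ ∈ T) ∧ 0 < τ ∧ τ ≤ g w ∧ g w ≤ 2 ^ R * τ := by
    intro w
    rcases hg w with h | ⟨τ, h2, h3, h4⟩
    · refine ⟨1, Or.inl rfl, one_pos, h.ge, ?_⟩
      rw [h, mul_one]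
      exact one_le_pow₀ (by norm_num)
    · exact ⟨τ, Or.inr h2, hT τ h2, h3, h4⟩
  choose τ t1 t2 t3 t4 using h1
  obtain ⟨s, hs, s1, s2⟩ := hS (fun i => τ ((Fintype.equivFin V).symm i)) fun i => t1 _
  have h2 : ∏ i, τ ((Fintype.equivFin V).symm i) = ∏ w, τ w :=
    Equiv.prod_comp (Fintype.equivFin V).symm τ
  rw [h2] at s1 s2
  refine ⟨s, hs, s1.trans (prod_le_prod (fun w _ => (t2 w).le) fun w _ => t3 w), ?_⟩
  calc ∏ w, g w ≤ ∏ w, 2 ^ R * τ w :=
        prod_le_prod (fun w _ => (t2 w).le.trans (t3 w)) fun w _ => t4 w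
    _ = (2 ^ R) ^ Fintype.card V * ∏ w, τ w := by
        rw [prod_mul_distrib, prod_const, card_univ]
    _ ≤ (2 ^ R) ^ Fintype.card V * (2 ^ R * s) := mul_le_mul_of_nonneg_left s2 (by positivity)
    _ = _ := by
        rw [← mul_assoc, ← pow_succ, ← pow_mul]

/-- The exponent. -/
def wex (n R : ℕ) : ℕ := (2 + n + 2 * R + 2 * (n * n)) + R * (n + 1)

/-- The number of scales. -/
def bnd (m n R : ℕ) : ℕ :=
  ((m + 1) * (m + 1) * (R * R) + 1 + R) * ((m + 1) * (m + 1) * (R * R) + 1 + R) + 4 * wex n R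

theorem fac_bound (n : ℕ) : (n + 1) ^ n * n.factorial ≤ 2 ^ (2 * (n * n)) := by
  have h1 : n + 1 ≤ 2 ^ n := Nat.lt_two_pow_self
  have h2 : (n + 1) ^ n ≤ 2 ^ (n * n) := by
    rw [pow_mul]
    exact Nat.pow_le_pow_left h1 n
  have h3 : n.factorial ≤ 2 ^ (n * n) :=
    n.factorial_le_pow.trans (by rw [pow_mul]; exact Nat.pow_le_pow_left (by omega) n)
  calc (n + 1) ^ n * n.factorial ≤ 2 ^ (n * n) * 2 ^ (n * n) := Nat.mul_le_mul h2 h3
    _ = _ := by rw [← pow_add]; congr 1; ring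

section
variable {ι V : Type} [Fintype ι] [Fintype V] [DecidableEq V]

/-- **The scales of the nonnegative circuits of a Markov decision process.** -/
theorem mdp_scales [Nonempty V] {R : ℕ} {T : Set ℝ} (hT : FewProducts R (Fintype.card V) T)
    {N : Matrix ι V ℝ} (hN : ∀ i, StateRow R T (N i) ∨ SourceRow R (N i)) :
    NScales (bnd (Fintype.card ι) (Fintype.card V) R) N := by
  classical
  obtain ⟨hT0, S0, hS0c, hS0p, hS0⟩ := hT
  obtain ⟨c, hc⟩ : ∃ c : ℝ, c = 1 / 2 ^ (R + 1) := ⟨_, rfl⟩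
  have hc0 : 0 < c := by rw [hc]; positivity
  have hc1 : c ≤ 1 := by
    rw [hc, div_le_one (by positivity)]
    exact one_le_pow₀ (by norm_num)
  have hrow : ∀ i, ∃ (src : Prop) (lam : ℝ) (h : V) (p : V → ℝ) (l : ℝ) (d : V → ℝ)
      (p' : V → ℝ) (l' : ℝ), 0 < lam ∧ (∀ t, 0 ≤ p t) ∧ 0 ≤ l ∧ (∀ t, 1 ≤ d t ∧ d t ≤ 2 ^ R) ∧
      (src → ∀ v, N i v = lam * (- d v)) ∧
      (¬ src → ∀ v, N i v = lam * ((if v = h then ∑ t, p t + l else 0) - p v)) ∧
      ((p' = p ∧ l' = l) ∨ (p' = 0 ∧ l' = l + ∑ t, p t ∧ c * l' ≤ l)) ∧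
      (∀ t, p' t = 0 ∨ ∃ τ ∈ T, τ ≤ p' t ∧ p' t ≤ 2 ^ R * τ) := by
    intro i
    have hone : (1 : ℝ) ≤ 2 ^ R := one_le_pow₀ (by norm_num)
    rcases hN i with ⟨lam, h, p, l, h1, h2, h3, h4, h5⟩ | ⟨lam, h1, h2⟩
    · rcases h5 with h5 | h5
      · exact ⟨False, lam, h, p, l, fun _ => 1, p, l, h1, h2, h3, fun _ => ⟨le_rfl, hone⟩,
          fun h => h.elim, fun _ => h4, Or.inl ⟨rfl, rfl⟩, h5⟩
      · refine ⟨False, lam, h, p, l, fun _ => 1, 0, l + ∑ t, p t, h1, h2, h3,
          fun _ => ⟨le_rfl, hone⟩, fun h => h.elim, fun _ => h4, Or.inr ⟨rfl, rfl, ?_⟩,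
          fun t => Or.inl rfl⟩
        rw [hc, div_mul_eq_mul_div, one_mul, div_le_iff₀ (by positivity), pow_succ]
        have h6 : l ≤ l * 2 ^ R := le_mul_of_one_le_right h3 hone
        nlinarith
    · obtain ⟨h0⟩ := ‹Nonempty V›
      refine ⟨True, lam, h0, 0, 0, fun v => - N i v / lam, 0, 0, h1, fun _ => le_rfl, le_rfl,
        fun t => ⟨?_, ?_⟩, fun _ v => ?_, fun h => (h trivial).elim, Or.inl ⟨rfl, rfl⟩,
        fun t => Or.inl rfl⟩
      · rw [le_div_iff₀ h1, one_mul]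
        exact (h2 t).1
      · rw [div_le_iff₀ h1]
        exact (h2 t).2
      · field_simp
  choose src lam h p l d p' l' r1 r2 r3 r4 r5 r6 r7 r8 using hrow
  obtain ⟨N', hN'⟩ : ∃ N' : Matrix ι V ℝ, N' = fun i v => if src i then - d i v else
      (if v = h i then ∑ t, p i t + l i else 0) - p i v := ⟨_, rfl⟩
  suffices hmain : NScales (bnd (Fintype.card ι) (Fintype.card V) R) N' by
    refine NScales.scale (Equiv.refl ι) lam r1 (fun i v => ?_) hmain
    rw [hN']
    simp only [Equiv.refl_apply]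
    by_cases hs : src i
    · rw [if_pos hs, r5 i hs v]
    · rw [if_neg hs, r6 i hs v]
  have hSys : Sys N' src h p l d := by
    refine ⟨r2, r3, fun i t _ => zero_lt_one.trans_le (r4 i t).1, fun i v hs => ?_,
      fun i v hs => ?_⟩
    · rw [hN']; simp only; rw [if_pos hs]
    · rw [hN']; simp only; rw [if_neg hs]
  obtain ⟨n, hn⟩ : ∃ n, n = Fintype.card V := ⟨_, rfl⟩
  obtain ⟨m, hm⟩ : ∃ m, m = Fintype.card ι := ⟨_, rfl⟩
  rw [← hn, ← hm]
  obtain ⟨w, hw⟩ : ∃ w, w = wex n R := ⟨_, rfl⟩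
  obtain ⟨B, hB⟩ : ∃ B : ℕ, B = (Fintype.card V + 1) ^ Fintype.card V *
    (Fintype.card V).factorial := ⟨_, rfl⟩
  have hBb : B ≤ 2 ^ (2 * (n * n)) := by rw [hB, hn]; exact fac_bound _
  have hBr : (B : ℝ) ≤ 2 ^ (2 * (n * n)) := by exact_mod_cast hBb
  have hfp : ∀ g : V → ℝ, (∀ w, g w = 1 ∨ ∃ τ ∈ T, τ ≤ g w ∧ g w ≤ 2 ^ R * τ) →
      ∃ s ∈ S0, s ≤ ∏ w, g w ∧ ∏ w, g w ≤ 2 ^ (R * (n + 1)) * s := by
    intro g hg
    rw [hn]
    exact fp_prod hT0 hS0 g hg
  obtain ⟨L, hL⟩ : ∃ L : Finset ℝ, L = insert 1 ((univ.image l').filter fun x => 0 < x) :=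
    ⟨_, rfl⟩
  have hLp : ∀ x ∈ L, 0 < x := by
    intro x hx
    rw [hL, mem_insert] at hx
    rcases hx with rfl | hx
    · norm_num
    · exact (mem_filter.1 hx).2
  have hLc : L.card ≤ m + 1 := by
    rw [hL, hm]
    refine (card_insert_le _ _).trans (Nat.add_le_add_right ?_ 1)
    exact (card_filter_le _ _).trans card_image_le
  obtain ⟨S1, hS1⟩ : ∃ S1 : Finset ℝ, S1 = ((L ×ˢ L) ×ˢ (S0 ×ˢ S0)).image
    fun y => y.1.1 * y.2.1 / (y.1.2 * y.2.2 * 2 ^ w) := ⟨_, rfl⟩
  have hS1c : S1.card ≤ (m + 1) * (m + 1) * (R * R) := by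
    rw [hS1]
    refine card_image_le.trans ?_
    rw [card_product, card_product, card_product]
    exact Nat.mul_le_mul (Nat.mul_le_mul hLc hLc) (Nat.mul_le_mul hS0c hS0c)
  have hcard : (insert 1 S1 ∪ S0).card ≤ (m + 1) * (m + 1) * (R * R) + 1 + R := by
    refine (card_union_le _ _).trans ?_
    have := card_insert_le 1 S1
    omega
  refine NScales.of_common (insert 1 S1 ∪ S0) (2 * w) _ ?_ ?_
    ((Nat.mul_le_mul hcard hcard).trans (Nat.le_add_right _ _)) ?_
  · intro s hs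
    rcases mem_union.1 hs with hs | hs
    · rcases mem_insert.1 hs with rfl | hs
      · norm_num
      · rw [hS1] at hs
        obtain ⟨y, hy, rfl⟩ := mem_image.1 hs
        rw [mem_product, mem_product, mem_product] at hy
        have := hLp _ hy.1.1
        have := hLp _ hy.1.2
        have := hS0p _ hy.2.1
        have := hS0p _ hy.2.2
        positivity
    · exact hS0p s hs
  · intro C hC
    by_cases hex : ∃ ν, C ν ≠ 0 ∧ src ν
    · -- a circuit with a source
      obtain ⟨ν, hν0, hν⟩ := hex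
      have hνp : 0 < C ν := lt_of_le_of_ne (hC.1 ν) (Ne.symm hν0)
      obtain ⟨σ, g1, g2, g3, g4, g5⟩ := hSys.circ_src hC hν hν0
      refine ⟨1 / C ν, by positivity, fun i hi => ?_⟩
      rcases g3 i hi with rfl | ⟨s, rfl⟩
      · refine ⟨1, mem_union_left _ (mem_insert_self _ _), ?_, ?_⟩
        · rw [one_div, inv_mul_cancel₀ hν0]
        · rw [one_div, inv_mul_cancel₀ hν0, mul_one]
          exact one_le_pow₀ (by norm_num)
      · obtain ⟨u, f, f', k, k', e1, e2, e3, e4, e5, e6⟩ := main_est (fun v => p (σ v))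
          (fun v => l (σ v)) (fun v => C (σ v) / C ν) (d ν) (2 ^ R) c (fun v t => r2 _ t)
          (fun v => r3 _) g4 g5 (fun v => (r4 ν v).1) (fun v => (r4 ν v).2) hc0 hc1
          (fun v => p' (σ v)) (fun v => l' (σ v)) (fun v => r7 (σ v)) s (div_pos (g2 s) hνp)
        rw [← hB, ← hn] at e5 e6
        have hQ : ∀ f : V → Option V, 0 < Qf (fun v => p' (σ v)) f →
            ∃ s ∈ S0, s ≤ Qf (fun v => p' (σ v)) f ∧
              Qf (fun v => p' (σ v)) f ≤ 2 ^ (R * (n + 1)) * s := by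
          intro f hf
          refine hfp (fun v => (f v).elim 1 (p' (σ v))) fun v => ?_
          have h1 := prod_ne_zero_iff.1 (ne_of_gt hf) v (mem_univ v)
          cases hfv : f v with
          | none => left; rfl
          | some t =>
            rw [hfv] at h1
            simp only [Option.elim_some] at h1 ⊢
            rcases r8 (σ v) t with h2 | h2
            · exact absurd h2 h1
            · exact Or.inr h2
        obtain ⟨s1, hs1, a1, a2⟩ := hQ f e3
        obtain ⟨s2, hs2, a3, a4⟩ := hQ f' e4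
        have hk : ∀ k, (k = 1 ∨ 0 < l' (σ u) ∧ k = l' (σ u)) → k ∈ L := by
          intro k hk
          rw [hL]
          rcases hk with rfl | ⟨h1, rfl⟩
          · exact mem_insert_self _ _
          · exact mem_insert_of_mem (mem_filter.2 ⟨mem_image_of_mem _ (mem_univ _), h1⟩)
        have hk1 := hk k e1
        have hk2 := hk k' e2
        have b1 := hLp k hk1
        have b2 := hLp k' hk2
        have b3 := hS0p s1 hs1
        have b4 := hS0p s2 hs2
        obtain ⟨x, hx⟩ : ∃ x, x = C (σ s) / C ν := ⟨_, rfl⟩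
        have hx0 : 0 < x := by rw [hx]; exact div_pos (g2 s) hνp
        have hxe : 1 / C ν * C (σ s) = x := by rw [hx]; ring
        rw [← hx] at e5 e6
        rw [hxe]
        obtain ⟨Q, hQd⟩ : ∃ Q, Q = Qf (fun v => p' (σ v)) f := ⟨_, rfl⟩
        obtain ⟨Q', hQd'⟩ : ∃ Q', Q' = Qf (fun v => p' (σ v)) f' := ⟨_, rfl⟩
        rw [← hQd] at e3 e5 e6 a1 a2
        rw [← hQd'] at e4 e5 e6 a3 a4
        -- the constants
        have hn2 : (n : ℝ) ≤ 2 ^ n := by
          exact_mod_cast (Nat.lt_two_pow_self (n := n)).le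
        have hone : (1 : ℝ) ≤ 2 ^ R := one_le_pow₀ (by norm_num)
        obtain ⟨K1, hK1⟩ : ∃ K1 : ℝ, K1 = 2 ^ (R * (n + 1)) := ⟨_, rfl⟩
        obtain ⟨M, hM⟩ : ∃ M : ℝ, M = 2 ^ (2 + n + 2 * R + 2 * (n * n)) := ⟨_, rfl⟩
        have hMK : M * K1 = 2 ^ w := by
          rw [hM, hK1, hw, wex, ← pow_add]
        have hM0 : 0 < M := by rw [hM]; positivity
        have hK0 : 0 < K1 := by rw [hK1]; positivity
        have hM2 : 2 * (n * 2 ^ R) / c * B ≤ M := by
          rw [hc, hM]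
          have h1 : (2 : ℝ) ^ (2 + n + 2 * R + 2 * (n * n)) =
              2 * (2 ^ n * 2 ^ R) * 2 ^ (R + 1) * 2 ^ (2 * (n * n)) := by
            rw [show 2 + n + 2 * R + 2 * (n * n) = 1 + (n + R) + (R + 1) + 2 * (n * n) by omega]
            rw [pow_add, pow_add, pow_add, pow_add]
            ring
          rw [h1, div_div_eq_mul_div, div_one]
          gcongr
        have hM1 : 2 * n * (B : ℝ) ≤ M := by
          refine le_trans ?_ hM2
          have h1 : 2 * (n : ℝ) ≤ 2 * (n * 2 ^ R) / c := by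
            rw [le_div_iff₀ hc0]
            have h2 : 0 ≤ (n : ℝ) := Nat.cast_nonneg n
            have h3 : (n : ℝ) ≤ n * 2 ^ R := le_mul_of_one_le_right h2 hone
            nlinarith
          exact mul_le_mul_of_nonneg_right h1 (Nat.cast_nonneg B)
        have f5 : k' * Q' ≤ M * (x * (k * Q)) :=
          e5.trans (mul_le_mul_of_nonneg_right hM1 (by positivity))
        have f6 : x * (k * Q) ≤ M * (k' * Q') :=
          e6.trans (mul_le_mul_of_nonneg_right hM2 (by positivity))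
        rw [← hK1] at a2 a4
        refine ⟨k' * s2 / (k * s1 * 2 ^ w), mem_union_left _ (mem_insert_of_mem ?_), ?_, ?_⟩
        · rw [hS1]
          exact mem_image.2 ⟨((k', k), (s2, s1)), mk_mem_product (mk_mem_product hk2 hk1)
            (mk_mem_product hs2 hs1), rfl⟩
        · rw [div_le_iff₀ (by positivity), ← hMK]
          calc k' * s2 ≤ k' * Q' := mul_le_mul_of_nonneg_left a3 b2.le
            _ ≤ M * (x * (k * Q)) := f5
            _ ≤ M * (x * (k * (K1 * s1))) := by gcongr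
            _ = _ := by ring
        · have h1 : x * (k * s1) ≤ M * K1 * (k' * s2) := by
            calc x * (k * s1) ≤ x * (k * Q) := by gcongr
              _ ≤ M * (k' * Q') := f6
              _ ≤ M * (k' * (K1 * s2)) := by gcongr
              _ = _ := by ring
          rw [hMK] at h1
          have h2 : (2 : ℝ) ^ (2 * w) * (k' * s2 / (k * s1 * 2 ^ w)) =
              2 ^ w * (k' * s2) / (k * s1) := by
            rw [two_mul, pow_add]
            field_simp
          rw [h2, le_div_iff₀ (by positivity)]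
          exact h1
    · -- a circuit without sources
      push Not at hex
      obtain ⟨g1, μ, hμ, g2⟩ := hSys.circ_zero hC hex
      refine ⟨μ, hμ, fun i hi => ?_⟩
      obtain ⟨g, g3, g4, g5, g6⟩ := g2 i hi
      rw [← hB] at g6
      obtain ⟨s, hs, a1, a2⟩ := hfp g fun v => by
        rcases g3 v with h1 | ⟨j, t, h1, h2⟩
        · exact Or.inl h1
        · have h3 := prod_ne_zero_iff.1 (ne_of_gt g4) v (mem_univ v)
          right
          rw [h2] at h3 ⊢
          rcases r7 j with ⟨h4, -⟩ | ⟨h4, h5, h6⟩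
          · rw [← h4] at h3 ⊢
            rcases r8 j t with h7 | h7
            · exact absurd h7 h3
            · exact h7
          · exfalso
            rw [h5, g1 j h1, zero_add] at h6
            have h7 : ∑ t, p j t ≤ 0 := by
              by_contra h8
              push Not at h8
              have := mul_pos hc0 h8
              linarith
            have h8 : ∀ t ∈ univ, p j t = 0 := (sum_eq_zero_iff_of_nonneg fun t _ => r2 j t).1
              (le_antisymm h7 (sum_nonneg fun t _ => r2 j t))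
            exact h3 (h8 t (mem_univ t))
      refine ⟨s, mem_union_right _ hs, a1.trans g5, ?_⟩
      have hs0 := hS0p s hs
      calc μ * C i ≤ B * ∏ v, g v := g6
        _ ≤ 2 ^ (2 * (n * n)) * (2 ^ (R * (n + 1)) * s) :=
            mul_le_mul hBr a2 g4.le (by positivity)
        _ = 2 ^ (2 * (n * n) + R * (n + 1)) * s := by rw [pow_add]; ring
        _ ≤ 2 ^ (2 * w) * s := by
            refine mul_le_mul_of_nonneg_right (pow_le_pow_right₀ (by norm_num) ?_) hs0.le
            rw [hw, wex]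
            omega
  · rw [bnd, ← hw]
    omega

end

/-- Few scales have few products. -/
theorem few_scales (n k ρ : ℕ) (δ : Fin k → ℝ) (hδ : ∀ j, 0 < δ j) (T : Set ℝ)
    (hT : ∀ τ ∈ T, ∃ j, δ j ≤ τ ∧ τ ≤ 2 ^ ρ * δ j) : FewProducts ((n + 1) ^ k + n * ρ) n T := by
  classical
  refine ⟨fun τ hτ => ?_, (univ : Finset (Fin k → Fin (n + 1))).image
    fun a => ∏ j, δ j ^ (a j : ℕ), ?_, ?_, ?_⟩
  · obtain ⟨j, h1, -⟩ := hT τ hτ
    exact (hδ j).trans_le h1
  · refine card_image_le.trans ?_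
    rw [card_univ, Fintype.card_fun, Fintype.card_fin, Fintype.card_fin]
    exact Nat.le_add_right _ _
  · intro s hs
    obtain ⟨a, -, rfl⟩ := mem_image.1 hs
    exact prod_pos fun j _ => pow_pos (hδ j) _
  · intro f hf
    -- the scales of the factors
    have h1 : ∀ i, ∃ o : Option (Fin k), o.elim 1 δ ≤ f i ∧ f i ≤ 2 ^ ρ * o.elim 1 δ := by
      intro i
      rcases hf i with h | h
      · refine ⟨none, ?_, ?_⟩
        · simp [h]
        · simp only [Option.elim_none, mul_one, h]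
          exact one_le_pow₀ (by norm_num)
      · obtain ⟨j, h2, h3⟩ := hT _ h
        exact ⟨some j, h2, h3⟩
    choose o h2 h3 using h1
    have hpos : ∀ i, 0 < (o i).elim 1 δ := by
      intro i
      cases o i with
      | none => simp
      | some j => simpa using hδ j
    have hcnt : ∀ j, (univ.filter fun i => o i = some j).card < n + 1 := by
      intro j
      refine Nat.lt_succ_of_le ((card_filter_le _ _).trans ?_)
      simp
    have hprod : ∏ i, (o i).elim 1 δ = ∏ j, δ j ^ (univ.filter fun i => o i = some j).card := by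
      have h4 : ∀ j, δ j ^ (univ.filter fun i => o i = some j).card =
          ∏ i, if o i = some j then δ j else 1 := by
        intro j
        rw [← prod_filter, prod_const]
      rw [prod_congr rfl fun j _ => h4 j, prod_comm]
      refine prod_congr rfl fun i _ => ?_
      cases ho : o i with
      | none => simp
      | some j =>
        rw [prod_eq_single j]
        · simp
        · intro j' _ hj
          rw [if_neg]
          intro h5
          exact hj (Option.some.inj h5).symm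
        · intro h
          exact absurd (mem_univ j) h
    refine ⟨∏ i, (o i).elim 1 δ, mem_image.2 ⟨fun j => ⟨_, hcnt j⟩, mem_univ _, hprod.symm⟩,
      prod_le_prod (fun i _ => (hpos i).le) fun i _ => h2 i, ?_⟩
    calc ∏ i, f i ≤ ∏ i, 2 ^ ρ * (o i).elim 1 δ :=
          prod_le_prod (fun i _ => (hpos i).le.trans (h2 i)) fun i _ => h3 i
      _ = 2 ^ (ρ * n) * ∏ i, (o i).elim 1 δ := by
          rw [prod_mul_distrib, prod_const, card_univ, Fintype.card_fin, ← pow_mul]
      _ ≤ _ := by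
          refine mul_le_mul_of_nonneg_right (pow_le_pow_right₀ (by norm_num) ?_)
            (prod_nonneg fun i _ => (hpos i).le)
          rw [mul_comm]
          exact Nat.le_add_left _ _

end Pool.Agent.V8H41.MD
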