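import Pool.Agent.V8H41.MD.Sc
import Pool.Agent.Y648.CW.T_MAIN

/-!
# The correctness of the computation
-/

set_option autoImplicit false
set_option linter.all false

namespace Pool.Agent.V8H41.MD

open Pool.Agent.NPC Pool.Agent.H558R2 Pool.Agent.H622R3.SM Pool.Agent.W920.FC
open Pool.Agent.Y648.CS Pool.Agent.Y529.CS Pool.Agent.Y648.CS.W

/-- The computation: in the first phase every row is used with one sign only, in the second phase
only the rows with `sg σ` are used. -/
def TAS (M n : ℕ) (σ : List Bool) : TT Bool :=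
  bnd (whl (itr M n 0 (drS M σ)) (st0 M)) fun s =>
    TBW M n (s.1, (s.2.1, (s.2.2.1, mask M σ s.2.2.2)))

open FN FL in
theorem runsS : W.S_PHS → Pool.Agent.Y648.CS.S_MOV → W.S_CMPQ → W.S_PR → W.S_CUTC →
    ∃ q : Polynomial ℕ, ∀ (M n : ℕ) (σ : List Bool) (A : Fin M → Fin n → ℝ)
      (b : Fin M → ℝ) (S r : ℕ), 1 ≤ M → M + n + r ≤ S → Lo σ A →
      NScales r (sA σ A : Matrix (Fin M) (Fin n) ℝ) → ∃ ans : Bool,
      Runs (start A b) (Gd q S (start A b)) (TAS M n σ) ans (q.eval S) ∧
      (ans = true ↔ ∃ z : Fin n → ℝ, ∀ c : Fin M, sg σ c = true → b c ≤ ∑ i, A c i * z i) := by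
  intro hPHS hM hCM hPR hCUT
  obtain ⟨qn, hn⟩ := hCUT
  obtain ⟨q0, h0⟩ := hPHS (64 * (pD * pD) + qn.comp (Polynomial.X + 1))
  obtain ⟨q1, h1⟩ := hPHS (q0 + 64 * (pD * pD) + qn.comp (Polynomial.X + 1))
  obtain ⟨qc, hc⟩ := hCM 1
  obtain ⟨qp, hp⟩ := hPR 2
  obtain ⟨q, hq⟩ : ∃ q : Polynomial ℕ, q = (q0 + (q1 + (qc + qp))) + (Polynomial.X + (Polynomial.X *
    (Polynomial.X * (qc + 1)) + (qp + 1))) := ⟨_, rfl⟩
  have l0 : PLe q0 q := by
    rw [hq]; exact (ple_add_left _ _).trans (ple_add_left _ _)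
  have l1 : PLe q1 q := by
    rw [hq]; exact ((ple_add_left _ _).trans (ple_add_right _ _)).trans (ple_add_left _ _)
  have lc : PLe qc q := by
    rw [hq]
    exact (((ple_add_left _ _).trans (ple_add_right _ _)).trans (ple_add_right _ _)).trans
      (ple_add_left _ _)
  have lp : PLe qp q := by
    rw [hq]
    exact (((ple_add_right _ _).trans (ple_add_right _ _)).trans (ple_add_right _ _)).trans
      (ple_add_left _ _)
  refine ⟨q, fun M n σ A b S r hM1 hSd hlo hA => ?_⟩
  have hS : M + n ≤ S := by omega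
  have hqe : q.eval S = (q0.eval S + (q1.eval S + (qc.eval S +
      qp.eval S))) + (S + (S * (S * (qc.eval S + 1)) +
        (qp.eval S + 1))) := by
    rw [hq]
    simp only [Polynomial.eval_add, Polynomial.eval_mul, Polynomial.eval_X, Polynomial.eval_one]
  obtain ⟨g, hg⟩ : ∃ g, g = start A b := ⟨_, rfl⟩
  have hbase : Base g := by rw [hg]; exact base_start A b
  have hK2 : 64 * (cD M n * cD M n) ≤ (64 * (pD * pD) : Polynomial ℕ).eval S := by
    simp only [Polynomial.eval_mul, Polynomial.eval_ofNat]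
    exact Nat.mul_le_mul_left _ (Nat.mul_le_mul (pD_leS hS) (pD_leS hS))
  obtain ⟨hI0, hnn⟩ := begX0 σ A b hM hlo
  have hA' := NScales.mono (show r ≤ r + 1 by omega) hA
  have hS0 := scX0 σ A b hA'
  have hS1 := scX1 σ A b hA'
  obtain ⟨N, hN⟩ : ∃ N, N = qn.eval (M + n + (r + 1)) := ⟨_, rfl⟩
  have hNS : N ≤ (qn.comp (Polynomial.X + 1)).eval S := by
    rw [hN, Polynomial.eval_comp, Polynomial.eval_add, Polynomial.eval_X, Polynomial.eval_one]
    exact pe_mono qn (by omega)
  have hbegX1 := fun E j W B hE hT => begX1 σ A b hM (E := E) (j := j) W B hE hT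
  rw [← hg] at hI0 hnn hS0 hS1 hbegX1 ⊢
  obtain ⟨s, r0, hs⟩ := h0 M n 0 S N g (drS M σ) (64 * (cD M n * cD M n)) moOne
    (List.replicate (M + M) moOne) [] hbase hS (by rw [Polynomial.eval_add]; omega)
    (by rw [Polynomial.eval_add]; omega) le_rfl hI0
    (fun T K hT => by rw [hN]; exact hn M n 0 (r + 1) g (drS M σ) T K (by omega) hS0 hT)
  have hs2 : s.1 = 2 ∧ Trm M n 0 g (drS M σ) (q0.eval S) s.2.2.1 s.2.2.2 := by
    rcases hs with ⟨-, x, hx1, hx2, hx3⟩ | h
    · exact absurd hx3 (not_lt.2 (hnn x hx1 hx2))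
    · exact h
  obtain ⟨hs1, hTrm⟩ := hs2
  -- the queries on `b`
  have hcmp : ∀ i j : ℕ, HasVal g (Gd qc S g) (cmpQ M n (t1 M n i) (t1 M n j))
      (cmV M n g (t1 M n i) (t1 M n j)) ∧
      (cmpQ M n (t1 M n i) (t1 M n j)).1.length ≤ qc.eval S := by
    intro i j
    have e1 : (1 : Polynomial ℕ).eval S = 1 := Polynomial.eval_one
    exact hc M n S g _ _ hbase hS (by rw [e1]; exact t1_sz M n i) (by rw [e1]; exact t1_sz M n j)
  have rb := runs_batch (bQs_valS fun i j => (hcmp i j).1)
  have sb := bQs_len (m := M) (n := n) fun i j => (hcmp i j).2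
  obtain ⟨o, ho⟩ : ∃ o, o = (bVals M n g).map signOut := ⟨_, rfl⟩
  rw [← ho] at rb
  have ho1 : ∀ j < M, o.getD j none = signOut (g [1, j]) := fun j hj => by rw [ho, bV1 g hj]
  have hmS : M ≤ S := by omega
  have hmc : M * (M * (qc.eval S + 1)) ≤ S * (S * (qc.eval S + 1)) :=
    Nat.mul_le_mul hmS (Nat.mul_le_mul_right _ hmS)
  have hgb : ∀ j : Fin M, g [1, (j : ℕ)] = b j := by
    intro j
    rw [hg]
    show (if h : (j : ℕ) < M then b ⟨j, h⟩ else 0) = b j
    rw [dif_pos j.2]
  by_cases hall : ((List.range M).all fun j => decide (o.getD j none ≠ some true)) = true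
  · -- all entries of `b` are at most zero
    refine ⟨true, ?_, ?_⟩
    · have r : Runs g (Gd q S g) (TAS M n σ) true
          (q0.eval S + (((bQs M n).map fun q => q.1.length + 1).sum + 0)) := by
        unfold TAS
        refine runs_bnd (runs_mono l0 le_rfl r0) ?_
        unfold TBW
        rw [if_neg (by show ¬ s.1 ≠ 2; rw [hs1]; norm_num)]
        refine runs_bnd (runs_mono lc le_rfl rb) ?_
        rw [if_pos hall]
        exact runs_ret _
      refine t_TT.2.2.2 _ _ _ _ _ _ _ _ (fun _ h => h) ?_ r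
      rw [hqe]
      omega
    · refine ⟨fun _ => ⟨0, ?_⟩, fun _ => rfl⟩
      intro j _
      rw [List.all_eq_true] at hall
      have h2 := hall j (List.mem_range.2 j.2)
      rw [decide_eq_true_eq, ho1 j j.2, Ne, signOut_true, not_lt, hgb] at h2
      simpa using h2
  · -- the second phase
    have hval : ∀ i < M, |moV M n g (t1 M n i)| = |g [1, i]| := fun i hi => t1_val hM M n i hi g
    have ht1ok : ∀ i, MoOK M n g (t1 M n i) := by
      intro i
      obtain ⟨-, -, -, -, -, -, -, -, hmin, -, -⟩ := hM M n g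
      exact (hmin _).2
    obtain ⟨hbm, hbx⟩ := bMax_spec hM1 (fun i => |g [1, i]|) o (by
      intro i hi j hj
      rw [ho, bV2 g hi hj]
      obtain ⟨-, -, -, -, -, -, -, -, -, hcs, -⟩ := hM M n g
      rw [hcs _ _ (ht1ok i) (ht1ok j), hval i hi, hval j hj])
    obtain ⟨j, hj⟩ : ∃ j, j = bMax M o := ⟨_, rfl⟩
    rw [← hj] at hbm hbx
    have hne : g [1, j] ≠ 0 := by
      rw [List.all_eq_true] at hall
      push Not at hall
      obtain ⟨i, hi, h2⟩ := hall
      have hi' := List.mem_range.1 hi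
      rw [ho1 i hi'] at h2
      have h3 : signOut (g [1, i]) = some true := by
        by_contra h4
        exact h2 (decide_eq_true h4)
      rw [signOut_true] at h3
      have h4 := hbx i hi'
      rw [abs_of_pos h3] at h4
      intro h5
      rw [h5, abs_zero] at h4
      linarith
    have hfx : HasVal g (Gd qp S g) (fxQ M n (t1 M n j))
        (prV M n g 0 ((t1 M n j).2.1 ++ (t1 M n j).2.2)) ∧
        (fxQ M n (t1 M n j)).1.length ≤ qp.eval S := by
      refine hp M n S g 0 _ hbase hS (Nat.zero_le _) ?_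
      have e2 : (2 : Polynomial ℕ).eval S = 2 := Polynomial.eval_ofNat _ _
      rw [e2]
      simp [t1, moMin]
    have rf := runs_batch (List.Forall₂.cons hfx.1 List.Forall₂.nil)
    obtain ⟨o', ho'⟩ : ∃ o', o' = (List.map signOut
      [prV M n g 0 ((t1 M n j).2.1 ++ (t1 M n j).2.2)]) := ⟨_, rfl⟩
    rw [← ho'] at rf
    have ho'0 : o'.getD 0 none = signOut (prV M n g 0 ((t1 M n j).2.1 ++ (t1 M n j).2.2)) := by
      rw [ho']; rfl
    obtain ⟨hb1, hb2, hb3⟩ := hbegX1 (q0.eval S + 64 * (cD M n * cD M n)) j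
      s.2.2.1 s.2.2.2 (by omega) (hTrm.mono (Nat.le_add_right _ _))
    have hI1 := hb1 hbm hne hbx (o'.getD 0 none) ho'0
    obtain ⟨s', r1, hs'⟩ := h1 M n 1 S N g (dr1 M (mask M σ s.2.2.2))
      (q0.eval S + 64 * (cD M n * cD M n))
      _ _ [] hbase hS (by simp only [Polynomial.eval_add]; omega)
      (by simp only [Polynomial.eval_add]; omega) (by omega) hI1
      (fun T K hT => by
        rw [hN]; exact hn M n 1 (r + 1) g (dr1 M (mask M σ s.2.2.2)) T K (by omega) (hS1 _) hT)
    refine ⟨decide (s'.1 ≠ 1), ?_, ?_⟩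
    · have r : Runs g (Gd q S g) (TAS M n σ) (decide (s'.1 ≠ 1))
          (q0.eval S + (((bQs M n).map fun q => q.1.length + 1).sum +
            ((([fxQ M n (t1 M n j)].map fun q => q.1.length + 1).sum) +
              (q1.eval S + 0)))) := by
        unfold TAS
        refine runs_bnd (runs_mono l0 le_rfl r0) ?_
        unfold TBW
        rw [if_neg (by show ¬ s.1 ≠ 2; rw [hs1]; norm_num)]
        refine runs_bnd (runs_mono lc le_rfl rb) ?_
        rw [if_neg hall, ← hj]
        refine runs_bnd (runs_mono lp le_rfl rf) ?_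
        exact runs_bnd (runs_mono l1 le_rfl r1) (runs_ret _)
      refine t_TT.2.2.2 _ _ _ _ _ _ _ _ (fun _ h => h) ?_ r
      rw [hqe]
      have h6 : (([fxQ M n (t1 M n j)].map fun q => q.1.length + 1).sum) =
          (fxQ M n (t1 M n j)).1.length + 1 := by
        simp
      rw [h6]
      have h7 := hfx.2
      omega
    · rcases hs' with ⟨h2, h3⟩ | ⟨h2, h3⟩
      · rw [h2]
        constructor
        · intro h4
          exact absurd h4 (by simp)
        · intro h4
          exact absurd h4 (hb2 h3)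
      · rw [h2]
        constructor
        · intro _
          refine hb3 fun y hy => ?_
          exact (h3.2.1 y hy).2.2
        · intro _
          simp

end Pool.Agent.V8H41.MD
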