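import Pool.Agent.V8H41.MD.MapQ
import Pool.Agent.V8H41.MD.Runs
import Pool.Agent.Y648.CW.T_PTW

/-!
# The computation in polynomial time
-/

set_option autoImplicit false
set_option linter.all false

namespace Pool.Agent.V8H41.MD

open Pool.Agent.NPC Pool.Agent.H558R2 Pool.Agent.H622R3.SM Pool.Agent.W920.FC
open Pool.Agent.Y648.CS Pool.Agent.Y648.CS.W Pool.Agent.Y648.CS.TTUP
open TPTA TQQ TQD

variable {α : Type} [TEnc α]

theorem psg {σ : α → List Bool} {c : α → ℕ} (hσ : Poly σ) (hc : Poly c) :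
    Poly (fun a => sg (σ a) (c a)) := by
  unfold sg
  exact NPC.Poly.getD hσ hc (NPC.Poly.const false)

theorem pdrS {M : α → ℕ} {σ : α → List Bool} (hM : UPoly M) (hσ : Poly σ) :
    Poly (fun a => drS (M a) (σ a)) := by
  unfold drS
  refine NPC.Poly.map (F := fun a c => if c < M a then !(sg (σ a) c) else sg (σ a) (c - M a))
    (UPoly.add hM hM).range ?_
  have b : Poly (fun q : α × ℕ => q.1) := NPC.Poly.fst NPC.Poly.id
  have b2 : Poly (fun q : α × ℕ => q.2) := NPC.Poly.snd NPC.Poly.id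
  have hM' : Poly (fun q : α × ℕ => M q.1) := hM.toPoly.comp b
  exact NPC.Poly.ite (NPC.Poly.decide_lt b2 hM') (NPC.Poly.not (psg (hσ.comp b) b2))
    (psg (hσ.comp b) (NPC.Poly.sub b2 hM'))

theorem pmask {M : α → ℕ} {σ B : α → List Bool} (hM : UPoly M) (hσ : Poly σ) (hB : Poly B) :
    Poly (fun a => mask (M a) (σ a) (B a)) := by
  unfold mask
  refine NPC.Poly.map (F := fun a c => sg (σ a) c && (B a).getD c false) hM.range ?_
  have b : Poly (fun q : α × ℕ => q.1) := NPC.Poly.fst NPC.Poly.id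
  have b2 : Poly (fun q : α × ℕ => q.2) := NPC.Poly.snd NPC.Poly.id
  exact NPC.Poly.and (psg (hσ.comp b) b2) (NPC.Poly.getD (hB.comp b) b2 (NPC.Poly.const false))

theorem pst0 {M : α → ℕ} (hM : UPoly M) : Poly (fun a => st0 (M a)) := by
  unfold st0
  refine NPC.Poly.pair (NPC.Poly.const 0) (NPC.Poly.pair (NPC.Poly.const _) (NPC.Poly.pair
    ?_ (NPC.Poly.const [])))
  exact (NPC.Poly.map (F := fun _ _ => moOne) (UPoly.add hM hM).range
    (NPC.Poly.const _)).congr fun a => by simp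

theorem pt_TAS (hO : S_OUT) (hP : S_PT) (hI : S_PTITER) (hQ : Pool.Agent.W920.FD.S_QP)
    (h4 : S_PP4) {M n : α → ℕ} {σ : α → List Bool} (hM : UPoly M) (hn : UPoly n)
    (hσ : Poly σ) : Pool.Agent.W920.FC.PT (fun a => TAS (M a) (n a) (σ a)) := by
  unfold TAS
  refine hP.2.1 α PS Bool (fun a => whl (itr (M a) (n a) 0 (drS (M a) (σ a))) (st0 (M a)))
    (fun a s => TBW (M a) (n a) (s.1, (s.2.1, (s.2.2.1, mask (M a) (σ a) s.2.2.2)))) ?_ ?_
  · exact pt_whl hO hP hI hQ h4 0 hM hn (pdrS hM hσ) (pst0 hM)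
  · have b : Poly (fun q : α × PS => q.1) := NPC.Poly.fst NPC.Poly.id
    have b2 : Poly (fun q : α × PS => q.2) := NPC.Poly.snd NPC.Poly.id
    refine pt_TBW hO hP hI hQ h4 (UPoly.comp (n := M) hM b) (UPoly.comp (n := n) hn b)
      (s := fun q : α × PS => (q.2.1, (q.2.2.1, (q.2.2.2.1, mask (M q.1) (σ q.1) q.2.2.2.2)))) ?_
    exact NPC.Poly.pair (NPC.Poly.fst b2) (NPC.Poly.pair (NPC.Poly.fst (NPC.Poly.snd b2))
      (NPC.Poly.pair (NPC.Poly.fst (NPC.Poly.snd (NPC.Poly.snd b2)))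
        (pmask (UPoly.comp (n := M) hM b) (hσ.comp b)
          (NPC.Poly.snd (NPC.Poly.snd (NPC.Poly.snd b2))))))

/-! ### The changed queries -/

theorem prX {m n : α → ℕ} {r : α → Reg} (hm : Poly m) (hn : Poly n) (hr : Poly r) :
    Poly (fun a => rX (m a) (n a) (r a)) := by
  have hh := pheadD hr
  have g1 : Poly (fun a => (r a).getD 1 0) := NPC.Poly.getD hr (NPC.Poly.const 1) (NPC.Poly.const 0)
  have g2 : Poly (fun a => (r a).getD 2 0) := NPC.Poly.getD hr (NPC.Poly.const 2) (NPC.Poly.const 0)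
  have hmn : Poly (fun a => m a + n a) := NPC.Poly.add hm hn
  have c2 : Poly (fun _ : α => ([2] : Reg)) := NPC.Poly.const [2]
  have c3 : Poly (fun _ : α => ([3] : Reg)) := NPC.Poly.const [3]
  have c94 : Poly (fun _ : α => ([94] : Reg)) := NPC.Poly.const [94]
  unfold rX
  refine NPC.Poly.ite (NPC.Poly.decide_lt hh (NPC.Poly.const 4)) ?_
    (NPC.Poly.cons (NPC.Poly.const 95) hr)
  refine NPC.Poly.ite (NPC.Poly.decide_and (NPC.Poly.dec_eq (NPC.Poly.length hr)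
    (NPC.Poly.const 3)) (NPC.Poly.decide_and (NPC.Poly.dec_eq hh (NPC.Poly.const 0))
      (NPC.Poly.decide_lt g2 hn))) ?_ ?_
  · refine NPC.Poly.ite (NPC.Poly.decide_lt g1 hm)
      (NPC.Poly.cons (NPC.Poly.const 92) (NPC.Poly.tail hr)) ?_
    refine NPC.Poly.ite (NPC.Poly.decide_lt g1 hmn)
      (NPC.Poly.ite (NPC.Poly.dec_eq g1 (NPC.Poly.add hm g2)) c94 c3) ?_
    exact NPC.Poly.ite (NPC.Poly.dec_eq g1 hmn) c2 c3
  · refine NPC.Poly.ite (NPC.Poly.decide_and (NPC.Poly.dec_eq (NPC.Poly.length hr)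
      (NPC.Poly.const 2)) (NPC.Poly.decide_and (NPC.Poly.dec_eq hh (NPC.Poly.const 1))
        (NPC.Poly.decide_lt g1 hm))) (NPC.Poly.cons (NPC.Poly.const 93) (NPC.Poly.tail hr)) ?_
    exact NPC.Poly.ite (NPC.Poly.dec_eq hr (NPC.Poly.const [2])) c2 c3

theorem prowP {n i : α → ℕ} (hn : UPoly n) (hi : Poly i) :
    Poly (fun a => rowP (n a) (i a)) := by
  have k : ∀ c : ℕ, Poly (fun _ : α => c) := fun c => NPC.Poly.const c
  have r2 : Poly (fun _ : α => ([2] : Reg)) := NPC.Poly.const [2]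
  have r3 : Poly (fun _ : α => ([3] : Reg)) := NPC.Poly.const [3]
  have hn' := hn.toPoly
  have hr3 : ∀ c : ℕ, ∀ j : α → ℕ, Poly j → Poly (fun a => [c, i a, j a]) := fun c j hj =>
    NPC.Poly.cons (k c) (NPC.Poly.cons hi (NPC.Poly.cons hj (NPC.Poly.const [])))
  have hr2 : ∀ c : ℕ, Poly (fun a => [c, i a]) := fun c =>
    NPC.Poly.cons (k c) (NPC.Poly.cons hi (NPC.Poly.const []))
  have b : Poly (fun q : α × ℕ => q.1) := NPC.Poly.fst NPC.Poly.id
  have b2 : Poly (fun q : α × ℕ => q.2) := NPC.Poly.snd NPC.Poly.id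
  have hi' : Poly (fun q : α × ℕ => i q.1) := hi.comp b
  have hn2 : Poly (fun q : α × ℕ => n q.1) := hn'.comp b
  have hq3 : ∀ c : ℕ, ∀ j : α × ℕ → ℕ, Poly j → Poly (fun q : α × ℕ => [c, i q.1, j q]) :=
    fun c j hj => NPC.Poly.cons (NPC.Poly.const c) (NPC.Poly.cons hi'
      (NPC.Poly.cons hj (NPC.Poly.const [])))
  unfold rowP
  refine NPC.Poly.cons (TPM.pInstr _ (hr3 90 _ (k 0)) r2 r3) (NPC.Poly.append ?_
    (NPC.Poly.cons (TPM.pInstr _ (hr2 93) (hr2 1) (hr3 90 _ hn')) ?_))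
  · refine NPC.Poly.flatMap (F := fun a j =>
      [(⟨Op.mul, [91, i a, j], [0, i a, j], [0, i a, j]⟩ : Instr),
        ⟨Op.add, [90, i a, j + 1], [90, i a, j], [91, i a, j]⟩]) hn.range ?_
    exact NPC.Poly.cons (TPM.pInstr _ (hq3 91 _ b2) (hq3 0 _ b2) (hq3 0 _ b2))
      (NPC.Poly.cons (TPM.pInstr _ (hq3 90 _ (NPC.Poly.add b2 (NPC.Poly.const 1))) (hq3 90 _ b2)
        (hq3 91 _ b2)) (NPC.Poly.const []))
  · refine NPC.Poly.flatMap (F := fun a j =>
      [(⟨Op.div, [92, i a, j], [0, i a, j], [90, i a, n a]⟩ : Instr)]) hn.range ?_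
    exact NPC.Poly.cons (TPM.pInstr _ (hq3 92 _ b2) (hq3 0 _ b2) (hq3 90 _ hn2))
      (NPC.Poly.const [])

theorem ppreX {m n : α → ℕ} (hm : UPoly m) (hn : UPoly n) :
    Poly (fun a => preX (m a) (n a)) := by
  unfold preX
  refine NPC.Poly.cons (NPC.Poly.const _) ?_
  refine NPC.Poly.flatMap (F := fun a i => rowP (n a) i) hm.range ?_
  exact prowP (UPoly.comp (n := n) hn (NPC.Poly.fst NPC.Poly.id)) (NPC.Poly.snd NPC.Poly.id)

theorem preXq {m n : α → ℕ} (hm : UPoly m) (hn : UPoly n) :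
    Poly (fun p : α × Qry => reX (m p.1) (n p.1) p.2) := by
  have h1 := ppreX hm hn
  obtain ⟨P, hP⟩ : ∃ P : α → List Instr, P = fun a => preX (m a) (n a) := ⟨_, rfl⟩
  have eP : ∀ a, preX (m a) (n a) = P a := fun a => by rw [hP]
  rw [← hP] at h1
  unfold reX
  simp only [eP]
  have b : Poly (fun q : α × Qry => q.1) := NPC.Poly.fst NPC.Poly.id
  have b2 : Poly (fun q : α × Qry => q.2) := NPC.Poly.snd NPC.Poly.id
  have hm' : Poly (fun q : α × Qry => m q.1) := hm.toPoly.comp b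
  have hn' : Poly (fun q : α × Qry => n q.1) := hn.toPoly.comp b
  refine NPC.Poly.pair (NPC.Poly.append (h1.comp b) ?_) (prX hm' hn' (NPC.Poly.snd b2))
  refine NPC.Poly.map (F := fun q I => ren (rX (m q.1) (n q.1)) I) (NPC.Poly.fst b2) ?_
  have c : Poly (fun q : (α × Qry) × Instr => q.1) := NPC.Poly.fst NPC.Poly.id
  have c2 : Poly (fun q : (α × Qry) × Instr => q.2) := NPC.Poly.snd NPC.Poly.id
  exact pmk c2 (prX (hm'.comp c) (hn'.comp c) (pdst c2)) (prX (hm'.comp c) (hn'.comp c) (pfst c2))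
    (prX (hm'.comp c) (hn'.comp c) (psnd c2))

/-- The computation for the instance. -/
def TX (m n : ℕ) : TT Bool := mapQ (reX m n) (TAS (m + n + 1) n (sgX m n))

theorem psgX {m n : α → ℕ} (hm : UPoly m) (hn : UPoly n) : Poly (fun a => sgX (m a) (n a)) := by
  unfold sgX
  refine NPC.Poly.append ?_ ?_
  · exact (NPC.Poly.map (F := fun _ _ => true) hm.range (NPC.Poly.const true)).congr
      fun a => by simp
  · exact (NPC.Poly.map (F := fun _ _ => false) (UPoly.add hn (UPoly.const 1)).range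
      (NPC.Poly.const false)).congr fun a => by simp

/-- In polynomial time. -/
theorem pt_TXg (hO : S_OUT) (hP : S_PT) (hI : S_PTITER) (hQ : Pool.Agent.W920.FD.S_QP)
    (h4 : S_PP4) {m n : α → ℕ} (hm : UPoly m) (hn : UPoly n) :
    Pool.Agent.W920.FC.PT (fun a => TX (m a) (n a)) := by
  obtain ⟨M, hM⟩ : ∃ M : α → ℕ, M = fun a => m a + n a + 1 := ⟨_, rfl⟩
  have hMU : UPoly M := by
    rw [hM]
    exact UPoly.add (UPoly.add hm hn) (UPoly.const 1)
  obtain ⟨σ, hσ⟩ : ∃ σ : α → List Bool, σ = fun a => sgX (m a) (n a) := ⟨_, rfl⟩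
  have hσP : Poly σ := by
    rw [hσ]
    exact psgX hm hn
  have h1 := pt_TAS hO hP hI hQ h4 hMU hn hσP
  have h2 := pt_mapQ (T := fun a => TAS (M a) (n a) (σ a)) (f := fun a => reX (m a) (n a)) h1
    (preXq hm hn)
  have e : (fun a => TX (m a) (n a)) = fun a => mapQ (reX (m a) (n a)) (TAS (M a) (n a) (σ a)) := by
    funext a
    rw [hM, hσ]
    rfl
  rw [e]
  exact h2

end Pool.Agent.V8H41.MD
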