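import Pool.Agent.Y648.CS.T_PRE

/-!
# The extended matrix, in registers

For an instance `(A, b)` with `m` rows and `n` columns, the rows of the extended instance are those
of `A` (and `b`), divided by `1` plus the sum of the squares of the entries of the row of `A`; then
the negative unit vectors; then the vector with all coordinates `1`.
-/

set_option autoImplicit false
set_option linter.all false

namespace Pool.Agent.V8H41.MD

open Pool.Agent.NPC Pool.Agent.H558R2 Pool.Agent.H622R3.SM Pool.Agent.W920.FC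
open Pool.Agent.Y648.CS Pool.Agent.Y648.CS.TTUP Pool.Agent.W920.FC.TORD1

/-! ### Renaming -/

/-- The valuation. -/
noncomputable def val (V V' : Reg → ℝ) : Reg → ℝ
  | 95 :: r => V' r
  | r => V r

theorem val_ne {V V' : Reg → ℝ} {r : Reg} (h : r.headD 0 ≠ 95) : val V V' r = V r := by
  unfold val
  split
  · rename_i r'
    exact absurd rfl h
  · rfl

/-- Renaming of registers, after a program computing the new base registers. -/
theorem rel_gen {g g' : Reg → ℝ} {G : ℝ → Prop} {P : List Instr} {rho : Reg → Reg}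
    (hord : Ord baseReg P) (hwr : ∀ r ∈ Pool.Agent.W920.FC.wr P, r.headD 0 ≠ 95) {V : Reg → ℝ}
    (hVb : ∀ r ∈ baseReg, V r = g r) (hVe : ∀ I ∈ P, Eqn V I ∧ G (V I.dst))
    (hT : ∀ r ∈ baseReg, rho r ∈ baseReg ∪ Pool.Agent.W920.FC.wr P)
    (hV : ∀ r ∈ baseReg, V (rho r) = g' r) (hnb : ∀ r, r ∉ baseReg → rho r = 95 :: r)
    (q : Qry) (v : ℝ) (h : HasVal g' G q v) :
    HasVal g G (P ++ q.1.map (ren rho), rho q.2) v := by
  obtain ⟨qord, V', q1, q2, q3, q4⟩ := h
  set T : Set Reg := baseReg ∪ Pool.Agent.W920.FC.wr P with hTd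
  have hTh : ∀ r ∈ T, r.headD 0 ≠ 95 := by
    rintro r (h | h)
    · have : r.headD 0 < 4 := h
      omega
    · exact hwr r h
  have hval : ∀ r, val V V' (rho r) = V' r := by
    intro r
    by_cases hr : r ∈ baseReg
    · rw [val_ne (hTh _ (hT r hr)), q1 r hr, hV r hr]
    · rw [hnb r hr]
      rfl
  refine ⟨?_, val V V', ?_, ?_, ?_, (hval q.2).trans q4⟩
  · change Ord baseReg (P ++ q.1.map (ren rho))
    rw [ord_append]
    refine ⟨hord, ?_⟩
    refine ord_ren rho q.1 baseReg T hT ?_ ?_ qord
    · intro r hr h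
      rw [hnb r hr] at h
      exact hTh _ h rfl
    · intro r hr r' hr' h
      rw [hnb r hr, hnb r' hr'] at h
      simpa using h
  · intro r hr
    rw [val_ne (hTh r (Or.inl hr)), hVb r hr]
  · intro I hI
    change I ∈ P ++ q.1.map (ren rho) at hI
    rcases List.mem_append.1 hI with hI | hI
    · obtain ⟨f1, f2⟩ := ord_opr _ _ hord I hI
      obtain ⟨⟨e1, e2⟩, e3⟩ := hVe I hI
      rw [val_ne (hTh _ f1), val_ne (hTh _ f2), val_ne (hTh I.dst (Or.inr ⟨I, hI, rfl⟩))]
      exact ⟨e1, e2, e3⟩
    · obtain ⟨J, hJ, rfl⟩ := List.mem_map.1 hI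
      obtain ⟨e1, e2, e3⟩ := q2 J hJ
      change val V V' (rho J.dst) = J.op.eval (val V V' (rho J.fst))
        (val V V' (rho J.snd)) ∧ (J.op = Op.div → val V V' (rho J.snd) ≠ 0) ∧
        G (val V V' (rho J.dst))
      rw [hval, hval, hval]
      exact ⟨e1, e2, e3⟩
  · rcases q3 with h | ⟨J, hJ, h⟩
    · rcases hT _ h with h | ⟨I, hI, h⟩
      · exact Or.inl h
      · exact Or.inr ⟨I, List.mem_append_left _ hI, h⟩
    · right
      refine ⟨ren rho J, List.mem_append_right _ (List.mem_map.2 ⟨J, hJ, rfl⟩), ?_⟩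
      change rho J.dst = rho q.2
      rw [h]

/-! ### The program -/

/-- The program for the row `i`: the partial sums of `1` and the squares in `[90, i, j]`, the
entries divided by the sum in `[92, i, j]` and `[93, i]`. -/
def rowP (n i : ℕ) : List Instr :=
  (⟨Op.add, [90, i, 0], [2], [3]⟩ : Instr) ::
    (((List.range n).flatMap fun j =>
      [(⟨Op.mul, [91, i, j], [0, i, j], [0, i, j]⟩ : Instr),
        ⟨Op.add, [90, i, j + 1], [90, i, j], [91, i, j]⟩]) ++
    ((⟨Op.div, [93, i], [1, i], [90, i, n]⟩ : Instr) ::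
      (List.range n).flatMap fun j => [(⟨Op.div, [92, i, j], [0, i, j], [90, i, n]⟩ : Instr)]))

/-- The program. -/
def preX (m n : ℕ) : List Instr :=
  (⟨Op.sub, [94], [3], [2]⟩ : Instr) :: (List.range m).flatMap fun i => rowP n i

/-- The new names of the registers. -/
def rX (m n : ℕ) (r : Reg) : Reg :=
  if r.headD 0 < 4 then
    if r.length = 3 ∧ r.headD 0 = 0 ∧ r.getD 2 0 < n then
      if r.getD 1 0 < m then 92 :: r.tail
      else if r.getD 1 0 < m + n then (if r.getD 1 0 = m + r.getD 2 0 then [94] else [3])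
      else if r.getD 1 0 = m + n then [2] else [3]
    else if r.length = 2 ∧ r.headD 0 = 1 ∧ r.getD 1 0 < m then 93 :: r.tail
    else if r = [2] then [2] else [3]
  else 95 :: r

/-- The changed query. -/
def reX (m n : ℕ) (q : Qry) : Qry := (preX m n ++ q.1.map (ren (rX m n)), rX m n q.2)

/-- `1` plus the sum of the first `j` squares in the row `i`. -/
noncomputable def sqs (g : Reg → ℝ) (i j : ℕ) : ℝ := 1 + ∑ l ∈ Finset.range j, g [0, i, l] * g [0, i, l]

theorem sqs_pos (g : Reg → ℝ) (i j : ℕ) : 0 < sqs g i j := by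
  unfold sqs
  have : 0 ≤ ∑ l ∈ Finset.range j, g [0, i, l] * g [0, i, l] :=
    Finset.sum_nonneg fun l _ => mul_self_nonneg _
  linarith

/-- The values. -/
noncomputable def vX (n : ℕ) (g : Reg → ℝ) : Reg → ℝ
  | [90, i, j] => sqs g i j
  | [91, i, j] => g [0, i, j] * g [0, i, j]
  | [92, i, j] => g [0, i, j] / sqs g i n
  | [93, i] => g [1, i] / sqs g i n
  | [94] => -1
  | r => g r

theorem vX_base (n : ℕ) (g : Reg → ℝ) : ∀ r ∈ baseReg, vX n g r = g r := by
  intro r hr
  have h : r.headD 0 < 4 := hr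
  unfold vX
  split <;> first | rfl | (simp at h)

theorem wr_row {n i : ℕ} {r : Reg} (h : r ∈ Pool.Agent.W920.FC.wr (rowP n i)) :
    (∃ j, r = [90, i, j]) ∨ (∃ j, r = [91, i, j]) ∨ r = [93, i] ∨ ∃ j, r = [92, i, j] := by
  obtain ⟨I, hI, rfl⟩ := h
  unfold rowP at hI
  simp only [List.mem_cons, List.mem_append, List.mem_flatMap, List.mem_range, List.not_mem_nil,
    or_false] at hI
  rcases hI with rfl | ⟨j, -, rfl | rfl⟩ | rfl | ⟨j, -, rfl⟩
  · exact Or.inl ⟨_, rfl⟩
  · exact Or.inr (Or.inl ⟨_, rfl⟩)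
  · exact Or.inl ⟨_, rfl⟩
  · exact Or.inr (Or.inr (Or.inl rfl))
  · exact Or.inr (Or.inr (Or.inr ⟨_, rfl⟩))

theorem wr_row92 {n i j : ℕ} (h : j < n) : [92, i, j] ∈ Pool.Agent.W920.FC.wr (rowP n i) := by
  refine ⟨⟨Op.div, [92, i, j], [0, i, j], [90, i, n]⟩, ?_, rfl⟩
  unfold rowP
  simp only [List.mem_cons, List.mem_append, List.mem_flatMap, List.mem_range, List.not_mem_nil,
    or_false]
  exact Or.inr (Or.inr (Or.inr ⟨j, h, rfl⟩))

theorem wr_row93 {n i : ℕ} : [93, i] ∈ Pool.Agent.W920.FC.wr (rowP n i) := by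
  refine ⟨⟨Op.div, [93, i], [1, i], [90, i, n]⟩, ?_, rfl⟩
  unfold rowP
  simp only [List.mem_cons, List.mem_append, List.mem_flatMap, List.mem_range, List.not_mem_nil,
    or_false]
  exact Or.inr (Or.inr (Or.inl trivial))

theorem ord_row (n i : ℕ) (S : Set Reg) (hb : baseReg ⊆ S)
    (hS : ∀ r ∈ S, ∀ k, 90 ≤ k → k ≤ 93 → ∀ t, r ≠ k :: i :: t) : Ord S (rowP n i) := by
  have b0 : ∀ i c, ([0, i, c] : Reg) ∈ baseReg := fun i c => by simp [baseReg]
  have b1 : ∀ i, ([1, i] : Reg) ∈ baseReg := fun i => by simp [baseReg]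
  unfold rowP
  rw [ord_cons]
  refine ⟨hb TORD1.b2, hb TORD1.b3, fun h => hS _ h 90 (by norm_num) (by norm_num) _ rfl, ?_⟩
  rw [ord_append]
  constructor
  · refine ord_range _ _ _ fun j hj => ?_
    rw [ord_cons, ord_cons]
    refine ⟨Or.inl (Or.inl (hb (b0 _ _))), Or.inl (Or.inl (hb (b0 _ _))), ?_, ?_, ?_, ?_, trivial⟩
    · rintro ((h | h) | ⟨j', hj', h⟩)
      · exact hS _ h 91 (by norm_num) (by norm_num) _ rfl
      · simp at h
      · simp [TORD1.mem_wr] at h
        omega
    · left
      rcases j with _ | j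
      · exact Or.inl (Or.inr rfl)
      · exact Or.inr ⟨j, by omega, by simp [TORD1.mem_wr]⟩
    · exact Or.inr rfl
    · rintro (((h | h) | ⟨j', hj', h⟩) | h)
      · exact hS _ h 90 (by norm_num) (by norm_num) _ rfl
      · simp at h
      · simp [TORD1.mem_wr] at h
        omega
      · simp at h
  · rw [ord_cons]
    have h90 : ∀ U : Set Reg, ([90, i, n] : Reg) ∈ (S ∪ {([90, i, 0] : Reg)} ∪
        Pool.Agent.W920.FC.wr ((List.range n).flatMap fun j =>
      [(⟨Op.mul, [91, i, j], [0, i, j], [0, i, j]⟩ : Instr),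
        ⟨Op.add, [90, i, j + 1], [90, i, j], [91, i, j]⟩])) := by
      intro _
      rcases n with _ | n
      · exact Or.inl (Or.inr rfl)
      · refine Or.inr ?_
        rw [mem_wr_range]
        exact ⟨n, by omega, by simp [TORD1.mem_wr]⟩
    refine ⟨Or.inl (Or.inl (hb (b1 _))), h90 ∅, ?_, ?_⟩
    · rintro ((h | h) | h)
      · exact hS _ h 93 (by norm_num) (by norm_num) _ rfl
      · simp at h
      · rw [mem_wr_range] at h
        simp [TORD1.mem_wr] at h
    · refine ord_range _ _ _ fun j hj => ?_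
      rw [ord_cons]
      refine ⟨Or.inl (Or.inl (Or.inl (Or.inl (hb (b0 _ _))))), Or.inl (Or.inl (h90 ∅)), ?_, trivial⟩
      rintro ((((h | h) | h) | h) | ⟨j', hj', h⟩)
      · exact hS _ h 92 (by norm_num) (by norm_num) _ rfl
      · simp at h
      · rw [mem_wr_range] at h
        simp [TORD1.mem_wr] at h
      · simp at h
      · simp [TORD1.mem_wr] at h
        omega

theorem ord_preX (m n : ℕ) : Ord baseReg (preX m n) := by
  unfold preX
  rw [ord_cons]
  refine ⟨TORD1.b3, TORD1.b2, by simp [baseReg], ?_⟩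
  refine ord_range _ _ _ fun i hi => ?_
  refine ord_row n i _ (fun r hr => Or.inl (Or.inl hr)) ?_
  rintro r ((h | h) | ⟨j, hj, h⟩) k hk1 hk2 t rfl
  · have : (k :: i :: t).headD 0 < 4 := h
    simp at this
    omega
  · simp at h
  · rcases wr_row h with ⟨l, h⟩ | ⟨l, h⟩ | h | ⟨l, h⟩
    all_goals
      simp at h
      omega

theorem wr_preX {m n : ℕ} {r : Reg} (h : r ∈ Pool.Agent.W920.FC.wr (preX m n)) :
    r.headD 0 ≠ 95 := by
  unfold preX at h
  rw [wr_cons] at h
  rcases h with h | h
  · have : r = [94] := h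
    subst this
    simp
  · rw [mem_wr_range] at h
    obtain ⟨i, hi, h⟩ := h
    rcases wr_row h with ⟨l, rfl⟩ | ⟨l, rfl⟩ | rfl | ⟨l, rfl⟩ <;> simp

theorem eqn_preX (m n : ℕ) (g : Reg → ℝ) (hg : Base g) : ∀ I ∈ preX m n, Eqn (vX n g) I := by
  intro I hI
  have v2 : vX n g [2] = 1 := (vX_base n g [2] TORD1.b2).trans hg.1
  have v3 : vX n g [3] = 0 := (vX_base n g [3] TORD1.b3).trans hg.2
  have v0 : ∀ i c, vX n g [0, i, c] = g [0, i, c] := fun i c => vX_base n g _ (by simp [baseReg])
  have v1 : ∀ i, vX n g [1, i] = g [1, i] := fun i => vX_base n g _ (by simp [baseReg])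
  unfold preX at hI
  rw [List.mem_cons] at hI
  rcases hI with rfl | hI
  · refine ⟨?_, by simp⟩
    show vX n g [94] = vX n g [3] - vX n g [2]
    rw [v2, v3]
    show (-1 : ℝ) = 0 - 1
    ring
  · rw [List.mem_flatMap] at hI
    obtain ⟨i, hi, hI⟩ := hI
    unfold rowP at hI
    simp only [List.mem_cons, List.mem_append, List.mem_flatMap, List.mem_range, List.not_mem_nil,
      or_false] at hI
    rcases hI with rfl | ⟨j, -, rfl | rfl⟩ | rfl | ⟨j, -, rfl⟩
    · refine ⟨?_, by simp⟩
      show sqs g i 0 = vX n g [2] + vX n g [3]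
      rw [v2, v3]
      unfold sqs
      simp
    · refine ⟨?_, by simp⟩
      show g [0, i, j] * g [0, i, j] = vX n g [0, i, j] * vX n g [0, i, j]
      rw [v0]
    · refine ⟨?_, by simp⟩
      show sqs g i (j + 1) = sqs g i j + g [0, i, j] * g [0, i, j]
      unfold sqs
      rw [Finset.sum_range_succ]
      ring
    · refine ⟨?_, fun _ => (sqs_pos g i n).ne'⟩
      show g [1, i] / sqs g i n = vX n g [1, i] / sqs g i n
      rw [v1]
    · refine ⟨?_, fun _ => (sqs_pos g i n).ne'⟩
      show g [0, i, j] / sqs g i n = vX n g [0, i, j] / sqs g i n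
      rw [v0]

/-! ### The extended instance -/

variable {m n : ℕ}

/-- `1` plus the sum of the squares in the row. -/
noncomputable def sI (A : Fin m → Fin n → ℝ) (i : Fin m) : ℝ := 1 + ∑ j, A i j * A i j

theorem sI_pos (A : Fin m → Fin n → ℝ) (i : Fin m) : 0 < sI A i := by
  unfold sI
  have : 0 ≤ ∑ j, A i j * A i j := Finset.sum_nonneg fun j _ => mul_self_nonneg _
  linarith

/-- The extended matrix. -/
noncomputable def AX (A : Fin m → Fin n → ℝ) : Fin (m + n + 1) → Fin n → ℝ := fun i j =>
  if h : (i : ℕ) < m then A ⟨i, h⟩ j / sI A ⟨i, h⟩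
  else if (i : ℕ) < m + n then (if (i : ℕ) = m + j then -1 else 0) else 1

/-- The extended right-hand side. -/
noncomputable def bX (A : Fin m → Fin n → ℝ) (b : Fin m → ℝ) : Fin (m + n + 1) → ℝ := fun i =>
  if h : (i : ℕ) < m then b ⟨i, h⟩ / sI A ⟨i, h⟩ else 0

theorem sqs_start (A : Fin m → Fin n → ℝ) (b : Fin m → ℝ) (i : Fin m) :
    sqs (start A b) i n = sI A i := by
  unfold sqs sI
  congr 1
  rw [Finset.sum_range]
  refine Finset.sum_congr rfl fun j _ => ?_
  have : start A b [0, (i : ℕ), (j : ℕ)] = A i j := by simp [start]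
  rw [this]

theorem start_none {A : Fin m → Fin n → ℝ} {b : Fin m → ℝ} {r : Reg}
    (h0 : ¬ (r.length = 3 ∧ r.headD 0 = 0 ∧ r.getD 1 0 < m ∧ r.getD 2 0 < n))
    (h1 : ¬ (r.length = 2 ∧ r.headD 0 = 1 ∧ r.getD 1 0 < m)) (h2 : r ≠ [2]) :
    start A b r = 0 := by
  unfold start
  split
  · rename_i i j
    rw [dif_neg]
    rintro ⟨h3, h4⟩
    exact h0 ⟨rfl, rfl, h3, h4⟩
  · rename_i i
    rw [dif_neg]
    intro h3
    exact h1 ⟨rfl, rfl, h3⟩
  · exact absurd rfl h2
  · rfl

theorem rX_mem (r : Reg) (hr : r ∈ baseReg) :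
    rX m n r ∈ baseReg ∪ Pool.Agent.W920.FC.wr (preX m n) := by
  have h' : r.headD 0 < 4 := hr
  have hw : ∀ i < m, ∀ r, r ∈ Pool.Agent.W920.FC.wr (rowP n i) →
      r ∈ Pool.Agent.W920.FC.wr (preX m n) := by
    intro i hi r h
    unfold preX
    rw [wr_cons]
    right
    rw [mem_wr_range]
    exact ⟨i, hi, h⟩
  unfold rX
  rw [if_pos h']
  split_ifs with h1 h2 h3 h4 h5 h6 h7
  · right
    obtain ⟨ha, hb, hc⟩ := h1
    have : r = [0, r.getD 1 0, r.getD 2 0] := by
      match r, ha, hb with
      | [a, b, c], _, h2 =>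
        have : a = 0 := h2
        subst this
        rfl
    rw [this]
    exact hw _ h2 _ (wr_row92 hc)
  · right
    unfold preX
    rw [wr_cons]
    exact Or.inl rfl
  · exact Or.inl TORD1.b3
  · exact Or.inl TORD1.b2
  · exact Or.inl TORD1.b3
  · right
    obtain ⟨ha, hb, hc⟩ := h6
    have : r = [1, r.getD 1 0] := by
      match r, ha, hb with
      | [a, b], _, h2 =>
        have : a = 1 := h2
        subst this
        rfl
    rw [this]
    exact hw _ hc _ wr_row93
  · exact Or.inl TORD1.b2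
  · exact Or.inl TORD1.b3

theorem rX_not (r : Reg) (hr : r ∉ baseReg) : rX m n r = 95 :: r := by
  have h' : ¬ r.headD 0 < 4 := hr
  unfold rX
  rw [if_neg h']

theorem rX_val (A : Fin m → Fin n → ℝ) (b : Fin m → ℝ) (r : Reg) (hr : r ∈ baseReg) :
    vX n (start A b) (rX m n r) = start (AX A) (bX A b) r := by
  have h' : r.headD 0 < 4 := hr
  have v2 : vX n (start A b) [2] = 1 := rfl
  have v3 : vX n (start A b) [3] = 0 := rfl
  unfold rX
  rw [if_pos h']
  by_cases h1 : r.length = 3 ∧ r.headD 0 = 0 ∧ r.getD 2 0 < n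
  · rw [if_pos h1]
    obtain ⟨ha, hb, hc⟩ := h1
    obtain ⟨i, j, rfl⟩ : ∃ i j, r = [0, i, j] := by
      match r, ha, hb with
      | [a, b, c], _, h2 =>
        have : a = 0 := h2
        subst this
        exact ⟨b, c, rfl⟩
    have hj : j < n := hc
    show vX n (start A b) (if i < m then 92 :: [i, j] else if i < m + n then
      (if i = m + j then [94] else [3]) else if i = m + n then [2] else [3]) = _
    have hst : start (AX A) (bX A b) [0, i, j] = if h : i < m + n + 1 then AX A ⟨i, h⟩ ⟨j, hj⟩ else 0 := by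
      unfold start
      by_cases h : i < m + n + 1
      · simp [h, hj]
      · simp [h]
    rw [hst]
    by_cases h2 : i < m
    · rw [if_pos h2, dif_pos (by omega)]
      unfold AX
      rw [dif_pos h2]
      show start A b [0, i, j] / sqs (start A b) i n = _
      have e1 := sqs_start A b ⟨i, h2⟩
      rw [e1]
      congr 1
      simp [start, h2, hj]
    · rw [if_neg h2]
      by_cases h3 : i < m + n
      · rw [if_pos h3, dif_pos (by omega)]
        unfold AX
        rw [dif_neg h2, if_pos h3]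
        by_cases h4 : i = m + j
        · rw [if_pos h4, if_pos h4]
          rfl
        · rw [if_neg h4, if_neg h4]
          rfl
      · rw [if_neg h3]
        by_cases h4 : i = m + n
        · rw [if_pos h4, dif_pos (by omega)]
          unfold AX
          rw [dif_neg h2, if_neg h3]
          rfl
        · rw [if_neg h4, dif_neg (by omega)]
          rfl
  · rw [if_neg h1]
    by_cases h2 : r.length = 2 ∧ r.headD 0 = 1 ∧ r.getD 1 0 < m
    · rw [if_pos h2]
      obtain ⟨ha, hb, hc⟩ := h2
      obtain ⟨i, rfl⟩ : ∃ i, r = [1, i] := by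
        match r, ha, hb with
        | [a, b], _, h2 =>
          have : a = 1 := h2
          subst this
          exact ⟨b, rfl⟩
      have hi : i < m := hc
      show start A b [1, i] / sqs (start A b) i n = _
      have e1 := sqs_start A b ⟨i, hi⟩
      rw [e1]
      have e2 : start (AX A) (bX A b) [1, i] = bX A b ⟨i, by omega⟩ := by
        have : i < m + n + 1 := by omega
        simp [start, this]
      rw [e2]
      unfold bX
      rw [dif_pos hi]
      congr 1
      simp [start, hi]
    · rw [if_neg h2]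
      by_cases h3 : r = [2]
      · rw [if_pos h3, h3]
        rfl
      · rw [if_neg h3]
        rw [v3]
        by_cases h4 : r.length = 2 ∧ r.headD 0 = 1 ∧ r.getD 1 0 < m + n + 1
        · obtain ⟨ha, hb, hc⟩ := h4
          obtain ⟨i, rfl⟩ : ∃ i, r = [1, i] := by
            match r, ha, hb with
            | [a, b], _, h2 =>
              have : a = 1 := h2
              subst this
              exact ⟨b, rfl⟩
          have hi : i < m + n + 1 := hc
          have hi2 : ¬ i < m := fun h => h2 ⟨rfl, rfl, h⟩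
          have e2 : start (AX A) (bX A b) [1, i] = bX A b ⟨i, hi⟩ := by
            simp [start, hi]
          rw [e2]
          unfold bX
          rw [dif_neg hi2]
        · refine (start_none ?_ h4 h3).symm
          rintro ⟨ha, hb, hc, hd⟩
          exact h1 ⟨ha, hb, hd⟩

/-- The changed query has the value of the query on the extended instance. -/
theorem hasVal_reX {G : ℝ → Prop} (A : Fin m → Fin n → ℝ) (b : Fin m → ℝ)
    (hG : ∀ I ∈ preX m n, G (vX n (start A b) I.dst)) (q : Qry) (v : ℝ)
    (h : HasVal (start (AX A) (bX A b)) G q v) : HasVal (start A b) G (reX m n q) v := by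
  refine rel_gen (ord_preX m n) (fun r hr => wr_preX hr) (vX_base n _)
    (fun I hI => ⟨eqn_preX m n _ ⟨rfl, rfl⟩ I hI, hG I hI⟩) (fun r hr => rX_mem r hr)
    (fun r hr => rX_val A b r hr) (fun r hr => rX_not r hr) q v h

theorem len_row (n i : ℕ) : (rowP n i).length = 3 * n + 2 := by
  have h1 : ∀ (k : ℕ) (B : ℕ → List Instr) (c : ℕ), (∀ j, (B j).length = c) →
      ((List.range k).flatMap B).length = k * c := by
    intro k B c h
    rw [List.length_flatMap]
    have : ((List.range k).map fun a => (B a).length) = (List.range k).map fun _ => c :=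
      List.map_congr_left fun a _ => h a
    rw [this, List.map_const', List.sum_replicate, List.length_range, smul_eq_mul]
  unfold rowP
  rw [List.length_cons, List.length_append, List.length_cons, h1 n _ 2 (fun _ => rfl),
    h1 n _ 1 (fun _ => rfl)]
  ring

theorem len_preX (m n : ℕ) : (preX m n).length = m * (3 * n + 2) + 1 := by
  unfold preX
  rw [List.length_cons, List.length_flatMap]
  have : ((List.range m).map fun a => (rowP n a).length) = (List.range m).map fun _ => 3 * n + 2 :=
    List.map_congr_left fun a _ => len_row n a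
  rw [this, List.map_const', List.sum_replicate, List.length_range, smul_eq_mul]

end Pool.Agent.V8H41.MD
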