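import Pool.Agent.V8H41.MD.Main
import Pool.Agent.Y648.CW.T_SPAN
import Pool.Agent.Y648.CX.T_RAT

/-!
# Rational matrices
-/

set_option autoImplicit false

namespace Pool.Agent.V8H41.MD

open Finset Matrix Pool.Agent.H558R2 Pool.Agent.H622R3.SM Pool.Agent.Y648.CS

/-- Few scales of all circuits. -/
theorem nscales_of {r m n : ℕ} {A : Matrix (Fin m) (Fin n) ℝ} (h : W.Scales r A) :
    NScales r A := by
  intro i j
  obtain ⟨S, h1, h2, h3⟩ := h i j
  refine ⟨S, h1, h2, fun C hC hi hj => ?_⟩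
  obtain ⟨s, hs, h4, h5⟩ := h3 C ⟨hC.2.1, hC.2.2.1, hC.2.2.2⟩ hi hj
  have hi0 := hC.1 i
  have hj0 := hC.1 j
  rw [abs_of_nonneg (div_nonneg hi0 hj0)] at h4 h5
  exact ⟨s, hs, h4, h5⟩

/-- Rational matrices. -/
theorem rat_ext : ∃ q : Polynomial ℕ, ∀ (m n : ℕ) (A : Matrix (Fin m) (Fin n) ℚ),
    NScales (q.eval (m + n + inputLength A 0)) (ext (Matrix.of fun i j => ((A i j : ℚ) : ℝ))) := by
  obtain ⟨q, hq⟩ := W.t_SPAN
  obtain ⟨q', hq'⟩ := V.t_RAT
  refine ⟨q.comp (2 * Polynomial.X + 2 + q'.comp (3 * (Polynomial.X * Polynomial.X) +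
    6 * Polynomial.X + 2)), fun m n A => ?_⟩
  obtain ⟨A1, hA1⟩ : ∃ A1 : Matrix (Fin (m + n + 1)) (Fin n) ℚ, A1 = fun d k =>
    (Matrix.fromRows A (Matrix.fromRows (1 : Matrix (Fin n) (Fin n) ℚ)
      (Matrix.of fun (_ : Unit) (_ : Fin n) => (-1 : ℚ)))) (eX m n d) k := ⟨_, rfl⟩
  have hb0 : bitLength 0 = 2 := by
    unfold bitLength
    simp
  have hb1 : bitLength 1 = 3 := by
    unfold bitLength
    simp
  have hb2 : bitLength (-1) = 3 := by
    unfold bitLength
    simp
  have hlen : inputLength A1 0 ≤ 3 * ((m + n + inputLength A 0) * (m + n + inputLength A 0)) +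
      6 * (m + n + inputLength A 0) + 2 := by
    have h1 : ∑ d, ∑ k, bitLength (A1 d k) = ∑ i, ∑ k, bitLength (A i k) +
        (∑ j : Fin n, ∑ k, bitLength ((1 : Matrix (Fin n) (Fin n) ℚ) j k) +
          ∑ k : Fin n, bitLength (-1)) := by
      rw [hA1, ← Equiv.sum_comp (eX m n).symm, Fintype.sum_sum_type, Fintype.sum_sum_type]
      simp only [Equiv.apply_symm_apply, fromRows_apply_inl, fromRows_apply_inr, univ_unique,
        sum_singleton, Matrix.of_apply]
    have h2 : ∑ j : Fin n, ∑ k, bitLength ((1 : Matrix (Fin n) (Fin n) ℚ) j k) ≤ n * (n * 3) := by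
      calc ∑ j : Fin n, ∑ k, bitLength ((1 : Matrix (Fin n) (Fin n) ℚ) j k) ≤
          ∑ _j : Fin n, ∑ _k : Fin n, 3 := by
            refine sum_le_sum fun j _ => sum_le_sum fun k _ => ?_
            rw [Matrix.one_apply]
            split_ifs
            · exact hb1.le
            · rw [hb0]; norm_num
        _ = _ := by simp
    have h3 : ∑ i, ∑ k, bitLength (A i k) ≤ inputLength A 0 := Nat.le_add_right _ _
    have h4 : inputLength A1 0 = ∑ d, ∑ k, bitLength (A1 d k) + (m + n + 1) * 2 := by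
      unfold inputLength
      congr 1
      simp [hb0]
    rw [h4, h1]
    simp only [hb2, sum_const, card_univ, Fintype.card_fin, smul_eq_mul]
    have h5 : n * n ≤ (m + n + inputLength A 0) * (m + n + inputLength A 0) :=
      Nat.mul_le_mul (by omega) (by omega)
    have h6 : n * (n * 3) = 3 * (n * n) := by ring
    omega
  have h1 := nscales_of (hq (m + n + 1) n 1 _ _ (hq' (m + n + 1) n A1))
  refine NScales.mono (r := q.eval (m + n + 1 + n + 1 + q'.eval (inputLength A1 0))) ?_ ?_
  · simp only [Polynomial.eval_comp, Polynomial.eval_add, Polynomial.eval_mul, Polynomial.eval_X,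
      Polynomial.eval_ofNat]
    refine pe_mono q ?_
    have h2 := pe_mono q' hlen
    omega
  · refine NScales.scale (eX m n).symm (fun _ => 1) (fun _ => one_pos) (fun d k => ?_) h1
    rw [hA1, one_mul, Matrix.of_apply]
    simp only [Equiv.apply_symm_apply]
    rcases d with d | d | d
    · simp [ext]
    · simp only [ext, fromRows_apply_inr, fromRows_apply_inl, Matrix.one_apply]
      split_ifs <;> simp
    · simp [ext]

end Pool.Agent.V8H41.MD
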