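import Pool.Agent.V8H41.MD.Defs
import Pool.Agent.V8H41.MD.Beg
import Pool.Agent.V8H41.MD.Pre

/-!
# The scales in both phases, and the extended instance
-/

set_option autoImplicit false
set_option linter.all false

namespace Pool.Agent.V8H41.MD

open Pool.Agent.NPC Pool.Agent.H558R2 Pool.Agent.H622R3.SM Pool.Agent.Y648.CS Pool.Agent.Y529.CS

section phases

variable {M n : ℕ} (σ : List Bool) (A : Fin M → Fin n → ℝ) (b : Fin M → ℝ)

theorem vm {N : Fin M → Fin n → ℝ} {u : Fin M → ℝ} (h : ∀ i, ∑ d, N d i * u d = 0) :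
    Matrix.vecMul u (N : Matrix (Fin M) (Fin n) ℝ) = 0 := by
  funext i
  show ∑ d, u d * N d i = 0
  rw [← h i]
  exact Finset.sum_congr rfl fun d _ => mul_comm _ _

theorem vm' {N : Fin M → Fin n → ℝ} {u : Fin M → ℝ}
    (h : Matrix.vecMul u (N : Matrix (Fin M) (Fin n) ℝ) = 0) (i : Fin n) :
    ∑ d, N d i * u d = 0 := by
  have h1 : ∑ d, u d * N d i = 0 := congrFun h i
  rw [← h1]
  exact Finset.sum_congr rfl fun d _ => mul_comm _ _

theorem scX0 {r : ℕ} (hA : NScales r (sA σ A : Matrix (Fin M) (Fin n) ℝ)) :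
    ScOn r (Lsp M n 0 (start A b) (drS M σ)) (Xc M (drS M σ)) (M + M + 1) := by
  intro i hi j hj
  obtain ⟨d, rfl⟩ := (mem_XcS σ i).1 hi
  obtain ⟨e, rfl⟩ := (mem_XcS σ j).1 hj
  obtain ⟨S, hS1, hS2, hS3⟩ := hA d e
  refine ⟨S, hS1, hS2, ?_⟩
  intro v hv hvi hvj
  obtain ⟨hvL, hv0, hvn, hvm⟩ := hv
  rw [mem_LspS] at hvL
  obtain ⟨hL1, hL2, hL3⟩ := hvL
  refine hS3 (uu σ v) ⟨uu_nonneg σ hv0, ?_, vm hL1, ?_⟩ hvi hvj
  · intro h0
    rw [hvn, h0] at hL3
    simp at hL3
  · intro D hD hs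
    obtain ⟨l, hl⟩ := hvm (mkS σ D (∑ d : Fin M, (if sg σ d = true then 0 else D d)) (∑ d, D d)) (by
      rw [mem_LspS, uu_mkS, mkS_q, mkS_nu]
      exact ⟨vm' hD, rfl, rfl⟩) (by
      intro c hc hvc
      obtain ⟨f, rfl⟩ := (mem_XcS σ c).1 hc
      rw [mkS_ps]
      exact hs f hvc)
    refine ⟨l, ?_⟩
    funext f
    have h1 := hl (ps M σ f) ((mem_XcS σ _).2 ⟨f, rfl⟩)
    rw [mkS_ps] at h1
    exact h1

theorem scX1 {r : ℕ} (hA : NScales r (sA σ A : Matrix (Fin M) (Fin n) ℝ)) (B : List Bool) :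
    ScOn r (Lsp M n 1 (start A b) (dr1 M (mask M σ B))) (Xc M (dr1 M (mask M σ B)))
      (M + M + 1) := by
  obtain ⟨B', hB'⟩ : ∃ B', B' = mask M σ B := ⟨_, rfl⟩
  rw [← hB']
  have hBσ : ∀ c, B'.getD c false = true → c < M ∧ sg σ c = true ∧ B.getD c false = true := by
    intro c hc
    rw [hB'] at hc
    exact (mask_getD M σ B c).1 hc
  have hsw : ∀ (u : Fin M → ℝ), (∀ c : Fin M, ¬ B'.getD c false = true → u c = 0) → ∀ i : Fin n,
      ∑ d, sA σ A d i * u d = ∑ d, A d i * u d := by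
    intro u hu i
    refine Finset.sum_congr rfl fun d _ => ?_
    unfold sA
    split_ifs with h
    · rfl
    · rw [hu d fun h' => h (hBσ d h').2.1]
      ring
  have hrs0 : ∀ (x : ℕ → ℝ) (c : Fin M), ¬ B'.getD c false = true → rs B' x c = 0 := by
    intro x c hc
    unfold rs
    rw [if_neg hc]
  intro i hi j hj
  rw [mem_Xc1] at hi hj
  obtain ⟨S, hS1, hS2, hS3⟩ := hA ⟨i, hi.1⟩ ⟨j, hj.1⟩
  refine ⟨S, hS1, hS2, ?_⟩
  intro v hv hvi hvj
  obtain ⟨hvL, hv0, hvn, hvm⟩ := hv
  rw [mem_Lsp1] at hvL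
  obtain ⟨hL1, hL2, hL3⟩ := hvL
  have hCi : rs B' v (⟨i, hi.1⟩ : Fin M) = v i := by
    unfold rs
    rw [if_pos hi.2]
  have hCj : rs B' v (⟨j, hj.1⟩ : Fin M) = v j := by
    unfold rs
    rw [if_pos hj.2]
  have hcirc : NCirc (sA σ A : Matrix (Fin M) (Fin n) ℝ) (rs B' v) := by
    refine ⟨?_, fun h => hvi (by rw [← hCi, h]; rfl), ?_, ?_⟩
    · intro c
      unfold rs
      split_ifs with h
      · exact hv0 c ((mem_Xc1 M B' c).2 ⟨c.2, h⟩)
      · exact le_rfl
    · refine vm fun i => ?_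
      rw [hsw _ (hrs0 v), hL1 i]
    · intro D hD hsup
      have hDB : ∀ c : Fin M, ¬ B'.getD c false = true → D c = 0 := fun c hc =>
        hsup c (hrs0 v c hc)
      have hD' : ∀ i, ∑ c, A c i * D c = 0 := by
        intro i
        rw [← hsw _ hDB]
        exact vm' hD i
      have hz : rs B' (mk2 D 0 (- ∑ c, b c * D c) (∑ c, D c)) = D := by
        funext c
        unfold rs
        split_ifs with h
        · rw [mk2_l]
        · exact (hsup c (by unfold rs; rw [if_neg h])).symm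
      obtain ⟨l, hl⟩ := hvm (mk2 D 0 (- ∑ c, b c * D c) (∑ c, D c))
        (by
          rw [mem_Lsp1, hz]
          exact ⟨hD', mk2_q _ _ _ _, mk2_nu _ _ _ _⟩)
        (by
          intro d hd hvd
          rw [mem_Xc1] at hd
          have h1 : mk2 D 0 (- ∑ c, b c * D c) (∑ c, D c) d = D ⟨d, hd.1⟩ :=
            mk2_l D 0 _ _ (⟨d, hd.1⟩ : Fin M)
          rw [h1]
          apply hsup
          unfold rs
          rw [if_pos hd.2]
          exact hvd)
      refine ⟨l, ?_⟩
      funext c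
      show D c = l * rs B' v c
      by_cases h : B'.getD c false = true
      · have h1 := hl c (by rw [mem_Xc1]; exact ⟨c.2, h⟩)
        rw [mk2_l] at h1
        rw [h1]
        unfold rs
        rw [if_pos h]
      · rw [hrs0 v c h, hDB c h, mul_zero]
  obtain ⟨s, hs, hs1, hs2⟩ := hS3 _ hcirc (by rw [hCi]; exact hvi) (by rw [hCj]; exact hvj)
  rw [hCi, hCj] at hs1 hs2
  exact ⟨s, hs, hs1, hs2⟩

end phases

/-! ### The extended instance -/

/-- The signs of the rows of the extended instance. -/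
def sgX (m n : ℕ) : List Bool := List.replicate m true ++ List.replicate (n + 1) false

theorem sg_X {m n : ℕ} (c : ℕ) : sg (sgX m n) c = decide (c < m) := by
  unfold sg sgX
  by_cases h : c < m
  · rw [List.getD_append _ _ _ _ (by simpa using h), List.getD_eq_getElem _ _ (by simpa using h)]
    simp [h]
  · rw [List.getD_append_right _ _ _ _ (by simpa using h)]
    simp only [h, decide_false]
    by_cases h2 : c - (List.replicate m true).length < n + 1
    · rw [List.getD_eq_getElem _ _ (by simpa using h2)]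
      simp
    · rw [List.getD_eq_default _ _ (by simp at h2 ⊢; omega)]

variable {m n : ℕ}

/-- The rows of the extended instance. -/
def eX (m n : ℕ) : Fin (m + n + 1) ≃ Fin m ⊕ (Fin n ⊕ Unit) where
  toFun d := if h : (d : ℕ) < m then Sum.inl ⟨d, h⟩
    else if h' : (d : ℕ) < m + n then Sum.inr (Sum.inl ⟨d - m, by omega⟩) else Sum.inr (Sum.inr ())
  invFun x := match x with
    | Sum.inl i => ⟨i, by omega⟩
    | Sum.inr (Sum.inl j) => ⟨m + j, by omega⟩
    | Sum.inr (Sum.inr _) => ⟨m + n, by omega⟩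
  left_inv d := by
    by_cases h : (d : ℕ) < m
    · simp [h]
    · by_cases h' : (d : ℕ) < m + n
      · simp only [h, h', dif_neg, dif_pos, not_false_eq_true]
        apply Fin.ext
        show m + (d - m) = (d : ℕ)
        omega
      · simp only [h, h', dif_neg, not_false_eq_true]
        apply Fin.ext
        show m + n = (d : ℕ)
        have := d.2
        omega
  right_inv x := by
    rcases x with i | j | u
    · simp
    · have h : ¬ (m + (j : ℕ) < m) := by omega
      have h' : m + (j : ℕ) < m + n := by omega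
      simp only [h, h', dif_neg, dif_pos, not_false_eq_true]
      congr 2
      apply Fin.ext
      show m + (j : ℕ) - m = j
      omega
    · simp

theorem eX1 {d : Fin (m + n + 1)} (h : (d : ℕ) < m) : eX m n d = Sum.inl ⟨d, h⟩ := by
  simp [eX, h]

theorem eX2 {d : Fin (m + n + 1)} (h : ¬ (d : ℕ) < m) (h' : (d : ℕ) < m + n) :
    eX m n d = Sum.inr (Sum.inl ⟨d - m, by omega⟩) := by
  simp [eX, h, h']

theorem eX3 {d : Fin (m + n + 1)} (h : ¬ (d : ℕ) < m) (h' : ¬ (d : ℕ) < m + n) :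
    eX m n d = Sum.inr (Sum.inr ()) := by
  simp [eX, h, h']

theorem sA_X (A : Matrix (Fin m) (Fin n) ℝ) (d : Fin (m + n + 1)) (k : Fin n) :
    sA (sgX m n) (AX A) d k =
      (if h : (d : ℕ) < m then (sI A ⟨d, h⟩)⁻¹ else 1) * ext A (eX m n d) k := by
  unfold sA
  rw [sg_X]
  by_cases h : (d : ℕ) < m
  · rw [dif_pos h, if_pos (by simpa using h)]
    rw [eX1 h]
    unfold AX ext
    rw [dif_pos h, Matrix.fromRows_apply_inl, div_eq_inv_mul]
  · rw [dif_neg h, if_neg (by simpa using h), one_mul]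
    unfold AX
    rw [dif_neg h]
    by_cases h' : (d : ℕ) < m + n
    · rw [eX2 h h', if_pos h']
      unfold ext
      rw [Matrix.fromRows_apply_inr, Matrix.fromRows_apply_inl, Matrix.one_apply]
      by_cases hk : (d : ℕ) = m + k
      · rw [if_pos hk, if_pos (by apply Fin.ext; show (d : ℕ) - m = k; omega)]
        ring
      · rw [if_neg hk, if_neg (by
          intro he
          apply hk
          have : (d : ℕ) - m = k := congrArg Fin.val he
          omega)]
        ring
    · rw [eX3 h h', if_neg h']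
      unfold ext
      rw [Matrix.fromRows_apply_inr, Matrix.fromRows_apply_inr]
      rfl

theorem scales_X {r : ℕ} {A : Matrix (Fin m) (Fin n) ℝ} (hA : NScales r (ext A)) :
    NScales r (sA (sgX m n) (AX A) : Matrix (Fin (m + n + 1)) (Fin n) ℝ) := by
  refine NScales.scale (eX m n) (fun d => if h : (d : ℕ) < m then (sI A ⟨d, h⟩)⁻¹ else 1)
    ?_ (sA_X A) hA
  intro d
  split_ifs with h
  · exact inv_pos.2 (sI_pos A _)
  · exact one_pos

theorem abs_quot (A : Fin m → Fin n → ℝ) (i : Fin m) (j : Fin n) : |A i j / sI A i| ≤ 1 := by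
  rw [abs_div, abs_of_pos (sI_pos A i), div_le_one (sI_pos A i)]
  unfold sI
  have h1 : A i j * A i j ≤ ∑ l, A i l * A i l :=
    Finset.single_le_sum (f := fun l => A i l * A i l) (fun l _ => mul_self_nonneg _)
      (Finset.mem_univ j)
  have h2 : |A i j| ≤ 1 + A i j * A i j := by
    rcases abs_cases (A i j) with ⟨h, _⟩ | ⟨h, _⟩ <;> rw [h] <;> nlinarith [sq_nonneg (A i j - 1), sq_nonneg (A i j + 1)]
  linarith

theorem lo_X (A : Fin m → Fin n → ℝ) : Lo (sgX m n) (AX A) := by
  obtain ⟨δ, hδ⟩ : ∃ δ : ℝ, δ = 1 / ((2 * m + 1) * (n + 1)) := ⟨_, rfl⟩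
  have hδ0 : 0 < δ := by
    rw [hδ]
    positivity
  have hδ1 : δ * ((2 * m + 1) * (n + 1)) = 1 := by
    rw [hδ]
    field_simp
  have hdl : dlR (m + n + 1) n ≤ δ := by
    have h1 : (2 * m + 1) * (n + 1) ≤ 2 ^ (2 * m + 1 + (n + 1)) := by
      rw [pow_add]
      exact Nat.mul_le_mul Nat.lt_two_pow_self.le Nat.lt_two_pow_self.le
    have h2 : 2 * m + 1 + (n + 1) ≤ 32 * (cD (m + n + 1) n * cD (m + n + 1) n) := by
      have h3 : 2 * m + 1 + (n + 1) ≤ cD (m + n + 1) n := by
        unfold cD Pool.Agent.W920.FC.cK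
        omega
      have h4 : cD (m + n + 1) n ≤ cD (m + n + 1) n * cD (m + n + 1) n :=
        Nat.le_mul_of_pos_left _ (by have := cD_ge (m + n + 1) n; omega)
      omega
    have h3 : (((2 * m + 1) * (n + 1) : ℕ) : ℝ) ≤
        2 ^ (32 * (cD (m + n + 1) n * cD (m + n + 1) n)) := by
      exact_mod_cast h1.trans (Nat.pow_le_pow_right (by norm_num) h2)
    push_cast at h3
    unfold dlR
    rw [hδ, one_div, inv_pow, one_div]
    exact inv_anti₀ (by positivity) h3
  set u : Fin (m + n + 1) → ℝ := fun d =>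
    if h0 : (d : ℕ) < m then δ else if h : (d : ℕ) < m + n then
      δ * ((m + 1) - ∑ c : Fin m, A c ⟨d - m, by omega⟩ / sI A c) else δ * (m + 1) with hu
  have hsum : ∀ F : Fin (m + n + 1) → ℝ, ∑ d, F d = ∑ i : Fin m, F ⟨i, by omega⟩ +
      (∑ j : Fin n, F ⟨m + j, by omega⟩ + F ⟨m + n, by omega⟩) := by
    intro F
    rw [← Equiv.sum_comp (eX m n).symm, Fintype.sum_sum_type, Fintype.sum_sum_type]
    simp only [Finset.univ_unique, Finset.sum_singleton]
    rfl
  have hu1 : ∀ i : Fin m, u ⟨i, by omega⟩ = δ := by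
    intro i
    simp only [hu]
    rw [dif_pos i.2]
  have hu2 : ∀ j : Fin n, u ⟨m + j, by omega⟩ = δ * ((m + 1) - ∑ c : Fin m, A c j / sI A c) := by
    intro j
    simp only [hu]
    rw [dif_neg (by omega), dif_pos (by omega)]
    congr 2
    refine Finset.sum_congr rfl fun c _ => ?_
    congr 2
    apply Fin.ext
    show m + (j : ℕ) - m = j
    omega
  have hu3 : u ⟨m + n, by omega⟩ = δ * (m + 1) := by
    simp only [hu]
    rw [dif_neg (by omega), dif_neg (by omega)]
  have habs : ∀ j : Fin n, |∑ c : Fin m, A c j / sI A c| ≤ m := by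
    intro j
    calc |∑ c : Fin m, A c j / sI A c| ≤ ∑ c : Fin m, |A c j / sI A c| :=
          Finset.abs_sum_le_sum_abs _ _
      _ ≤ ∑ c : Fin m, (1 : ℝ) := Finset.sum_le_sum fun c _ => abs_quot A c j
      _ = m := by simp
  have hlow : ∀ d, δ ≤ u d := by
    intro d
    simp only [hu]
    split_ifs with h1 h2
    · exact le_rfl
    · have h3 := abs_le.1 (habs ⟨d - m, by omega⟩)
      nlinarith [h3.2]
    · have : (0 : ℝ) ≤ m := Nat.cast_nonneg m
      nlinarith
  refine ⟨u, ?_, ?_, fun d => hdl.trans (hlow d)⟩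
  · intro k
    rw [hsum]
    have e1 : ∀ i : Fin m, sA (sgX m n) (AX A) ⟨i, by omega⟩ k * u ⟨i, by omega⟩ =
        δ * (A i k / sI A i) := by
      intro i
      rw [hu1]
      unfold sA AX
      rw [sg_X, if_pos (by simp), dif_pos i.2]
      ring
    have e2 : ∀ j : Fin n, sA (sgX m n) (AX A) ⟨m + j, by omega⟩ k * u ⟨m + j, by omega⟩ =
        if j = k then u ⟨m + j, by omega⟩ else 0 := by
      intro j
      unfold sA AX
      rw [sg_X, if_neg (by simp), dif_neg (by simp), if_pos (by simp)]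
      by_cases hjk : j = k
      · rw [if_pos (by rw [hjk]), if_pos hjk]
        ring
      · rw [if_neg (by
          intro h
          apply hjk
          apply Fin.ext
          have : m + (j : ℕ) = m + k := h
          omega), if_neg hjk]
        ring
    have e3 : sA (sgX m n) (AX A) ⟨m + n, by omega⟩ k * u ⟨m + n, by omega⟩ =
        - (δ * (m + 1)) := by
      rw [hu3]
      unfold sA AX
      rw [sg_X, if_neg (by simp), dif_neg (by simp), if_neg (by simp)]
      ring
    rw [Finset.sum_congr rfl fun i _ => e1 i, Finset.sum_congr rfl fun j _ => e2 j, e3,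
      Finset.sum_ite_eq' Finset.univ k, if_pos (Finset.mem_univ _), hu2, ← Finset.mul_sum]
    ring
  · rw [hsum]
    have f1 : ∑ i : Fin m, u ⟨i, by omega⟩ = m * δ := by
      rw [Finset.sum_congr rfl fun i _ => hu1 i]
      simp
    have f2 : ∑ j : Fin n, u ⟨m + j, by omega⟩ ≤ n * (δ * (2 * m + 1)) := by
      calc ∑ j : Fin n, u ⟨m + j, by omega⟩ ≤ ∑ j : Fin n, δ * (2 * m + 1) := by
            refine Finset.sum_le_sum fun j _ => ?_
            rw [hu2]
            have h3 := abs_le.1 (habs j)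
            apply mul_le_mul_of_nonneg_left _ hδ0.le
            linarith [h3.1]
        _ = n * (δ * (2 * m + 1)) := by simp
    rw [f1, hu3]
    have f3 : m * δ + (n * (δ * (2 * m + 1)) + δ * (m + 1)) = δ * ((2 * m + 1) * (n + 1)) := by
      ring
    linarith

end Pool.Agent.V8H41.MD
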