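import Pool.Agent.V8H41.MD.MkE
import Mathlib.Combinatorics.Colex

/-!
# Systems with few scales of the nonnegative circuits and many scales of all circuits
-/

set_option autoImplicit false

namespace Pool.Agent.V8H41.MD

open Finset Matrix

section gadget

variable {N : ℕ}

/-- States: two for each stage. -/
abbrev St (N : ℕ) : Type := Fin (N + 1) × Bool

/-- Rows: the first and the last row, one row of the second state and two rows of the first state of
each stage. -/
abbrev Rw (N : ℕ) : Type := Bool ⊕ (Fin N ⊕ Fin N × Bool)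

/-- The entries. -/
noncomputable def Gr (δ : Fin N → Bool → ℝ) : Rw N → St N → ℝ
  | Sum.inl false, v => (if v = (0, false) then 1 else 0) - (if v = (0, true) then 1 else 0)
  | Sum.inl true, v =>
    (if v = (Fin.last N, false) then 1 else 0) - (if v = (Fin.last N, true) then 1 else 0)
  | Sum.inr (Sum.inl i), v => (if v = (i.castSucc, true) then 1 else 0) -
    (if v.1 = i.succ then 1 / 2 else 0)
  | Sum.inr (Sum.inr (i, a)), v => (if v = (i.castSucc, false) then 1 else 0) -
    (if v.1 = i.succ then (if v.2 then 1 / 2 - δ i a else 1 / 2 + δ i a) else 0)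

/-- The product of the chosen numbers before stage `k`. -/
noncomputable def pr (δ : Fin N → Bool → ℝ) (S : Fin N → Bool) (k : ℕ) : ℝ :=
  ∏ j ∈ Finset.range k, if h : j < N then δ ⟨j, h⟩ (S ⟨j, h⟩) else 1

theorem pr_succ (δ : Fin N → Bool → ℝ) (S : Fin N → Bool) (i : Fin N) :
    pr δ S (i + 1) = pr δ S i * δ i (S i) := by
  unfold pr
  rw [Finset.prod_range_succ, dif_pos i.2]

theorem pr_zero (δ : Fin N → Bool → ℝ) (S : Fin N → Bool) : pr δ S 0 = 1 := by
  simp [pr]

theorem pr_pos {δ : Fin N → Bool → ℝ} (hδ : ∀ i a, 0 < δ i a) (S : Fin N → Bool) (k : ℕ) :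
    0 < pr δ S k := by
  unfold pr
  refine Finset.prod_pos fun j _ => ?_
  split_ifs
  · exact hδ _ _
  · exact one_pos

/-- The elementary vector of a choice. -/
noncomputable def Cs (δ : Fin N → Bool → ℝ) (S : Fin N → Bool) : Rw N → ℝ
  | Sum.inl false => 1
  | Sum.inl true => - pr δ S N
  | Sum.inr (Sum.inl i) => pr δ S i
  | Sum.inr (Sum.inr (i, a)) => if a = S i then - pr δ S i else 0

/-- Sums over the rows. -/
theorem sum_Rw (F : Rw N → ℝ) : ∑ ρ, F ρ = F (Sum.inl false) + F (Sum.inl true) +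
    ∑ i : Fin N, (F (Sum.inr (Sum.inl i)) + (F (Sum.inr (Sum.inr (i, false))) +
      F (Sum.inr (Sum.inr (i, true))))) := by
  rw [Fintype.sum_sum_type, Fintype.sum_sum_type, Fintype.sum_bool, Fintype.sum_prod_type,
    Finset.sum_add_distrib]
  have h1 : ∀ i : Fin N, ∑ a : Bool, F (Sum.inr (Sum.inr (i, a))) =
      F (Sum.inr (Sum.inr (i, false))) + F (Sum.inr (Sum.inr (i, true))) := by
    intro i
    rw [Fintype.sum_bool]
    ring
  rw [Finset.sum_congr rfl fun i _ => h1 i]
  ring

theorem Cs_ker (δ : Fin N → Bool → ℝ) (S : Fin N → Bool) (v : St N) :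
    ∑ ρ, Cs δ S ρ * Gr δ ρ v = 0 := by
  obtain ⟨u, hu⟩ : ∃ u : Fin (N + 1) → ℝ, u = fun k =>
      (if v = (k, false) then (1 : ℝ) else 0) - (if v = (k, true) then 1 else 0) := ⟨_, rfl⟩
  rw [sum_Rw]
  have h1 : ∀ i : Fin N, (Cs δ S (Sum.inr (Sum.inl i)) * Gr δ (Sum.inr (Sum.inl i)) v +
      (Cs δ S (Sum.inr (Sum.inr (i, false))) * Gr δ (Sum.inr (Sum.inr (i, false))) v +
        Cs δ S (Sum.inr (Sum.inr (i, true))) * Gr δ (Sum.inr (Sum.inr (i, true))) v)) =
      pr δ S (i + 1) * u i.succ - pr δ S i * u i.castSucc := by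
    intro i
    rw [pr_succ, hu]
    obtain ⟨k, c⟩ := v
    by_cases h1 : k = i.succ
    · have h2 : k ≠ i.castSucc := by
        rw [h1]
        exact Fin.castSucc_lt_succ.ne'
      cases hS : S i <;> cases c <;> simp [Cs, Gr, h1, hS, Fin.castSucc_lt_succ.ne'] <;> ring
    · by_cases h2 : k = i.castSucc
      · cases hS : S i <;> cases c <;> simp [Cs, Gr, h2, hS, Fin.castSucc_lt_succ.ne]
      · cases hS : S i <;> cases c <;> simp [Cs, Gr, h1, h2, hS]
  rw [Finset.sum_congr rfl fun i _ => h1 i]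
  have h2 : ∑ i : Fin N, (pr δ S (i + 1) * u i.succ - pr δ S i * u i.castSucc) =
      pr δ S N * u (Fin.last N) - pr δ S 0 * u 0 := by
    obtain ⟨w, hw⟩ : ∃ w : ℕ → ℝ, w = fun k => if h : k < N + 1 then pr δ S k * u ⟨k, h⟩ else 0 :=
      ⟨_, rfl⟩
    have h3 : ∀ i : Fin N, pr δ S (i + 1) * u i.succ - pr δ S i * u i.castSucc =
        w (i + 1) - w i := by
      intro i
      rw [hw]
      simp only
      rw [dif_pos (show (i : ℕ) + 1 < N + 1 by omega), dif_pos (show (i : ℕ) < N + 1 by omega)]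
      rfl
    rw [Finset.sum_congr rfl fun i _ => h3 i, Fin.sum_univ_eq_sum_range (fun i => w (i + 1) - w i) N,
      Finset.sum_range_sub, hw]
    simp only
    rw [dif_pos (show N < N + 1 by omega), dif_pos (show 0 < N + 1 by omega)]
    rfl
  rw [h2, pr_zero, hu]
  simp only [Cs, Gr]
  ring

/-- The vectors of the left kernel which vanish on the first row and on the rows which are not
chosen. -/
theorem ker_zero (δ : Fin N → Bool → ℝ) (S : Fin N → Bool) (E : Rw N → ℝ)
    (h0 : E (Sum.inl false) = 0) (h1 : ∀ i a, a ≠ S i → E (Sum.inr (Sum.inr (i, a))) = 0)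
    (hE : ∀ v, ∑ ρ, E ρ * Gr δ ρ v = 0) : E = 0 := by
  have hst : ∀ k : ℕ, ∀ h : k < N, E (Sum.inr (Sum.inl ⟨k, h⟩)) = 0 ∧
      ∀ a, E (Sum.inr (Sum.inr (⟨k, h⟩, a))) = 0 := by
    intro k
    induction k using Nat.strong_induction_on with
    | _ k ih =>
      intro h
      obtain ⟨i, hi⟩ : ∃ i : Fin N, i = ⟨k, h⟩ := ⟨_, rfl⟩
      rw [← hi]
      have hne : i.castSucc ≠ Fin.last N := (Fin.castSucc_lt_last i).ne
      have hzero : ∀ c : Bool, ∀ j : Fin N, j ≠ i →
          E (Sum.inr (Sum.inl j)) * Gr δ (Sum.inr (Sum.inl j)) (i.castSucc, c) +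
          (E (Sum.inr (Sum.inr (j, false))) * Gr δ (Sum.inr (Sum.inr (j, false))) (i.castSucc, c) +
          E (Sum.inr (Sum.inr (j, true))) * Gr δ (Sum.inr (Sum.inr (j, true))) (i.castSucc, c))
            = 0 := by
        intro c j hj
        by_cases hs : i.castSucc = j.succ
        · have hjk : (j : ℕ) < k := by
            have h2 := congrArg Fin.val hs
            rw [hi] at h2
            simp at h2
            omega
          obtain ⟨e1, e2⟩ := ih j hjk j.2
          rw [e1, e2, e2]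
          ring
        · have hc : i.castSucc ≠ j.castSucc := fun h3 => hj (Fin.castSucc_injective N h3).symm
          simp [Gr, hs, hc]
      have hcol : ∀ c : Bool,
          E (Sum.inr (Sum.inl i)) * Gr δ (Sum.inr (Sum.inl i)) (i.castSucc, c) +
          (E (Sum.inr (Sum.inr (i, false))) * Gr δ (Sum.inr (Sum.inr (i, false))) (i.castSucc, c) +
          E (Sum.inr (Sum.inr (i, true))) * Gr δ (Sum.inr (Sum.inr (i, true))) (i.castSucc, c))
            = 0 := by
        intro c
        have h2 := hE (i.castSucc, c)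
        rw [sum_Rw, h0, zero_mul, zero_add, Finset.sum_eq_single i (fun j _ hj => hzero c j hj)
          (fun h => absurd (mem_univ i) h)] at h2
        have h3 : Gr δ (Sum.inl true) (i.castSucc, c) = 0 := by
          simp [Gr, hne]
        rw [h3, mul_zero, zero_add] at h2
        exact h2
      have hlt : i.castSucc ≠ i.succ := Fin.castSucc_lt_succ.ne
      have hc1 := hcol true
      have hc2 := hcol false
      simp [Gr, hlt] at hc1 hc2
      refine ⟨hc1, fun a => ?_⟩
      by_cases ha : a = S i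
      · cases hS : S i
        · rw [hS] at ha
          rw [ha]
          have := h1 i true (by rw [hS]; simp)
          rw [this, add_zero] at hc2
          exact hc2
        · rw [hS] at ha
          rw [ha]
          have := h1 i false (by rw [hS]; simp)
          rw [this, zero_add] at hc2
          exact hc2
      · exact h1 i a ha
  have hlast : E (Sum.inl true) = 0 := by
    have h2 := hE (Fin.last N, false)
    rw [sum_Rw, h0, zero_mul, zero_add, Finset.sum_eq_zero (fun i _ => by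
      obtain ⟨e1, e2⟩ := hst i i.2
      rw [e1, e2, e2]
      ring), add_zero] at h2
    simpa [Gr] using h2
  funext ρ
  rcases ρ with (_ | _) | (i | ⟨i, a⟩)
  · exact h0
  · exact hlast
  · exact (hst i i.2).1
  · exact (hst i i.2).2 a

/-- Vectors of the left kernel with small support are multiples. -/
theorem Cs_min (δ : Fin N → Bool → ℝ) (S : Fin N → Bool) (D : Rw N → ℝ)
    (hs : ∀ ρ, Cs δ S ρ = 0 → D ρ = 0) (hD : ∀ v, ∑ ρ, D ρ * Gr δ ρ v = 0) :
    D = D (Sum.inl false) • Cs δ S := by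
  have h := ker_zero δ S (fun ρ => D ρ - D (Sum.inl false) * Cs δ S ρ) (by simp [Cs]) (fun i a ha => by
    have h1 : Cs δ S (Sum.inr (Sum.inr (i, a))) = 0 := by simp [Cs, ha]
    show D _ - _ = 0
    rw [h1, hs _ h1]
    ring) (fun v => by
    have h1 : ∀ ρ, (D ρ - D (Sum.inl false) * Cs δ S ρ) * Gr δ ρ v =
        D ρ * Gr δ ρ v - D (Sum.inl false) * (Cs δ S ρ * Gr δ ρ v) := fun ρ => by ring
    rw [Finset.sum_congr rfl fun ρ _ => h1 ρ, Finset.sum_sub_distrib, hD v, ← Finset.mul_sum,
      Cs_ker, mul_zero, sub_zero])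
  funext ρ
  have h2 := congrFun h ρ
  simp only [Pi.zero_apply, sub_eq_zero] at h2
  exact h2

end gadget

section lower

/-- Elementary vectors. -/
def Elem {ι : Type} (L : Submodule ℝ (ι → ℝ)) (C : ι → ℝ) : Prop :=
  C ∈ L ∧ C ≠ 0 ∧ ∀ D ∈ L, (∀ i, C i = 0 → D i = 0) → ∃ l : ℝ, D = l • C

/-- The two copies. -/
noncomputable def G2 {N : ℕ} (δ : Fin N → Bool → ℝ) : Matrix (Bool × Rw N) (Bool × St N) ℝ :=
  Matrix.of fun x y => if x.1 = y.1 then Gr δ x.2 y.2 else 0

variable {N : ℕ} {δ : Fin N → Bool → ℝ}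

theorem mem_ker2 (D : Bool × Rw N → ℝ) : D ∈ LinearMap.ker (Matrix.vecMulLinear (G2 δ)) ↔
    ∀ j v, ∑ ρ, D (j, ρ) * Gr δ ρ v = 0 := by
  have h1 : ∀ j v, (D ᵥ* G2 δ) (j, v) = ∑ ρ, D (j, ρ) * Gr δ ρ v := by
    intro j v
    simp only [Matrix.vecMul, dotProduct, G2, Matrix.of_apply]
    rw [Fintype.sum_prod_type, Fintype.sum_bool]
    cases j <;> simp
  rw [LinearMap.mem_ker]
  constructor
  · intro h j v
    rw [← h1]
    exact congrFun h (j, v)
  · intro h
    funext ⟨j, v⟩
    show (D ᵥ* G2 δ) (j, v) = 0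
    rw [h1]
    exact h j v

/-- A vector on one copy. -/
def emb (j : Bool) (C : Rw N → ℝ) : Bool × Rw N → ℝ := fun x => if x.1 = j then C x.2 else 0

theorem emb_ker (j : Bool) (S : Fin N → Bool) :
    emb j (Cs δ S) ∈ LinearMap.ker (Matrix.vecMulLinear (G2 δ)) := by
  rw [mem_ker2]
  intro k v
  by_cases h : k = j
  · simp only [emb, h, if_true]
    exact Cs_ker δ S v
  · simp [emb, h]

/-- The elementary vectors of a choice in a space close to the left kernel. -/
theorem two_copies (L : Submodule ℝ (Bool × Rw N → ℝ))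
    (hL : (L ≤ LinearMap.ker (Matrix.vecMulLinear (G2 δ)) ∧
        Module.finrank ℝ (LinearMap.ker (Matrix.vecMulLinear (G2 δ))) ≤ Module.finrank ℝ L + 1) ∨
      (LinearMap.ker (Matrix.vecMulLinear (G2 δ)) ≤ L ∧
        Module.finrank ℝ L ≤ Module.finrank ℝ (LinearMap.ker (Matrix.vecMulLinear (G2 δ))) + 1)) :
    ∃ j : Bool, ∀ S : Fin N → Bool, ∃ E, Elem L E ∧ E (j, Sum.inl false) = 1 ∧
      E (j, Sum.inl true) = - pr δ S N := by
  obtain ⟨K, hK⟩ : ∃ K, K = LinearMap.ker (Matrix.vecMulLinear (G2 δ)) := ⟨_, rfl⟩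
  have hKm : ∀ D, D ∈ K ↔ ∀ j v, ∑ ρ, D (j, ρ) * Gr δ ρ v = 0 := by
    intro D
    rw [hK]
    exact mem_ker2 D
  have hKe : ∀ j S, emb j (Cs δ S) ∈ K := by
    intro j S
    rw [hK]
    exact emb_ker j S
  rw [← hK] at hL
  rcases hL with ⟨h1, h2⟩ | ⟨h1, h2⟩
  · by_cases hall : ∀ S : Fin N → Bool, emb false (Cs δ S) ∈ L
    · refine ⟨false, fun S => ⟨emb false (Cs δ S), ⟨hall S, ?_, ?_⟩, ?_, ?_⟩⟩
      · intro h0
        have := congrFun h0 (false, Sum.inl false)
        simp [emb, Cs] at this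
      · intro D hD hs
        have hDK := (hKm D).1 (h1 hD)
        have h3 := Cs_min δ S (fun ρ => D (false, ρ)) (fun ρ hρ => hs _ (by simp [emb, hρ]))
          (fun v => hDK false v)
        refine ⟨D (false, Sum.inl false), ?_⟩
        funext ⟨j, ρ⟩
        cases j with
        | false =>
          have h4 := congrFun h3 ρ
          simp only [Pi.smul_apply, smul_eq_mul, emb, if_true] at h4 ⊢
          exact h4
        | true =>
          have h4 := hs (true, ρ) (by simp [emb])
          simp [emb, h4]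
      · simp [emb, Cs]
      · simp [emb, Cs]
    · push Not at hall
      obtain ⟨S0, hS0⟩ := hall
      obtain ⟨D0, hD0⟩ : ∃ D0, D0 = emb false (Cs δ S0) := ⟨_, rfl⟩
      rw [← hD0] at hS0
      have hD0K : D0 ∈ K := by rw [hD0]; exact hKe _ _
      have hsup : L ⊔ Submodule.span ℝ {D0} = K := by
        refine Submodule.eq_of_le_of_finrank_le
          (sup_le h1 ((Submodule.span_singleton_le_iff_mem _ _).2 hD0K)) (h2.trans ?_)
        refine Submodule.finrank_lt_finrank_of_lt (lt_of_le_of_ne le_sup_left ?_)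
        intro h3
        apply hS0
        rw [h3]
        exact (le_sup_right : Submodule.span ℝ {D0} ≤ _) (Submodule.mem_span_singleton_self D0)
      refine ⟨true, fun S => ?_⟩
      have hvK := hKe true S
      rw [← hsup, Submodule.mem_sup] at hvK
      obtain ⟨E, hE, y, hy, hEy⟩ := hvK
      obtain ⟨t, rfl⟩ := Submodule.mem_span_singleton.1 hy
      have hEv : ∀ j ρ, E (j, ρ) = emb true (Cs δ S) (j, ρ) - t * D0 (j, ρ) := by
        intro j ρ
        have := congrFun hEy (j, ρ)
        simp only [Pi.add_apply, Pi.smul_apply, smul_eq_mul] at this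
        linarith
      have hE1 : E (true, Sum.inl false) = 1 := by
        rw [hEv, hD0]
        simp [emb, Cs]
      refine ⟨E, ⟨hE, ?_, ?_⟩, hE1, ?_⟩
      · intro h0
        rw [h0] at hE1
        simp at hE1
      · intro D hD hs
        have hDK := (hKm D).1 (h1 hD)
        have h3 := Cs_min δ S (fun ρ => D (true, ρ)) (fun ρ hρ => hs _ (by
          rw [hEv, hD0]
          simp [emb, hρ])) (fun v => hDK true v)
        have h4 := Cs_min δ S0 (fun ρ => D (false, ρ)) (fun ρ hρ => hs _ (by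
          rw [hEv, hD0]
          simp [emb, hρ])) (fun v => hDK false v)
        obtain ⟨a, ha⟩ : ∃ a, a = D (true, Sum.inl false) := ⟨_, rfl⟩
        obtain ⟨b, hb⟩ : ∃ b, b = D (false, Sum.inl false) := ⟨_, rfl⟩
        rw [← ha] at h3
        rw [← hb] at h4
        have h5 : D = a • E + (b + a * t) • D0 := by
          funext ⟨j, ρ⟩
          simp only [Pi.add_apply, Pi.smul_apply, smul_eq_mul]
          rw [hEv, hD0]
          cases j with
          | false =>
            have h6 := congrFun h4 ρ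
            simp only [Pi.smul_apply, smul_eq_mul] at h6
            simp only [emb, if_true, Bool.false_eq_true, if_false]
            rw [h6]
            ring
          | true =>
            have h6 := congrFun h3 ρ
            simp only [Pi.smul_apply, smul_eq_mul] at h6
            simp only [emb, if_true]
            rw [h6]
            simp
        have h6 : (b + a * t) • D0 ∈ L := by
          have h7 : (b + a * t) • D0 = D - a • E := by
            rw [h5]
            abel
          rw [h7]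
          exact L.sub_mem hD (L.smul_mem _ hE)
        have h7 : b + a * t = 0 := by
          by_contra h8
          exact hS0 ((L.smul_mem_iff h8).1 h6)
        refine ⟨a, ?_⟩
        rw [h5, h7, zero_smul, add_zero]
      · rw [hEv, hD0]
        simp [emb, Cs]
  · have hj : ∃ j : Bool, ∀ D ∈ L, (∀ ρ, D (!j, ρ) = 0) → D ∈ K := by
      by_contra hno
      push Not at hno
      obtain ⟨v0, hv0, hv0', hv0K⟩ := hno false
      obtain ⟨v1, hv1, hv1', hv1K⟩ := hno true
      simp only [Bool.not_false, Bool.not_true] at hv0' hv1'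
      have hlt1 : K < K ⊔ Submodule.span ℝ {v0} := by
        refine lt_of_le_of_ne le_sup_left fun h3 => hv0K ?_
        rw [h3]
        exact (le_sup_right : Submodule.span ℝ {v0} ≤ _) (Submodule.mem_span_singleton_self v0)
      have hlt2 : K ⊔ Submodule.span ℝ {v0} <
          (K ⊔ Submodule.span ℝ {v0}) ⊔ Submodule.span ℝ {v1} := by
        refine lt_of_le_of_ne le_sup_left fun h3 => ?_
        have h4 : v1 ∈ K ⊔ Submodule.span ℝ {v0} := by
          rw [h3]
          exact (le_sup_right : Submodule.span ℝ {v1} ≤ _) (Submodule.mem_span_singleton_self v1)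
        rw [Submodule.mem_sup] at h4
        obtain ⟨k, hk, y, hy, hky⟩ := h4
        obtain ⟨t, rfl⟩ := Submodule.mem_span_singleton.1 hy
        apply hv1K
        rw [hKm]
        intro j v
        cases j with
        | false =>
          refine Finset.sum_eq_zero fun ρ _ => ?_
          rw [hv1' ρ, zero_mul]
        | true =>
          rw [← (hKm k).1 hk true v]
          refine Finset.sum_congr rfl fun ρ _ => ?_
          rw [← hky]
          simp only [Pi.add_apply, Pi.smul_apply, smul_eq_mul, hv0' ρ, mul_zero, add_zero]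
      have hle : (K ⊔ Submodule.span ℝ {v0}) ⊔ Submodule.span ℝ {v1} ≤ L :=
        sup_le (sup_le h1 ((Submodule.span_singleton_le_iff_mem _ _).2 hv0))
          ((Submodule.span_singleton_le_iff_mem _ _).2 hv1)
      have e1 := Submodule.finrank_lt_finrank_of_lt hlt1
      have e2 := Submodule.finrank_lt_finrank_of_lt hlt2
      have e3 := Submodule.finrank_mono hle
      omega
    obtain ⟨j, hj⟩ := hj
    refine ⟨j, fun S => ⟨emb j (Cs δ S), ⟨h1 (hKe j S), ?_, ?_⟩, ?_, ?_⟩⟩
    · intro h0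
      have := congrFun h0 (j, Sum.inl false)
      simp [emb, Cs] at this
    · intro D hD hs
      have hnot : ∀ ρ, D (!j, ρ) = 0 := fun ρ => hs _ (by simp [emb])
      have hDK := (hKm D).1 (hj D hD hnot)
      have h3 := Cs_min δ S (fun ρ => D (j, ρ)) (fun ρ hρ => hs _ (by simp [emb, hρ]))
        (fun v => hDK j v)
      refine ⟨D (j, Sum.inl false), ?_⟩
      funext ⟨k, ρ⟩
      by_cases hk : k = j
      · have h4 := congrFun h3 ρ
        simp only [Pi.smul_apply, smul_eq_mul] at h4
        simp only [Pi.smul_apply, smul_eq_mul, emb, hk, if_true]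
        exact h4
      · have h4 := hs (k, ρ) (by simp [emb, hk])
        simp [emb, h4, hk]
    · simp [emb, Cs]
    · simp [emb, Cs]

/-- The numbers. -/
noncomputable def dl (N : ℕ) (i : Fin N) (a : Bool) : ℝ :=
  if a then 1 / 4 else 1 / 4 * (1 / 2) ^ (2 ^ N * 2 ^ (i : ℕ))

theorem dl_pos (N : ℕ) (i : Fin N) (a : Bool) : 0 < dl N i a := by
  unfold dl
  split_ifs <;> positivity

theorem dl_le (N : ℕ) (i : Fin N) (a : Bool) : dl N i a ≤ 1 / 4 := by
  unfold dl
  split_ifs
  · exact le_rfl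
  · exact mul_le_of_le_one_right (by norm_num) (pow_le_one₀ (by norm_num) (by norm_num))

/-- The exponent of a choice. -/
def ex (N : ℕ) (S : Fin N → Bool) : ℕ :=
  ∑ j ∈ (Finset.range N).filter (fun j => ∃ h : j < N, S ⟨j, h⟩ = false), 2 ^ j

theorem ex_inj (N : ℕ) : Function.Injective (ex N) := by
  intro S S' h
  have h1 := Finset.geomSum_injective (n := 2) le_rfl h
  funext ⟨j, hj⟩
  have h2 : j ∈ (Finset.range N).filter (fun j => ∃ h : j < N, S ⟨j, h⟩ = false) ↔
      j ∈ (Finset.range N).filter (fun j => ∃ h : j < N, S' ⟨j, h⟩ = false) := by rw [h1]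
  simp only [Finset.mem_filter, Finset.mem_range, hj, true_and, exists_true_left] at h2
  cases h3 : S ⟨j, hj⟩ <;> cases h4 : S' ⟨j, hj⟩ <;> simp [h3, h4] at h2 ⊢

theorem pr_eq (N : ℕ) (S : Fin N → Bool) :
    pr (dl N) S N = (1 / 4) ^ N * (1 / 2) ^ (2 ^ N * ex N S) := by
  unfold pr ex
  have h1 : ∀ j ∈ Finset.range N, (if h : j < N then dl N ⟨j, h⟩ (S ⟨j, h⟩) else 1) =
      1 / 4 * (if ∃ h : j < N, S ⟨j, h⟩ = false then (1 / 2 : ℝ) ^ (2 ^ N * 2 ^ j) else 1) := by
    intro j hj
    have hj' := Finset.mem_range.1 hj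
    rw [dif_pos hj']
    unfold dl
    cases h3 : S ⟨j, hj'⟩
    · simp [h3, hj']
    · simp [h3, hj']
  rw [Finset.prod_congr rfl h1, Finset.prod_mul_distrib, Finset.prod_const, Finset.card_range]
  congr 1
  rw [Finset.mul_sum, ← Finset.prod_pow_eq_pow_sum, Finset.prod_filter]

/-- Many scales. -/
theorem many_scales (N : ℕ) (L : Submodule ℝ (Bool × Rw N → ℝ))
    (hL : (L ≤ LinearMap.ker (Matrix.vecMulLinear (G2 (dl N))) ∧
        Module.finrank ℝ (LinearMap.ker (Matrix.vecMulLinear (G2 (dl N)))) ≤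
          Module.finrank ℝ L + 1) ∨
      (LinearMap.ker (Matrix.vecMulLinear (G2 (dl N))) ≤ L ∧
        Module.finrank ℝ L ≤
          Module.finrank ℝ (LinearMap.ker (Matrix.vecMulLinear (G2 (dl N)))) + 1))
    (r : ℕ) (hr : ∀ i j, ∃ S : Finset ℝ, S.card ≤ r ∧ (∀ s ∈ S, 0 < s) ∧
      ∀ C, Elem L C → C i ≠ 0 → C j ≠ 0 → ∃ s ∈ S, s ≤ |C i / C j| ∧ |C i / C j| ≤ 2 ^ r * s) :
    2 ^ N ≤ r := by
  classical
  by_contra hlt
  push Not at hlt
  obtain ⟨j, hj⟩ := two_copies L hL
  obtain ⟨X, hX1, hX2, hX3⟩ := hr (j, Sum.inl true) (j, Sum.inl false)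
  have h1 : ∀ S : Fin N → Bool, ∃ s ∈ X, s ≤ pr (dl N) S N ∧ pr (dl N) S N ≤ 2 ^ r * s := by
    intro S
    obtain ⟨E, hE1, hE2, hE3⟩ := hj S
    have hp := pr_pos (dl_pos N) S N
    obtain ⟨s, hs, h2, h3⟩ := hX3 E hE1 (by rw [hE3]; exact (neg_neg_of_pos hp).ne)
      (by rw [hE2]; norm_num)
    rw [hE2, hE3, div_one, abs_neg, abs_of_pos hp] at h2 h3
    exact ⟨s, hs, h2, h3⟩
  choose f hf1 hf2 hf3 using h1
  have hcard : X.card < (Finset.univ : Finset (Fin N → Bool)).card := by
    rw [Finset.card_univ, Fintype.card_fun, Fintype.card_fin, Fintype.card_bool]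
    omega
  obtain ⟨S, -, S', -, hne, hff⟩ := Finset.exists_ne_map_eq_of_card_lt_of_maps_to hcard
    (f := f) (fun S _ => hf1 S)
  -- the exponents differ
  have key : ∀ S S' : Fin N → Bool, f S = f S' → ¬ ex N S < ex N S' := by
    intro S S' hff hexp
    have h2 := hf2 S'
    have h3 := hf3 S
    rw [hff] at h3
    have h4 : pr (dl N) S N ≤ 2 ^ r * pr (dl N) S' N :=
      h3.trans (mul_le_mul_of_nonneg_left h2 (by positivity))
    rw [pr_eq, pr_eq] at h4
    have h5 : (1 / 2 : ℝ) ^ (2 ^ N * ex N S') ≤ (1 / 2) ^ (2 ^ N * ex N S + 2 ^ N) := by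
      refine pow_le_pow_of_le_one (by norm_num) (by norm_num) ?_
      calc 2 ^ N * ex N S + 2 ^ N = 2 ^ N * (ex N S + 1) := by ring
        _ ≤ _ := Nat.mul_le_mul_left _ hexp
    have h6 : (0 : ℝ) < (1 / 4) ^ N := by positivity
    have h7 : (1 / 2 : ℝ) ^ (2 ^ N * ex N S) ≤ 2 ^ r * (1 / 2) ^ (2 ^ N * ex N S') := by
      have h8 : (1 / 4 : ℝ) ^ N * (1 / 2) ^ (2 ^ N * ex N S) ≤
          (1 / 4) ^ N * (2 ^ r * (1 / 2) ^ (2 ^ N * ex N S')) := by
        rw [← mul_assoc, mul_comm ((1 / 4 : ℝ) ^ N) (2 ^ r), mul_assoc]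
        exact h4
      exact le_of_mul_le_mul_left h8 h6
    have h8 : (1 / 2 : ℝ) ^ (2 ^ N * ex N S) ≤
        2 ^ r * ((1 / 2) ^ (2 ^ N * ex N S) * (1 / 2) ^ (2 ^ N)) := by
      refine h7.trans (mul_le_mul_of_nonneg_left ?_ (by positivity))
      rw [← pow_add]
      exact h5
    have h9 : (0 : ℝ) < (1 / 2) ^ (2 ^ N * ex N S) := by positivity
    have h10 : (1 : ℝ) ≤ 2 ^ r * (1 / 2) ^ (2 ^ N) := by
      have h11 : (1 / 2 : ℝ) ^ (2 ^ N * ex N S) * 1 ≤
          (1 / 2) ^ (2 ^ N * ex N S) * (2 ^ r * (1 / 2) ^ (2 ^ N)) := by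
        rw [mul_one]
        calc _ ≤ _ := h8
          _ = _ := by ring
      exact le_of_mul_le_mul_left h11 h9
    rw [one_div, inv_pow, ← div_eq_mul_inv, one_le_div (by positivity)] at h10
    have h11 : (2 : ℝ) ^ r < 2 ^ (2 ^ N) := pow_lt_pow_right₀ (by norm_num) hlt
    linarith
  rcases lt_trichotomy (ex N S) (ex N S') with h | h | h
  · exact key S S' hff h
  · exact hne (ex_inj N h)
  · exact key S' S hff.symm h

end lower

end Pool.Agent.V8H41.MD
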