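import Pool.Agent.V8H41.MD.Sep

/-!
# The separating systems have few scales of nonnegative circuits
-/

set_option autoImplicit false

namespace Pool.Agent.V8H41.MD

open Finset Matrix

/-- The matrix `A`, followed by the unit vectors and by the vector with all coordinates `-1`. -/
def extG {ι κ : Type} [DecidableEq κ] (A : Matrix ι κ ℝ) : Matrix (ι ⊕ (κ ⊕ Unit)) κ ℝ :=
  Matrix.fromRows A (Matrix.fromRows 1 (Matrix.of fun _ _ => -1))

/-- The extended matrix. -/
theorem mdp_extG {ι V : Type} [Fintype ι] [Fintype V] [DecidableEq V] [Nonempty V] {R : ℕ}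
    {T : Set ℝ} (hT : FewProducts R (Fintype.card V) T)
    {A : Matrix ι V ℝ} (hA : ∀ i, StateRow R T (A i) ∨ SourceRow R (A i)) :
    NScales (bnd (Fintype.card ι + (Fintype.card V + 1)) (Fintype.card V) R) (extG A) := by
  have h1 := mdp_scales (ι := ι ⊕ (V ⊕ Unit)) (V := V) (R := R) (T := T) (N := extG A) hT (by
      intro i
      rcases i with i | i | i
      · exact hA i
      · left
        refine ⟨1, i, 0, 1, one_pos, fun _ => le_rfl, zero_le_one, fun v => ?_,
          Or.inl fun t => Or.inl rfl⟩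
        simp only [extG, fromRows_apply_inr, fromRows_apply_inl, Pi.zero_apply, sum_const_zero,
          zero_add, sub_zero, one_mul, Matrix.one_apply]
        by_cases h : i = v
        · simp [h]
        · simp [h, Ne.symm h]
      · right
        refine ⟨1, one_pos, fun v => ?_⟩
        simp only [extG, fromRows_apply_inr, Matrix.of_apply, neg_neg, mul_one]
        exact ⟨le_rfl, one_le_pow₀ (by norm_num)⟩)
  simpa using h1

variable {N : ℕ}

/-- The heads. -/
def hd : Rw N → St N
  | Sum.inl false => (0, false)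
  | Sum.inl true => (Fin.last N, false)
  | Sum.inr (Sum.inl i) => (i.castSucc, true)
  | Sum.inr (Sum.inr (i, _)) => (i.castSucc, false)

/-- The transition probabilities. -/
noncomputable def Pr (δ : Fin N → Bool → ℝ) : Rw N → St N → ℝ
  | Sum.inl false, v => if v = (0, true) then 1 else 0
  | Sum.inl true, v => if v = (Fin.last N, true) then 1 else 0
  | Sum.inr (Sum.inl i), v => if v.1 = i.succ then 1 / 2 else 0
  | Sum.inr (Sum.inr (i, a)), v =>
    if v.1 = i.succ then (if v.2 then 1 / 2 - δ i a else 1 / 2 + δ i a) else 0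

theorem Gr_eq (δ : Fin N → Bool → ℝ) (ρ : Rw N) (v : St N) :
    Gr δ ρ v = (if v = hd ρ then 1 else 0) - Pr δ ρ v := by
  rcases ρ with (_ | _) | (i | ⟨i, a⟩) <;> rfl

theorem Pr_sum (δ : Fin N → Bool → ℝ) (ρ : Rw N) : ∑ v, Pr δ ρ v = 1 := by
  have h1 : ∀ (i : Fin N) (w : Bool → ℝ), w true + w false = 1 →
      ∑ v : St N, (if v.1 = i.succ then w v.2 else 0) = 1 := by
    intro i w hw
    rw [Fintype.sum_prod_type]
    have h2 : ∀ x : Fin (N + 1), ∑ y : Bool, (if x = i.succ then w y else 0) =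
        if x = i.succ then 1 else 0 := by
      intro x
      by_cases hx : x = i.succ
      · simp only [hx, if_true]
        rw [Fintype.sum_bool, hw]
      · simp [hx]
    rw [Finset.sum_congr rfl fun x _ => h2 x]
    simp
  rcases ρ with (_ | _) | (i | ⟨i, a⟩)
  · simp [Pr]
  · simp [Pr]
  · exact h1 i (fun _ => 1 / 2) (by norm_num)
  · exact h1 i (fun c => if c then 1 / 2 - δ i a else 1 / 2 + δ i a) (by
      simp only [if_true, Bool.false_eq_true, if_false]
      ring)

theorem Pr_near {δ : Fin N → Bool → ℝ} (h0 : ∀ i a, 0 < δ i a) (h1 : ∀ i a, δ i a ≤ 1 / 4)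
    (ρ : Rw N) (v : St N) : Pr δ ρ v = 0 ∨ (1 / 4 ≤ Pr δ ρ v ∧ Pr δ ρ v ≤ 1) := by
  rcases ρ with (_ | _) | (i | ⟨i, a⟩) <;> simp only [Pr]
  · split_ifs
    · right; norm_num
    · left; rfl
  · split_ifs
    · right; norm_num
    · left; rfl
  · split_ifs
    · right; norm_num
    · left; rfl
  · have := h0 i a
    have := h1 i a
    split_ifs
    · right
      constructor <;> linarith
    · right
      constructor <;> linarith
    · left; rfl

theorem few_upper (N : ℕ) : NScales (bnd (Fintype.card (Bool × Rw N) +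
    (Fintype.card (Bool × St N) + 1)) (Fintype.card (Bool × St N))
      (Fintype.card (Bool × St N) + 1)) (extG (G2 (dl N))) := by
  obtain ⟨n, hn⟩ : ∃ n, n = Fintype.card (Bool × St N) := ⟨_, rfl⟩
  have hn4 : 1 ≤ n := by
    rw [hn]
    exact Fintype.card_pos
  rw [← hn]
  have hT : FewProducts (n + 1) n {(1 / 4 : ℝ)} := by
    have h1 := few_scales n 1 0 (fun _ => 1 / 4) (fun _ => by norm_num) {(1 / 4 : ℝ)}
      (fun τ hτ => ⟨0, by rw [Set.mem_singleton_iff.1 hτ], by rw [Set.mem_singleton_iff.1 hτ]; simp⟩)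
    simpa using h1
  rw [hn]
  refine mdp_extG (by rw [← hn]; exact hT) ?_
  rw [← hn]
  rintro ⟨j, ρ⟩
  left
  refine ⟨1, (j, hd ρ), fun y => if j = y.1 then Pr (dl N) ρ y.2 else 0, 0, one_pos, ?_, le_rfl,
    ?_, Or.inl ?_⟩
  · rintro ⟨k, v⟩
    simp only
    split_ifs
    · rcases Pr_near (dl_pos N) (dl_le N) ρ v with h | h
      · exact h.ge
      · linarith [h.1]
    · exact le_rfl
  · rintro ⟨k, v⟩
    have hsum : ∑ y : Bool × St N, (if j = y.1 then Pr (dl N) ρ y.2 else 0) = 1 := by
      rw [Fintype.sum_prod_type, Fintype.sum_bool]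
      have h2 := Pr_sum (dl N) ρ
      cases j <;> simp [h2]
    rw [hsum]
    simp only [G2, Matrix.of_apply, Gr_eq, one_mul, add_zero, Prod.mk.injEq]
    by_cases hk : j = k
    · simp [hk]
    · have hk' : ¬ k = j := fun h => hk h.symm
      simp [hk, hk']
  · rintro ⟨k, v⟩
    simp only
    by_cases hk : j = k
    · simp only [hk, if_true]
      rcases Pr_near (dl_pos N) (dl_le N) ρ v with h | h
      · exact Or.inl h
      · right
        refine ⟨1 / 4, rfl, h.1, h.2.trans ?_⟩
        have h3 : (2 : ℝ) ^ 2 ≤ 2 ^ (n + 1) := pow_le_pow_right₀ (by norm_num) (by omega)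
        linarith
    · left
      simp [hk]

/-- The separation. -/
theorem separation : ∃ q : Polynomial ℕ, ∀ N : ℕ, ∃ (ι κ : Type) (_ : Fintype ι) (_ : Fintype κ)
    (_ : DecidableEq κ) (A : Matrix ι κ ℝ), Fintype.card ι + Fintype.card κ ≤ q.eval N ∧
      NScales (q.eval N) (extG A) ∧ ∀ (L : Submodule ℝ (ι → ℝ)) (r : ℕ),
        ((L ≤ LinearMap.ker (Matrix.vecMulLinear A) ∧
          Module.finrank ℝ (LinearMap.ker (Matrix.vecMulLinear A)) ≤ Module.finrank ℝ L + 1) ∨
        (LinearMap.ker (Matrix.vecMulLinear A) ≤ L ∧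
          Module.finrank ℝ L ≤ Module.finrank ℝ (LinearMap.ker (Matrix.vecMulLinear A)) + 1)) →
        (∀ i j, ∃ S : Finset ℝ, S.card ≤ r ∧ (∀ s ∈ S, 0 < s) ∧
          ∀ C, Elem L C → C i ≠ 0 → C j ≠ 0 →
            ∃ s ∈ S, s ≤ |C i / C j| ∧ |C i / C j| ≤ 2 ^ r * s) → 2 ^ N ≤ r := by
  obtain ⟨q, hq⟩ := bnd_poly
  refine ⟨q.comp (14 * Polynomial.X + 13) + (10 * Polynomial.X + 8), fun N => ⟨Bool × Rw N,
    Bool × St N, inferInstance, inferInstance, inferInstance, G2 (dl N), ?_, ?_,
    fun L r hL hr => many_scales N L hL r hr⟩⟩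
  · have h1 : Fintype.card (Bool × Rw N) = 6 * N + 4 := by
      simp only [Rw, Fintype.card_prod, Fintype.card_bool, Fintype.card_sum, Fintype.card_fin]
      ring
    have h2 : Fintype.card (Bool × St N) = 4 * N + 4 := by
      simp only [St, Fintype.card_prod, Fintype.card_bool, Fintype.card_fin]
      ring
    rw [h1, h2]
    simp only [Polynomial.eval_add, Polynomial.eval_mul, Polynomial.eval_X, Polynomial.eval_ofNat]
    omega
  · have h1 : Fintype.card (Bool × Rw N) = 6 * N + 4 := by
      simp only [Rw, Fintype.card_prod, Fintype.card_bool, Fintype.card_sum, Fintype.card_fin]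
      ring
    have h2 : Fintype.card (Bool × St N) = 4 * N + 4 := by
      simp only [St, Fintype.card_prod, Fintype.card_bool, Fintype.card_fin]
      ring
    refine (few_upper N).mono ?_
    rw [h1, h2]
    refine (hq _ _ _).trans ?_
    simp only [Polynomial.eval_add, Polynomial.eval_mul, Polynomial.eval_X, Polynomial.eval_ofNat,
      Polynomial.eval_comp]
    have h3 : 6 * N + 4 + (4 * N + 4) + (4 * N + 4 + 1) = 14 * N + 13 := by ring
    rw [h3]
    omega

end Pool.Agent.V8H41.MD
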