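import Pool.Agent.Y529.CS.Sub

/-!
# Phases where every row is used with one sign only: the subspaces
-/

set_option autoImplicit false
set_option linter.all false

namespace Pool.Agent.V8H41.MD

open Pool.Agent.NPC Pool.Agent.H558R2 Pool.Agent.H622R3.SM Pool.Agent.Y648.CS Pool.Agent.Y529.CS

/-- The sign of the row number `d`. -/
def sg (σ : List Bool) (d : ℕ) : Bool := σ.getD d false

/-- The columns dropped in the first phase: the columns `y⁺` of the rows with `sg σ`, and the columns
`y⁻` of the other rows are used. -/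
def drS (M : ℕ) (σ : List Bool) : List Bool :=
  (List.range (M + M)).map fun c => if c < M then !(sg σ c) else sg σ (c - M)

/-- The part of `B` in the rows with `sg σ`. -/
def mask (M : ℕ) (σ B : List Bool) : List Bool :=
  (List.range M).map fun c => sg σ c && B.getD c false

/-- The position of the column belonging to the row `d`. -/
def ps (M : ℕ) (σ : List Bool) (d : ℕ) : ℕ := if sg σ d = true then d else M + d

/-- The coordinates, by rows. -/
def uu {M : ℕ} (σ : List Bool) (x : ℕ → ℝ) : Fin M → ℝ := fun d => x (ps M σ d)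

/-- The signed matrix. -/
def sA {M n : ℕ} (σ : List Bool) (A : Fin M → Fin n → ℝ) : Fin M → Fin n → ℝ := fun d i =>
  if sg σ d = true then A d i else - A d i

/-- Vectors on `ℕ` from their parts. -/
noncomputable def mkS {M : ℕ} (σ : List Bool) (u : Fin M → ℝ) (q nu : ℝ) : ℕ → ℝ :=
  mk2 (fun d => if sg σ d = true then u d else 0) (fun d => if sg σ d = true then 0 else u d) q nu

theorem ps_lt {M : ℕ} (σ : List Bool) (d : Fin M) : ps M σ d < M + M := by
  unfold ps
  have := d.2
  split_ifs <;> omega

theorem ps_inj {M : ℕ} (σ : List Bool) : Function.Injective fun d : Fin M => ps M σ d := by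
  intro d e h
  simp only [ps] at h
  have h1 := d.2
  have h2 := e.2
  apply Fin.ext
  split_ifs at h <;> omega

theorem XcS (M : ℕ) (σ : List Bool) :
    Xc M (drS M σ) = Finset.univ.image fun d : Fin M => ps M σ d := by
  ext c
  unfold Xc drS
  rw [Finset.mem_filter, Finset.mem_range, Finset.mem_image]
  constructor
  · rintro ⟨h1, h2⟩
    rw [List.getD_eq_getElem _ _ (by simpa using h1)] at h2
    simp only [List.getElem_map, List.getElem_range] at h2
    by_cases hc : c < M
    · rw [if_pos hc] at h2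
      refine ⟨⟨c, hc⟩, Finset.mem_univ _, ?_⟩
      show ps M σ c = c
      unfold ps
      rw [if_pos (by simpa using h2)]
    · rw [if_neg hc] at h2
      refine ⟨⟨c - M, by omega⟩, Finset.mem_univ _, ?_⟩
      show ps M σ (c - M) = c
      unfold ps
      rw [if_neg (by rw [h2]; simp)]
      omega
  · rintro ⟨d, -, rfl⟩
    have h1 := ps_lt σ d
    refine ⟨h1, ?_⟩
    rw [List.getD_eq_getElem _ _ (by simpa using h1)]
    simp only [List.getElem_map, List.getElem_range]
    unfold ps
    by_cases hs : sg σ d = true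
    · rw [if_pos hs, if_pos d.2, hs]
      rfl
    · rw [if_neg hs, if_neg (by omega), Nat.add_sub_cancel_left]
      simpa using hs

theorem mem_XcS {M : ℕ} (σ : List Bool) (c : ℕ) :
    c ∈ Xc M (drS M σ) ↔ ∃ d : Fin M, ps M σ d = c := by
  rw [XcS, Finset.mem_image]
  constructor
  · rintro ⟨d, -, h⟩
    exact ⟨d, h⟩
  · rintro ⟨d, h⟩
    exact ⟨d, Finset.mem_univ _, h⟩

theorem sum_XcS {M : ℕ} (σ : List Bool) (F : ℕ → ℝ) :
    ∑ c ∈ Xc M (drS M σ), F c = ∑ d : Fin M, F (ps M σ d) := by
  rw [XcS, Finset.sum_image fun d _ e _ h => ps_inj σ h]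

theorem mkS_ps {M : ℕ} (σ : List Bool) (u : Fin M → ℝ) (q nu : ℝ) (d : Fin M) :
    mkS σ u q nu (ps M σ d) = u d := by
  unfold mkS ps
  split_ifs with h
  · rw [mk2_l, if_pos h]
  · rw [mk2_r, if_neg h]

theorem uu_mkS {M : ℕ} (σ : List Bool) (u : Fin M → ℝ) (q nu : ℝ) :
    uu σ (mkS σ u q nu) = u := funext fun d => mkS_ps σ u q nu d

theorem mkS_q {M : ℕ} (σ : List Bool) (u : Fin M → ℝ) (q nu : ℝ) :
    mkS σ u q nu (M + M) = q := mk2_q _ _ _ _

theorem mkS_nu {M : ℕ} (σ : List Bool) (u : Fin M → ℝ) (q nu : ℝ) :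
    mkS σ u q nu (M + M + 1) = nu := mk2_nu _ _ _ _

variable {M n : ℕ} (σ : List Bool) (A : Fin M → Fin n → ℝ) (b : Fin M → ℝ)

theorem Rb_ps (i : Fin n) (d : Fin M) :
    Rb M n 0 (start A b) i (ps M σ d) = sA σ A d i := by
  unfold ps sA
  split_ifs with h
  · exact Rb_l A b 0 i d
  · exact Rb_r A b 0 i d

theorem Rb_ps_q (d : Fin M) :
    Rb M n 0 (start A b) n (ps M σ d) = if sg σ d = true then 0 else 1 := by
  have hd := d.2
  unfold ps
  split_ifs with h
  · unfold Rb
    rw [if_pos (by omega), if_neg (by omega), if_pos rfl, if_pos rfl]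
  · unfold Rb
    rw [if_neg (by omega), if_pos (by omega), if_neg (by omega), if_pos rfl, if_pos rfl]

theorem Rb_ps_nu (d : Fin M) :
    Rb M n 0 (start A b) (n + 1) (ps M σ d) = 1 := by
  have hd := d.2
  unfold ps
  split_ifs with h
  · unfold Rb
    rw [if_pos (by omega), if_neg (by omega), if_neg (by omega)]
  · unfold Rb
    rw [if_neg (by omega), if_pos (by omega), if_neg (by omega), if_neg (by omega)]

theorem mem_LspS (x : ℕ → ℝ) : x ∈ Lsp M n 0 (start A b) (drS M σ) ↔
    (∀ i : Fin n, ∑ d : Fin M, sA σ A d i * uu σ x d = 0) ∧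
    x (M + M) = ∑ d : Fin M, (if sg σ d = true then 0 else uu σ x d) ∧
    x (M + M + 1) = ∑ d : Fin M, uu σ x d := by
  have key : x ∈ Lsp M n 0 (start A b) (drS M σ) ↔
      ∀ i < n + 2, ∑ c ∈ Acs M (drS M σ), Rb M n 0 (start A b) i c * x c = 0 := Iff.rfl
  rw [key]
  have e1 : ∀ i : Fin n, ∑ c ∈ Acs M (drS M σ), Rb M n 0 (start A b) i c * x c =
      ∑ d : Fin M, sA σ A d i * uu σ x d := by
    intro i
    have hi := i.2
    rw [sum_Acs, sum_XcS σ fun c => Rb M n 0 (start A b) i c * x c]
    have z1 : Rb M n 0 (start A b) i (M + M) = 0 := by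
      unfold Rb
      rw [if_neg (by omega), if_neg (by omega), if_pos rfl, if_neg (by omega)]
    have z2 : Rb M n 0 (start A b) i (M + M + 1) = 0 := by
      unfold Rb
      rw [if_neg (by omega), if_neg (by omega), if_neg (by omega), if_pos rfl, if_neg (by omega)]
    rw [z1, z2, zero_mul, zero_mul, zero_add, zero_add]
    refine Finset.sum_congr rfl fun d _ => ?_
    rw [Rb_ps]
    rfl
  have e2 : ∑ c ∈ Acs M (drS M σ), Rb M n 0 (start A b) n c * x c =
      - x (M + M) + ∑ d : Fin M, (if sg σ d = true then 0 else uu σ x d) := by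
    rw [sum_Acs, sum_XcS σ fun c => Rb M n 0 (start A b) n c * x c]
    have z1 : Rb M n 0 (start A b) n (M + M) = -1 := by
      unfold Rb
      rw [if_neg (by omega), if_neg (by omega), if_pos rfl, if_pos rfl]
    have z2 : Rb M n 0 (start A b) n (M + M + 1) = 0 := by
      unfold Rb
      rw [if_neg (by omega), if_neg (by omega), if_neg (by omega), if_pos rfl, if_neg (by omega)]
    rw [z1, z2, zero_mul, zero_add, neg_one_mul]
    congr 1
    refine Finset.sum_congr rfl fun d _ => ?_
    rw [Rb_ps_q]
    unfold uu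
    split_ifs <;> ring
  have e3 : ∑ c ∈ Acs M (drS M σ), Rb M n 0 (start A b) (n + 1) c * x c =
      - x (M + M + 1) + ∑ d : Fin M, uu σ x d := by
    rw [sum_Acs, sum_XcS σ fun c => Rb M n 0 (start A b) (n + 1) c * x c]
    have z1 : Rb M n 0 (start A b) (n + 1) (M + M) = 0 := by
      unfold Rb
      rw [if_neg (by omega), if_neg (by omega), if_pos rfl, if_neg (by omega)]
    have z2 : Rb M n 0 (start A b) (n + 1) (M + M + 1) = -1 := by
      unfold Rb
      rw [if_neg (by omega), if_neg (by omega), if_neg (by omega), if_pos rfl, if_pos rfl]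
    rw [z1, z2, zero_mul, zero_add, neg_one_mul]
    congr 1
    refine Finset.sum_congr rfl fun d _ => ?_
    rw [Rb_ps_nu, one_mul]
    rfl
  constructor
  · intro h
    refine ⟨fun i => ?_, ?_, ?_⟩
    · rw [← e1]
      exact h i (by have := i.2; omega)
    · have := h n (by omega)
      rw [e2] at this
      linarith
    · have := h (n + 1) (by omega)
      rw [e3] at this
      linarith
  · rintro ⟨h1, h2, h3⟩ i hi
    by_cases hin : i < n
    · have := e1 ⟨i, hin⟩
      rw [h1] at this
      exact this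
    by_cases hin' : i = n
    · subst hin'
      rw [e2]
      linarith
    · have : i = n + 1 := by omega
      subst this
      rw [e3]
      linarith

theorem mask_getD (M : ℕ) (σ B : List Bool) (c : ℕ) :
    (mask M σ B).getD c false = true ↔ c < M ∧ sg σ c = true ∧ B.getD c false = true := by
  unfold mask
  by_cases h : c < M
  · rw [List.getD_eq_getElem _ _ (by simpa using h)]
    simp [h]
  · rw [List.getD_eq_default _ _ (by simpa using h)]
    simp [h]

end Pool.Agent.V8H41.MD
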